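import Pool.Agent.Q278.GF.B

/-!
# Pointwise comparison of the gap statistic and the linear statistic (helper278)
-/

set_option autoImplicit false

namespace Pool.Agent.Q278.GF

open Finset MeasureTheory Filter Topology

/-- the unfolded gaps -/
noncomputable def dl (n : ℕ) : ℝ :=
  (SG.ord (n + 1) - SG.ord n) / (2 * Real.pi) * Real.log (SG.ord n / (2 * Real.pi))

/-- a test function with bounds -/
structure Tst (φ φ' : ℝ → ℝ) (B0 B2 R : ℝ) : Prop where
  cont : Continuous φ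
  b0 : ∀ x, |φ x| ≤ B0
  wt : Wt φ φ' B2
  supp : ∀ x, R ≤ |x| → φ x = 0
  R1 : 1 ≤ R

/-- the offset -/
noncomputable def K0 (R L : ℝ) : ℕ := ⌈R * L⌉₊ + 1

/-- the weight -/
noncomputable def ww (φ : ℝ → ℝ) (R L x : ℝ) : ℝ := φ ((x - K0 R L) / L)

/-- the gap statistic from the index `m` -/
noncomputable def FF (φ : ℝ → ℝ) (R L : ℝ) (m : ℕ) : ℝ :=
  ∑ i ∈ Icc 1 (4 * K0 R L), ww φ R L i * (dl (m + i) - 1)

variable {φ φ' : ℝ → ℝ} {B0 B2 R L : ℝ}

lemma K0_ge : R * L + 1 ≤ K0 R L := by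
  unfold K0
  push_cast
  linarith [Nat.le_ceil (R * L)]

lemma K0_pos : 1 ≤ K0 R L := by unfold K0; omega

lemma K0_le (hR : 1 ≤ R) (hL : 1 ≤ L) : (K0 R L : ℝ) ≤ (R + 2) * L := by
  unfold K0
  push_cast
  have := Nat.ceil_lt_add_one (a := R * L) (by positivity)
  nlinarith

lemma ww_low (h : Tst φ φ' B0 B2 R) (hL : 0 < L) {x : ℝ} (hx : x ≤ 1) : ww φ R L x = 0 := by
  refine h.supp _ ?_
  have h1 := K0_ge (R := R) (L := L)
  have hR := h.R1
  have h0 : 0 < R * L := by positivity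
  rw [abs_div, abs_of_pos hL, le_div_iff₀ hL, abs_of_nonpos (by linarith)]
  linarith

lemma ww_high (h : Tst φ φ' B0 B2 R) (hL : 0 < L) {x : ℝ} (hx : ((2 * K0 R L : ℕ) : ℝ) ≤ x) :
    ww φ R L x = 0 := by
  refine h.supp _ ?_
  have h1 := K0_ge (R := R) (L := L)
  have hR := h.R1
  have h0 : 0 < R * L := by positivity
  push_cast at hx
  rw [abs_div, abs_of_pos hL, le_div_iff₀ hL, abs_of_nonneg (by linarith)]
  linarith

lemma ww_wt (h : Tst φ φ' B0 B2 R) (hL : 0 < L) :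
    Wt (ww φ R L) (fun x => φ' ((x - K0 R L) / L) / L) (B2 / L ^ 2) := by
  intro x y
  have h1 := h.wt ((x - K0 R L) / L) ((y - K0 R L) / L)
  have e1 : (y - K0 R L) / L - (x - K0 R L) / L = (y - x) / L := by ring
  rw [e1] at h1
  unfold ww
  have e2 : φ' ((x - K0 R L) / L) * ((y - x) / L) = φ' ((x - K0 R L) / L) / L * (y - x) := by ring
  have e3 : B2 * ((y - x) / L) ^ 2 = B2 / L ^ 2 * (y - x) ^ 2 := by
    rw [div_pow]
    ring
  rw [e2, e3] at h1
  exact h1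

lemma ww_cont (h : Tst φ φ' B0 B2 R) : Continuous (ww φ R L) := by
  unfold ww
  exact h.cont.comp (by fun_prop)

lemma ww_int (hL : 0 < L) : ∫ x, ww φ R L x = L * ∫ x, φ x := by
  unfold ww
  have h1 : ∫ x, φ ((x - K0 R L) / L) = ∫ x, φ (x / L) :=
    integral_sub_right_eq_self (fun x => φ (x / L)) _
  rw [h1, Measure.integral_comp_div, abs_of_pos hL, smul_eq_mul]

/-- the statistic after a shift of the index -/
lemma FF_shift (h : Tst φ φ' B0 B2 R) (hL : 0 < L) {j : ℕ} (hj : j ≤ 2 * K0 R L) (m : ℕ) :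
    FF φ R L (m + j) = ∑ i ∈ Icc 1 (4 * K0 R L), ww φ R L ((i : ℝ) - j) * (dl (m + i) - 1) := by
  unfold FF
  have e1 : ∑ i ∈ Icc 1 (4 * K0 R L), ww φ R L i * (dl (m + j + i) - 1) =
      ∑ i ∈ Icc (1 + j) (4 * K0 R L + j), ww φ R L ((i : ℝ) - j) * (dl (m + i) - 1) := by
    rw [← Finset.map_add_right_Icc 1 (4 * K0 R L) j, Finset.sum_map]
    refine Finset.sum_congr rfl fun i _ => ?_
    simp only [addRightEmbedding_apply]
    push_cast
    rw [show (i : ℝ) + j - j = i by ring, show m + (i + j) = m + j + i by ring]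
  rw [e1]
  have e2 : ∑ i ∈ Icc (1 + j) (4 * K0 R L + j), ww φ R L ((i : ℝ) - j) * (dl (m + i) - 1) =
      ∑ i ∈ Icc 1 (4 * K0 R L + j), ww φ R L ((i : ℝ) - j) * (dl (m + i) - 1) := by
    refine Finset.sum_subset (Finset.Icc_subset_Icc_left (by omega)) fun i hi hi2 => ?_
    rw [Finset.mem_Icc] at hi hi2
    have : (i : ℝ) ≤ j := by exact_mod_cast (by omega : i ≤ j)
    rw [ww_low h hL (by linarith), zero_mul]
  have e3 : ∑ i ∈ Icc 1 (4 * K0 R L), ww φ R L ((i : ℝ) - j) * (dl (m + i) - 1) =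
      ∑ i ∈ Icc 1 (4 * K0 R L + j), ww φ R L ((i : ℝ) - j) * (dl (m + i) - 1) := by
    refine Finset.sum_subset (Finset.Icc_subset_Icc_right (by omega)) fun i hi hi2 => ?_
    rw [Finset.mem_Icc] at hi hi2
    have h1 : 2 * K0 R L + j ≤ i := by omega
    have h2 : ((2 * K0 R L : ℕ) : ℝ) + j ≤ i := by exact_mod_cast h1
    rw [ww_high h hL (by linarith), zero_mul]
  rw [e2, e3]

/-- all the `Z_i` are near `i` -/
def Good (R L T t : ℝ) : Prop :=
  ∀ i ∈ Icc 1 (4 * K0 R L + 1), |Z SG.NZ SG.ord (sc T) t i - i| ≤ ((2 * K0 R L : ℕ) : ℝ)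

/-- the error from the normalisation -/
noncomputable def er (B0 R L T : ℝ) : ℝ := B0 * (3 / Real.log T) * (6 * K0 R L + 1)

lemma log_near {x T : ℝ} (hT : 0 < T) (h1 : T / 2 ≤ x) (h2 : x ≤ 2 * T) :
    |Real.log (x / (2 * Real.pi)) - Real.log T| ≤ 3 := by
  have hpi := Real.pi_gt_three
  have hpi2 := Real.pi_lt_d2
  have hx : 0 < x := by linarith
  rw [← Real.log_div (by positivity) (by positivity), abs_le]
  have e : x / (2 * Real.pi) / T = x / T / (2 * Real.pi) := by field_simp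
  rw [e]
  have h3 : 1 / 2 ≤ x / T := by rw [le_div_iff₀ hT]; linarith
  have h4 : x / T ≤ 2 := by rw [div_le_iff₀ hT]; linarith
  have he : (2.7 : ℝ) < Real.exp 1 := lt_trans (by norm_num) Real.exp_one_gt_d9
  have he3 : (19 : ℝ) ≤ Real.exp 3 := by
    have : Real.exp 3 = Real.exp 1 ^ 3 := by rw [← Real.exp_nat_mul]; norm_num
    rw [this]
    have h5 : (2.7 : ℝ) ^ 3 ≤ Real.exp 1 ^ 3 := pow_le_pow_left₀ (by norm_num) he.le 3
    nlinarith
  constructor
  · rw [Real.le_log_iff_exp_le (by positivity), Real.exp_neg, inv_le_comm₀ (Real.exp_pos _) (by positivity)]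
    refine le_trans ?_ he3
    rw [inv_div, div_le_iff₀ (by positivity)]
    nlinarith
  · have h5 : x / T / (2 * Real.pi) ≤ 1 := by
      rw [div_le_one (by positivity)]
      linarith
    have := Real.log_nonpos (by positivity) h5
    linarith

lemma norm_err (h : Tst φ φ' B0 B2 R) {T t : ℝ} (hT : 1 < T)
    (hT2 : (6 * K0 R L + 1 : ℝ) / sc T ≤ T) (ht : t ∈ Set.Icc (T / 2) T) (hg : Good R L T t)
    (v : ℕ → ℝ) (hv : ∀ i, |v i| ≤ B0) :
    |∑ i ∈ Icc 1 (4 * K0 R L), v i * (dl (SG.NZ t + i) - 1) -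
      ∑ i ∈ Icc 1 (4 * K0 R L), v i * (Z SG.NZ SG.ord (sc T) t (i + 1) -
        Z SG.NZ SG.ord (sc T) t i - 1)| ≤ er B0 R L T := by
  have hpi := Real.pi_pos
  have hlT : 0 < Real.log T := Real.log_pos hT
  have hs : 0 < sc T := by unfold sc; positivity
  have hB0 : 0 ≤ B0 := (abs_nonneg _).trans (hv 0)
  set z := Z SG.NZ SG.ord (sc T) t with hz
  have hzm : ∀ i, 1 ≤ i → z i ≤ z (i + 1) := fun i hi => Z_mono cnt_NZ hs hi (by omega)
  have hz1 : 0 < z 1 := Z_pos cnt_NZ hs le_rfl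
  have hzl : z (4 * K0 R L + 1) ≤ 6 * K0 R L + 1 := by
    have := (abs_le.1 (hg (4 * K0 R L + 1) (Finset.mem_Icc.2 ⟨by omega, le_rfl⟩))).2
    rw [← hz] at this
    push_cast at this
    linarith
  have key : ∀ i ∈ Icc 1 (4 * K0 R L), |v i * (dl (SG.NZ t + i) - 1) -
      v i * (z (i + 1) - z i - 1)| ≤ B0 * (3 / Real.log T) * (z (i + 1) - z i) := by
    intro i hi
    rw [Finset.mem_Icc] at hi
    have hd : z (i + 1) - z i = (SG.ord (SG.NZ t + i + 1) - SG.ord (SG.NZ t + i)) * sc T := by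
      rw [hz]
      unfold Z
      rw [show SG.NZ t + (i + 1) = SG.NZ t + i + 1 by ring]
      ring
    have ho : SG.ord (SG.NZ t + i) = t + z i / sc T := by
      rw [hz]
      unfold Z
      rw [mul_div_assoc, div_self hs.ne', mul_one]
      ring
    have hzi : 0 < z i := Z_pos cnt_NZ hs hi.1
    have hzi2 : z i ≤ 6 * K0 R L + 1 := by
      refine le_trans ?_ hzl
      exact Z_mono cnt_NZ hs hi.1 (by omega)
    have h1 : SG.ord (SG.NZ t + i) ≤ 2 * T := by
      rw [ho]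
      have : z i / sc T ≤ (6 * K0 R L + 1) / sc T := div_le_div_of_nonneg_right hzi2 hs.le
      linarith [ht.2]
    have h2 : T / 2 ≤ SG.ord (SG.NZ t + i) := by
      rw [ho]
      have : 0 < z i / sc T := by positivity
      linarith [ht.1]
    have h3 := log_near (by linarith) h2 h1
    have h4 : dl (SG.NZ t + i) = (z (i + 1) - z i) * (Real.log (SG.ord (SG.NZ t + i) / (2 * Real.pi)) /
        Real.log T) := by
      rw [hd]
      unfold dl sc
      field_simp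
    rw [← mul_sub, h4, abs_mul]
    have h5 : (z (i + 1) - z i) * (Real.log (SG.ord (SG.NZ t + i) / (2 * Real.pi)) / Real.log T) - 1 -
        (z (i + 1) - z i - 1) = (z (i + 1) - z i) *
          ((Real.log (SG.ord (SG.NZ t + i) / (2 * Real.pi)) - Real.log T) / Real.log T) := by
      field_simp
      ring
    rw [h5, abs_mul, abs_of_nonneg (by linarith [hzm i hi.1] : 0 ≤ z (i + 1) - z i), abs_div,
      abs_of_pos hlT]
    have h6 : |Real.log (SG.ord (SG.NZ t + i) / (2 * Real.pi)) - Real.log T| / Real.log T ≤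
        3 / Real.log T := div_le_div_of_nonneg_right h3 hlT.le
    have h7 : 0 ≤ z (i + 1) - z i := by linarith [hzm i hi.1]
    calc |v i| * ((z (i + 1) - z i) * (|Real.log (SG.ord (SG.NZ t + i) / (2 * Real.pi)) - Real.log T| /
        Real.log T)) ≤ B0 * ((z (i + 1) - z i) * (3 / Real.log T)) := by
          refine mul_le_mul (hv i) (mul_le_mul_of_nonneg_left h6 h7) (by positivity) hB0
      _ = _ := by ring
  rw [← Finset.sum_sub_distrib]
  refine (Finset.abs_sum_le_sum_abs _ _).trans ((Finset.sum_le_sum key).trans ?_)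
  rw [← Finset.mul_sum]
  have htel : ∑ i ∈ Icc 1 (4 * K0 R L), (z (i + 1) - z i) = z (4 * K0 R L + 1) - z 1 := by
    have : ∀ M : ℕ, ∑ i ∈ Icc 1 M, (z (i + 1) - z i) = z (M + 1) - z 1 := by
      intro M
      induction M with
      | zero => simp
      | succ M ih =>
        rw [Finset.sum_Icc_succ_top (by omega), ih]
        ring
    exact this _
  rw [htel]
  unfold er
  refine mul_le_mul_of_nonneg_left (by linarith) (by positivity)

/-- the position statistic -/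
noncomputable def PP (φ : ℝ → ℝ) (R L T t : ℝ) : ℝ :=
  ∑ i ∈ Icc 1 (4 * K0 R L), ww φ R L (Z SG.NZ SG.ord (sc T) t i) - L * ∫ x, φ x

/-- the first comparison -/
lemma point1 (h : Tst φ φ' B0 B2 R) (hL : 0 < L) {T t : ℝ} (hT : 1 < T)
    (hT2 : (6 * K0 R L + 1 : ℝ) / sc T ≤ T) (ht : t ∈ Set.Icc (T / 2) T) (hg : Good R L T t) :
    |FF φ R L (SG.NZ t) + PP φ R L T t| ≤ B2 / L ^ 2 * ∑ i ∈ Icc 1 (4 * K0 R L),
      (2 * (Z SG.NZ SG.ord (sc T) t i - i) ^ 2 + 3) + er B0 R L T := by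
  have hw := ww_wt (L := L) h hL
  have h1 := lin_cmp hw (ww_cont h) (A := 2 * K0 R L) (M := 4 * K0 R L)
    (by have := K0_pos (R := R) (L := L); omega) (by omega) (fun x hx => ww_low h hL hx)
    (fun x hx => ww_high h hL hx) (Z SG.NZ SG.ord (sc T) t)
  rw [ww_int hL] at h1
  have h2 := norm_err h hT hT2 ht hg (fun i => ww φ R L i) (fun i => h.b0 _)
  unfold FF PP
  set P := ∑ i ∈ Icc 1 (4 * K0 R L), ww φ R L i * (dl (SG.NZ t + i) - 1)
  set Q := ∑ i ∈ Icc 1 (4 * K0 R L), ww φ R L i * (Z SG.NZ SG.ord (sc T) t (i + 1) -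
        Z SG.NZ SG.ord (sc T) t i - 1)
  rw [show P + (∑ i ∈ Icc 1 (4 * K0 R L), ww φ R L (Z SG.NZ SG.ord (sc T) t i) - L * ∫ x, φ x) =
    (Q + (∑ i ∈ Icc 1 (4 * K0 R L), ww φ R L (Z SG.NZ SG.ord (sc T) t i) - L * ∫ x, φ x)) +
      (P - Q) by ring]
  exact (abs_add_le _ _).trans (add_le_add h1 h2)

/-- the second comparison -/
lemma point2 (h : Tst φ φ' B0 B2 R) (hL : 0 < L) {T t : ℝ} (hT : 1 < T)
    (hT2 : (6 * K0 R L + 1 : ℝ) / sc T ≤ T) (ht : t ∈ Set.Icc (T / 2) T) (hg : Good R L T t)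
    {j : ℕ} (hj : 1 ≤ j) (hj2 : j ≤ 2 * K0 R L) :
    |FF φ R L (SG.NZ t + j) - FF φ R L (SG.NZ t)| ≤ 4 * (B2 / L ^ 2) * j *
      ∑ i ∈ Icc 1 (4 * K0 R L), ((Z SG.NZ SG.ord (sc T) t i - i) ^ 2 + 1) + 2 * er B0 R L T := by
  have hw := ww_wt (L := L) h hL
  have h1 := shift_cmp hw (A := 2 * K0 R L) (M := 4 * K0 R L) hj (by omega)
    (fun x hx => ww_low h hL hx) (fun x hx => ww_high h hL hx) (Z SG.NZ SG.ord (sc T) t)
  have h2 := norm_err h hT hT2 ht hg (fun i => ww φ R L i) (fun i => h.b0 _)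
  have h3 := norm_err h hT hT2 ht hg (fun i => ww φ R L ((i : ℝ) - j)) (fun i => h.b0 _)
  rw [FF_shift h hL hj2]
  unfold FF
  set P := ∑ i ∈ Icc 1 (4 * K0 R L), ww φ R L i * (dl (SG.NZ t + i) - 1)
  set Q := ∑ i ∈ Icc 1 (4 * K0 R L), ww φ R L i * (Z SG.NZ SG.ord (sc T) t (i + 1) -
        Z SG.NZ SG.ord (sc T) t i - 1)
  set P' := ∑ i ∈ Icc 1 (4 * K0 R L), ww φ R L ((i : ℝ) - j) * (dl (SG.NZ t + i) - 1)
  set Q' := ∑ i ∈ Icc 1 (4 * K0 R L), ww φ R L ((i : ℝ) - j) * (Z SG.NZ SG.ord (sc T) t (i + 1) -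
        Z SG.NZ SG.ord (sc T) t i - 1)
  have e : ∑ i ∈ Icc 1 (4 * K0 R L), (ww φ R L i - ww φ R L ((i : ℝ) - j)) *
      (Z SG.NZ SG.ord (sc T) t (i + 1) - Z SG.NZ SG.ord (sc T) t i - 1) = Q - Q' := by
    rw [← Finset.sum_sub_distrib]
    exact Finset.sum_congr rfl fun i _ => by ring
  rw [e] at h1
  rw [show P' - P = (P' - Q') - (P - Q) - (Q - Q') by ring]
  have h4 := abs_sub (P' - Q' - (P - Q)) (Q - Q')
  have h5 := abs_sub (P' - Q') (P - Q)
  linarith

end Pool.Agent.Q278.GF
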