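import Pool.Agent.Q278.GF.K

/-!
# Distribution functions of the gap statistics (helper278)
-/

set_option autoImplicit false

namespace Pool.Agent.Q278.GF

open Finset MeasureTheory Filter Topology Complex ProbabilityTheory
open scoped ContDiff RealInnerProductSpace BoundedContinuousFunction NNReal
open Pool.Agent.Q278.MC (CC fc vr lc lc_CC lc_fc cm cm_quad cm_pos cv cv_pos)
open Q172.ZetaLim (seen IsLim)

/-- a ramp from `1` on `(-∞, y]` to `0` on `[y + η, ∞)` -/
noncomputable def rp (y η x : ℝ) : ℝ := max 0 (min 1 ((y + η - x) / η))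

variable {y η : ℝ}

lemma rp_cont (y η : ℝ) : Continuous (rp y η) := by
  unfold rp
  fun_prop

lemma rp_nonneg (x : ℝ) : 0 ≤ rp y η x := le_max_left _ _

lemma rp_le (x : ℝ) : rp y η x ≤ 1 := max_le (by norm_num) (min_le_left _ _)

lemma rp_abs (x : ℝ) : |rp y η x| ≤ 1 := by
  rw [abs_of_nonneg (rp_nonneg x)]
  exact rp_le x

lemma rp_one (hη : 0 < η) {x : ℝ} (hx : x ≤ y) : rp y η x = 1 := by
  unfold rp
  have h1 : 1 ≤ (y + η - x) / η := by
    rw [le_div_iff₀ hη]
    linarith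
  rw [min_eq_left h1, max_eq_right (by norm_num)]

lemma rp_zero (hη : 0 < η) {x : ℝ} (hx : y + η ≤ x) : rp y η x = 0 := by
  unfold rp
  have h1 : (y + η - x) / η ≤ 0 := div_nonpos_of_nonpos_of_nonneg (by linarith) hη.le
  rw [max_eq_left ((min_le_right _ _).trans h1)]

lemma ge_ind (hη : 0 < η) (x : ℝ) : (if x ≤ y then (1 : ℝ) else 0) ≤ rp y η x := by
  split_ifs with h
  · exact (rp_one hη h).ge
  · exact rp_nonneg x

lemma le_ind (hη : 0 < η) (x : ℝ) : rp y η x ≤ if x ≤ y + η then (1 : ℝ) else 0 := by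
  split_ifs with h
  · exact rp_le x
  · exact (rp_zero hη (le_of_not_ge h)).le

/-- integrals of the ramp -/
lemma rp_int {Ω : Type*} [MeasurableSpace Ω] (P : Measure Ω) [IsProbabilityMeasure P] {X : Ω → ℝ}
    (hX : Measurable X) (hη : 0 < η) : P.real {q | X q ≤ y} ≤ ∫ q, rp y η (X q) ∂P ∧
      ∫ q, rp y η (X q) ∂P ≤ P.real {q | X q ≤ y + η} := by
  have hi : Integrable (fun q => rp y η (X q)) P := by
    refine Integrable.of_bound ((rp_cont y η).measurable.comp hX).aestronglyMeasurable 1 ?_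
    exact Eventually.of_forall fun q => rp_abs _
  have hind : ∀ a : ℝ, P.real {q | X q ≤ a} = ∫ q, (if X q ≤ a then (1 : ℝ) else 0) ∂P ∧
      Integrable (fun q => if X q ≤ a then (1 : ℝ) else 0) P := by
    intro a
    have hm : MeasurableSet {q | X q ≤ a} := hX measurableSet_Iic
    have e : (fun q => if X q ≤ a then (1 : ℝ) else 0) = {q | X q ≤ a}.indicator fun _ => (1 : ℝ) := by
      funext q
      simp only [Set.indicator, Set.mem_ofPred_eq]
    rw [e]
    constructor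
    · rw [integral_indicator hm, setIntegral_const, smul_eq_mul, mul_one]
    · exact (integrable_const 1).indicator hm
  constructor
  · rw [(hind y).1]
    exact integral_mono (hind y).2 hi fun q => ge_ind hη _
  · rw [(hind (y + η)).1]
    exact integral_mono hi (hind (y + η)).2 fun q => le_ind hη _

/-- continuity of the distribution function of a Gaussian law -/
lemma gauss_Iic {v : ℝ≥0} (hv : v ≠ 0) : ∃ c : ℝ, 0 < c ∧ ∀ a b : ℝ, a ≤ b →
    (gaussianReal 0 v).real (Set.Iic b) ≤ (gaussianReal 0 v).real (Set.Iic a) + c * (b - a) := by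
  have hv0 : (0 : ℝ) < v := lt_of_le_of_ne v.2 (fun h => hv (by ext; exact h.symm))
  refine ⟨(Real.sqrt (2 * Real.pi * v))⁻¹, by positivity, fun a b hab => ?_⟩
  have h1 : Set.Iic b = Set.Iic a ∪ Set.Ioc a b := (Set.Iic_union_Ioc_eq_Iic hab).symm
  have h2 : (gaussianReal 0 v).real (Set.Iic b) ≤ (gaussianReal 0 v).real (Set.Iic a) +
      (gaussianReal 0 v).real (Set.Ioc a b) := by
    rw [h1]
    exact measureReal_union_le _ _
  have h3 : (gaussianReal 0 v).real (Set.Ioc a b) ≤ (Real.sqrt (2 * Real.pi * v))⁻¹ * (b - a) := by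
    rw [Measure.real, gaussianReal_apply_eq_integral 0 hv, ENNReal.toReal_ofReal
      (integral_nonneg fun x => gaussianPDFReal_nonneg _ _ _)]
    have h4 : ∫ x in Set.Ioc a b, gaussianPDFReal 0 v x ≤ ∫ x in Set.Ioc a b, (Real.sqrt (2 * Real.pi * v))⁻¹ := by
      refine integral_mono (integrable_gaussianPDFReal 0 v).integrableOn
        (integrableOn_const (by simp) enorm_ne_top) fun x => ?_
      rw [gaussianPDFReal]
      refine mul_le_of_le_one_right (by positivity) ?_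
      rw [Real.exp_le_one_iff]
      have : 0 ≤ (x - 0) ^ 2 / (2 * v) := by positivity
      rw [neg_div]
      linarith
    refine h4.trans (le_of_eq ?_)
    rw [setIntegral_const, Measure.real, Real.volume_Ioc, ENNReal.toReal_ofReal (by linarith), smul_eq_mul,
      mul_comm]
  linarith

/-- **distribution functions** -/
theorem cdf_lim {φ : ℝ → ℝ} (h1 : ContDiff ℝ ∞ φ) (h2 : HasCompactSupport φ) (h0 : φ ≠ 0)
    (y ε : ℝ) (hε : 0 < ε) : ∃ L0 : ℝ, 1 ≤ L0 ∧ ∀ L : ℝ, L0 ≤ L →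
      (∀ P : ProbabilityMeasure (ℤ → ℝ), IsLim (seen dl) P →
        |(P : Measure (ℤ → ℝ)).real {q | Fn φ L q ≤ y} -
          (gaussianReal 0 (cv φ φ).toNNReal).real (Set.Iic y)| ≤ ε) ∧
      ∀ᶠ N : ℕ in atTop, |(((Icc 1 N).filter fun n => Fn φ L (seen dl n) ≤ y).card : ℝ) / N -
          (gaussianReal 0 (cv φ φ).toNNReal).real (Set.Iic y)| ≤ ε := by
  have hfam : Fam (fun _ : Fin 1 => φ) := fun _ => ⟨h1, h2⟩
  have hCC : ∀ j : Fin 1, CC (fc ((fun _ : Fin 1 => φ) j)) := fun _ => cc_of h1 h2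
  have hv : 0 < cv φ φ := cv_pos (cc_of h1 h2) h0
  have hv' : (cv φ φ).toNNReal ≠ 0 := by
    rw [ne_eq, Real.toNNReal_eq_zero, not_le]
    exact hv
  obtain ⟨c, hc, hG⟩ := gauss_Iic hv'
  set G := gaussianReal 0 (cv φ φ).toNNReal with hGd
  obtain ⟨η, hη, hηc⟩ : ∃ η : ℝ, 0 < η ∧ c * η ≤ ε / 2 := ⟨ε / (2 * c), by positivity, by
    field_simp
    exact le_rfl⟩
  -- the two test functions
  have hΦ : ∀ y' : ℝ, ∃ Φ : EuclideanSpace ℝ (Fin 1) →ᵇ ℝ, (∀ x, Φ x = rp y' η (x.ofLp 0)) := by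
    intro y'
    refine ⟨BoundedContinuousFunction.ofNormedAddCommGroup
      (fun x : EuclideanSpace ℝ (Fin 1) => rp y' η (x.ofLp 0)) ?_ 1 fun x => rp_abs _, fun x => rfl⟩
    exact (rp_cont y' η).comp (by fun_prop)
  have hint : ∀ y' : ℝ, ∀ Φ : EuclideanSpace ℝ (Fin 1) →ᵇ ℝ, (∀ x, Φ x = rp y' η (x.ofLp 0)) →
      ∫ x, Φ x ∂(multivariateGaussian 0 (cm fun _ : Fin 1 => φ)) = ∫ x, rp y' η x ∂G := by
    intro y' Φ hΦ'
    simp only [hΦ']
    have hmp := measurePreserving_eval_multivariateGaussian (μ := (0 : EuclideanSpace ℝ (Fin 1)))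
      (cm_pos hCC) (i := 0)
    have e1 : ((cm fun _ : Fin 1 => φ) 0 0) = cv φ φ := rfl
    rw [e1] at hmp
    have e2 : (0 : EuclideanSpace ℝ (Fin 1)) 0 = 0 := rfl
    rw [e2] at hmp
    rw [hGd, ← hmp.map_eq, integral_map hmp.measurable.aemeasurable
      (rp_cont y' η).aestronglyMeasurable]
  obtain ⟨Φ1, hΦ1⟩ := hΦ y
  obtain ⟨Φ2, hΦ2⟩ := hΦ (y - η)
  obtain ⟨L1, hL1, a1⟩ := lim_weak hfam Φ1 (ε / 2) (by positivity)
  obtain ⟨L2, hL2, a2⟩ := lim_weak hfam Φ2 (ε / 2) (by positivity)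
  obtain ⟨L3, hL3, a3⟩ := emp_weak hfam Φ1 (ε / 2) (by positivity)
  obtain ⟨L4, hL4, a4⟩ := emp_weak hfam Φ2 (ε / 2) (by positivity)
  rw [hint y Φ1 hΦ1] at a1 a3
  rw [hint (y - η) Φ2 hΦ2] at a2 a4
  -- bounds for the Gaussian integrals
  have g1 := rp_int G (X := fun x => x) measurable_id (y := y) hη
  have g2 := rp_int G (X := fun x => x) measurable_id (y := y - η) hη
  rw [sub_add_cancel] at g2
  have g3 := hG y (y + η) (by linarith)
  have g4 := hG (y - η) y (by linarith)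
  have s1 : ∀ a : ℝ, G.real {q | q ≤ a} = G.real (Set.Iic a) := fun a => rfl
  rw [s1, s1] at g1 g2
  obtain ⟨R, hR1, hR⟩ := hfam.radius
  refine ⟨max (max L1 L2) (max L3 L4), hL1.trans ((le_max_left _ _).trans (le_max_left _ _)),
    fun L hL => ?_⟩
  have b1 : L1 ≤ L := ((le_max_left _ _).trans (le_max_left _ _)).trans hL
  have b2 : L2 ≤ L := ((le_max_right _ _).trans (le_max_left _ _)).trans hL
  have b3 : L3 ≤ L := ((le_max_left _ _).trans (le_max_right _ _)).trans hL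
  have b4 : L4 ≤ L := ((le_max_right _ _).trans (le_max_right _ _)).trans hL
  have hLp : 0 < L := by linarith
  have hFm : Measurable (Fn φ L) := (Fn_cont (hR 0) hLp).measurable
  constructor
  · intro P hP
    have c1 := a1 L b1 P hP
    have c2 := a2 L b2 P hP
    simp only [hΦ1] at c1
    simp only [hΦ2] at c2
    have e1 : ∀ q, (vec (fun _ : Fin 1 => φ) L q).ofLp 0 = Fn φ L q := fun q => rfl
    simp only [e1] at c1 c2
    have d1 := rp_int (P : Measure (ℤ → ℝ)) hFm (y := y) hη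
    have d2 := rp_int (P : Measure (ℤ → ℝ)) hFm (y := y - η) hη
    rw [sub_add_cancel] at d2
    rw [abs_le] at c1 c2 ⊢
    constructor
    · linarith [d2.2, c2.1, g2.1]
    · linarith [d1.1, c1.2, g1.2]
  · filter_upwards [a3 L b3, a4 L b4, eventually_gt_atTop 0] with N c1 c2 hN
    simp only [hΦ1] at c1
    simp only [hΦ2] at c2
    have e1 : ∀ q, (vec (fun _ : Fin 1 => φ) L q).ofLp 0 = Fn φ L q := fun q => rfl
    simp only [e1] at c1 c2
    have hN' : (0 : ℝ) < N := by exact_mod_cast hN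
    have e2 : (((Icc 1 N).filter fun n => Fn φ L (seen dl n) ≤ y).card : ℝ) =
        ∑ n ∈ Icc 1 N, if Fn φ L (seen dl n) ≤ y then (1 : ℝ) else 0 := by
      rw [← Finset.sum_filter, Finset.sum_const, nsmul_eq_mul, mul_one]
    have d1 : (((Icc 1 N).filter fun n => Fn φ L (seen dl n) ≤ y).card : ℝ) / N ≤
        (∑ n ∈ Icc 1 N, rp y η (Fn φ L (seen dl n))) / N := by
      rw [e2]
      exact div_le_div_of_nonneg_right (Finset.sum_le_sum fun n _ => ge_ind hη _) hN'.le
    have d2 : (∑ n ∈ Icc 1 N, rp (y - η) η (Fn φ L (seen dl n))) / N ≤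
        (((Icc 1 N).filter fun n => Fn φ L (seen dl n) ≤ y).card : ℝ) / N := by
      rw [e2]
      refine div_le_div_of_nonneg_right (Finset.sum_le_sum fun n _ => ?_) hN'.le
      have := le_ind (y := y - η) hη (Fn φ L (seen dl n))
      rwa [sub_add_cancel] at this
    rw [abs_le] at c1 c2 ⊢
    constructor
    · linarith [c2.1, g2.1]
    · linarith [c1.2, g1.2]

end Pool.Agent.Q278.GF
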