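import Pool.Agent.Q278.GF.J

/-!
# Convergence in law of the gap statistics (helper278)
-/

set_option autoImplicit false

namespace Pool.Agent.Q278.GF

open Finset MeasureTheory Filter Topology Complex ProbabilityTheory
open scoped ContDiff RealInnerProductSpace BoundedContinuousFunction
open Pool.Agent.Q278.MC (CC fc vr lc lc_CC lc_fc cm cm_quad cm_pos gP gP_coe)
open Q172.ZetaLim (seen IsLim law tight tight_compact isLim_iff tendsto_law_iff)

/-- a family of test functions -/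
def Fam {k : ℕ} (f : Fin k → ℝ → ℝ) : Prop := ∀ j, ContDiff ℝ ∞ (f j) ∧ HasCompactSupport (f j)

variable {k : ℕ} {f : Fin k → ℝ → ℝ}

/-- a common radius -/
lemma Fam.radius (hf : Fam f) : ∃ R : ℝ, 1 ≤ R ∧ ∀ j, ∀ x, R ≤ |x| → f j x = 0 := by
  choose φ' B0 B2 R hR using fun j => tst_of (hf j).1 (hf j).2
  have h1 : ∀ j, 1 ≤ R j := fun j => (hR j).R1
  have h2 : ∀ j, R j ≤ ∑ i, R i := fun j =>
    Finset.single_le_sum (f := R) (fun i _ => by linarith [h1 i]) (Finset.mem_univ j)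
  refine ⟨1 + ∑ i, R i, ?_, fun j x hx => (hR j).supp x ?_⟩
  · have : 0 ≤ ∑ i, R i := Finset.sum_nonneg fun i _ => by linarith [h1 i]
    linarith
  · linarith [h2 j]

lemma lc_test (hf : Fam f) (c : Fin k → ℝ) : ContDiff ℝ ∞ (lc f c) ∧ HasCompactSupport (lc f c) := by
  constructor
  · unfold lc
    exact ContDiff.sum fun j _ => contDiff_const.mul (hf j).1
  · have : ∀ s : Finset (Fin k), HasCompactSupport fun x => ∑ j ∈ s, c j * f j x := by
      intro s
      classical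
      induction s using Finset.induction_on with
      | empty =>
        simp only [Finset.sum_empty]
        exact (HasCompactSupport.zero : HasCompactSupport (0 : ℝ → ℝ))
      | insert a s ha ih =>
        simp only [Finset.sum_insert ha]
        exact HasCompactSupport.add ((hf a).2.mul_left) ih
    exact this _

/-- the random vector -/
noncomputable def vec (f : Fin k → ℝ → ℝ) (L : ℝ) (q : ℤ → ℝ) : EuclideanSpace ℝ (Fin k) :=
  WithLp.toLp 2 fun j => Fn (f j) L q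

lemma vec_cont (hf : Fam f) {L : ℝ} (hL : 0 < L) : Continuous (vec f L) := by
  obtain ⟨R, hR1, hR⟩ := hf.radius
  unfold vec
  refine (PiLp.continuous_toLp 2 _).comp ?_
  exact continuous_pi fun j => Fn_cont (hR j) hL

lemma vec_inner (hf : Fam f) {L : ℝ} (hL : 0 < L) (u : EuclideanSpace ℝ (Fin k)) (q : ℤ → ℝ) :
    ⟪vec f L q, u⟫ = Fn (lc f u.ofLp) L q := by
  obtain ⟨R, hR1, hR⟩ := hf.radius
  have hlc : ∀ x, R ≤ |x| → lc f u.ofLp x = 0 := by
    intro x hx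
    unfold lc
    refine Finset.sum_eq_zero fun j _ => ?_
    rw [hR j x hx, mul_zero]
  have h1 : R * L ≤ (⌈R * L⌉₊ : ℝ) := Nat.le_ceil _
  rw [Fn_eq_sum hlc hL h1]
  unfold vec
  rw [PiLp.inner_apply]
  have e : ∀ j, Fn (f j) L q = ∑ k ∈ Icc (-(⌈R * L⌉₊ : ℤ)) (⌈R * L⌉₊ : ℤ), f j (k / L) * (q k - 1) :=
    fun j => Fn_eq_sum (hR j) hL h1 q
  unfold lc
  simp only [e, Finset.sum_mul]
  rw [Finset.sum_comm]
  refine Finset.sum_congr rfl fun j _ => ?_
  show ⟪∑ k ∈ Icc (-(⌈R * L⌉₊ : ℤ)) (⌈R * L⌉₊ : ℤ), f j (k / L) * (q k - 1), u.ofLp j⟫ = _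
  rw [real_inner_eq_re_inner ℝ]
  simp only [RCLike.inner_apply, conj_trivial, RCLike.re_to_real]
  rw [Finset.mul_sum]
  refine Finset.sum_congr rfl fun i _ => ?_
  ring

/-- the law of the vector under `P` -/
noncomputable def vlaw (f : Fin k → ℝ → ℝ) (L : ℝ) (P : ProbabilityMeasure (ℤ → ℝ))
    (hc : Continuous (vec f L)) : ProbabilityMeasure (EuclideanSpace ℝ (Fin k)) :=
  P.map hc.measurable.aemeasurable

/-- **weak convergence, uniformly over the limit processes** -/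
theorem lim_weak (hf : Fam f) (Φ : EuclideanSpace ℝ (Fin k) →ᵇ ℝ) (ε : ℝ) (hε : 0 < ε) :
    ∃ L0 : ℝ, 1 ≤ L0 ∧ ∀ L : ℝ, L0 ≤ L → ∀ P : ProbabilityMeasure (ℤ → ℝ), IsLim (seen dl) P →
      |∫ q, Φ (vec f L q) ∂(P : Measure (ℤ → ℝ)) - ∫ x, Φ x ∂(multivariateGaussian 0 (cm f))| ≤ ε := by
  by_contra hcon
  push Not at hcon
  have hch : ∀ n : ℕ, ∃ L : ℝ, (n : ℝ) + 1 ≤ L ∧ ∃ P : ProbabilityMeasure (ℤ → ℝ),
      IsLim (seen dl) P ∧ ε < |∫ q, Φ (vec f L q) ∂(P : Measure (ℤ → ℝ)) -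
        ∫ x, Φ x ∂(multivariateGaussian 0 (cm f))| := by
    intro n
    obtain ⟨L, hL, P, hP, h1⟩ := hcon ((n : ℝ) + 1) (by linarith [(Nat.cast_nonneg n : (0 : ℝ) ≤ n)])
    exact ⟨L, hL, P, hP, h1⟩
  choose L hL P hP hbad using hch
  have hn0 : ∀ n : ℕ, (0 : ℝ) ≤ n := fun n => Nat.cast_nonneg n
  have hLp : ∀ n, 0 < L n := fun n => by linarith [hL n, hn0 n]
  have hLtop : Tendsto L atTop atTop := by
    refine tendsto_atTop_mono (fun n => hL n) ?_
    exact tendsto_atTop_add_const_right _ _ tendsto_natCast_atTop_atTop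
  have hcont : ∀ n, Continuous (vec f (L n)) := fun n => vec_cont hf (hLp n)
  set nu : ℕ → ProbabilityMeasure (EuclideanSpace ℝ (Fin k)) := fun n => vlaw f (L n) (P n) (hcont n)
    with hnu
  have hCC : ∀ j, CC (fc (f j)) := fun j => cc_of (hf j).1 (hf j).2
  have hlim : Tendsto nu atTop (𝓝 (gP f)) := by
    refine ProbabilityMeasure.tendsto_iff_tendsto_charFun.2 fun u => ?_
    have e1 : charFun ((gP f : ProbabilityMeasure (EuclideanSpace ℝ (Fin k))) :
        Measure (EuclideanSpace ℝ (Fin k))) u = cexp ((-vr (fc (lc f u.ofLp)) / 2 : ℝ) : ℂ) := by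
      rw [gP_coe, charFun_multivariateGaussian (cm_pos hCC), inner_zero_right, ← cm_quad hCC]
      congr 1
      push_cast
      ring
    rw [e1]
    have e2 : ∀ n, charFun ((nu n : ProbabilityMeasure (EuclideanSpace ℝ (Fin k))) :
        Measure (EuclideanSpace ℝ (Fin k))) u =
        ∫ q, cexp (I * ((Fn (lc f u.ofLp) (L n) q : ℝ) : ℂ)) ∂(P n : Measure (ℤ → ℝ)) := by
      intro n
      rw [charFun_apply, hnu]
      show ∫ x, cexp (((⟪x, u⟫ : ℝ) : ℂ) * I) ∂((P n : Measure (ℤ → ℝ)).map (vec f (L n))) = _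
      rw [integral_map (hcont n).measurable.aemeasurable (by
        refine Continuous.aestronglyMeasurable ?_
        fun_prop)]
      refine integral_congr_ae (Eventually.of_forall fun q => ?_)
      show cexp (((⟪vec f (L n) q, u⟫ : ℝ) : ℂ) * I) = _
      rw [vec_inner hf (hLp n), mul_comm]
    simp only [e2]
    obtain ⟨h1, h2⟩ := lc_test hf u.ofLp
    obtain ⟨φ', B0, B2, R, hT⟩ := tst_of h1 h2
    rw [Metric.tendsto_nhds]
    intro η hη
    obtain ⟨L0, hL0, h3⟩ := lim_char hT (cc_of h1 h2) (η / 2) (by positivity)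
    filter_upwards [hLtop.eventually_ge_atTop L0] with n hn
    rw [dist_eq_norm]
    have := h3 (L n) hn (P n) (hP n)
    linarith
  have h4 := (ProbabilityMeasure.tendsto_iff_forall_integral_tendsto.1 hlim) Φ
  obtain ⟨n, hn⟩ := (Metric.tendsto_nhds.1 h4 ε hε).exists
  have e3 : ∫ x, Φ x ∂((nu n : ProbabilityMeasure (EuclideanSpace ℝ (Fin k))) :
      Measure (EuclideanSpace ℝ (Fin k))) = ∫ q, Φ (vec f (L n) q) ∂(P n : Measure (ℤ → ℝ)) := by
    rw [hnu]
    show ∫ x, Φ x ∂((P n : Measure (ℤ → ℝ)).map (vec f (L n))) = _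
    rw [integral_map (hcont n).measurable.aemeasurable Φ.continuous.aestronglyMeasurable]
  rw [Real.dist_eq, e3] at hn
  exact absurd hn (not_lt.2 (hbad n).le)

/-- the laws of the sequences of gaps are tight -/
lemma dl_tight : ∀ ε : ℝ, 0 < ε → ∃ Q : Set (ℤ → ℝ), IsCompact Q ∧
    ∀ N, (law (seen dl) N : Measure (ℤ → ℝ)).real Qᶜ ≤ ε := by
  obtain ⟨C1, hC1, hmean⟩ := Pool.Agent.Q276.LR.mean_dev
  obtain ⟨C0, hC0, hall⟩ := Q172.ZetaLim.mean_all (d := dl) hC1 hmean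
  exact fun ε hε => tight hC0 hall ε hε

/-- bounds at all limit processes give bounds for all large `N` -/
lemma emp_of_lim {F : (ℤ → ℝ) → ℝ} (hF : Continuous F) {M : ℝ} (hM : ∀ q, |F q| ≤ M) {a ε : ℝ}
    (hε : 0 < ε) (h : ∀ P : ProbabilityMeasure (ℤ → ℝ), IsLim (seen dl) P →
      |∫ q, F q ∂(P : Measure (ℤ → ℝ)) - a| ≤ ε) :
    ∀ᶠ N : ℕ in atTop, |(∑ n ∈ Icc 1 N, F (seen dl n)) / (N : ℝ) - a| ≤ 2 * ε := by
  rw [← Filter.map_add_atTop_eq_nat 1, Filter.eventually_map]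
  by_contra hcon
  rw [Filter.not_eventually] at hcon
  obtain ⟨ns, hns, hbad⟩ := Filter.extraction_of_frequently_atTop hcon
  obtain ⟨P, _, ψ, hψ, hlim⟩ := (tight_compact _ dl_tight).tendsto_subseq
    (x := fun j => law (seen dl) (ns j)) fun j => subset_closure ⟨ns j, rfl⟩
  have hPl : IsLim (seen dl) P := by
    rw [isLim_iff]
    refine MapClusterPt.of_comp (hns.tendsto_atTop.comp hψ.tendsto_atTop) ?_
    exact hlim.mapClusterPt
  have h1 := h P hPl
  have h2 := (tendsto_law_iff (seen dl) (fun j => ns (ψ j)) P).1 hlim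
    (BoundedContinuousFunction.ofNormedAddCommGroup F hF M hM)
  simp only [BoundedContinuousFunction.coe_ofNormedAddCommGroup] at h2
  obtain ⟨j, hj⟩ := (Metric.tendsto_nhds.1 h2 ε hε).exists
  rw [Real.dist_eq] at hj
  have h3 := hbad (ψ j)
  unfold Q172.ZetaLim.av at hj
  apply h3
  have h4 := abs_sub_le ((∑ n ∈ Icc 1 (ns (ψ j) + 1), F (seen dl n)) / ((ns (ψ j) + 1 : ℕ) : ℝ))
    (∫ q, F q ∂(P : Measure (ℤ → ℝ))) a
  linarith

/-- **weak convergence for the empirical laws** -/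
theorem emp_weak (hf : Fam f) (Φ : EuclideanSpace ℝ (Fin k) →ᵇ ℝ) (ε : ℝ) (hε : 0 < ε) :
    ∃ L0 : ℝ, 1 ≤ L0 ∧ ∀ L : ℝ, L0 ≤ L → ∀ᶠ N : ℕ in atTop,
      |(∑ n ∈ Icc 1 N, Φ (vec f L (seen dl n))) / (N : ℝ) -
        ∫ x, Φ x ∂(multivariateGaussian 0 (cm f))| ≤ ε := by
  obtain ⟨L0, hL0, h⟩ := lim_weak hf Φ (ε / 2) (by positivity)
  refine ⟨L0, hL0, fun L hL => ?_⟩
  have hLp : 0 < L := by linarith
  have h1 := emp_of_lim (F := fun q => Φ (vec f L q)) (Φ.continuous.comp (vec_cont hf hLp))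
    (M := ‖Φ‖) (fun q => Φ.norm_coe_le_norm _) (by positivity) (h L hL)
  filter_upwards [h1] with N hN
  linarith

end Pool.Agent.Q278.GF
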