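import Mathlib

/-!
# Statistics of the points after `t`, by index and by position (helper278)
-/

set_option autoImplicit false

namespace Pool.Agent.Q278.GF

open Finset MeasureTheory

/-- `N` counts the points `o 1 ≤ o 2 ≤ …` up to `t` -/
def Cnt (N : ℝ → ℕ) (o : ℕ → ℝ) : Prop := ∀ n : ℕ, 1 ≤ n → ∀ t : ℝ, o n ≤ t ↔ n ≤ N t

/-- position of the `i`-th point after `t` -/
noncomputable def Z (N : ℝ → ℕ) (o : ℕ → ℝ) (l t : ℝ) (i : ℕ) : ℝ := (o (N t + i) - t) * l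

/-- the discrepancy -/
noncomputable def D (N : ℝ → ℕ) (l t x : ℝ) : ℝ := (N (t + x / l) : ℝ) - N t - x

variable {N : ℝ → ℕ} {o : ℕ → ℝ} {l t : ℝ}

lemma Cnt.mono (h : Cnt N o) : Monotone N := by
  intro s t hst
  rcases Nat.eq_zero_or_pos (N s) with h0 | h0
  · omega
  · exact (h _ h0 t).1 (((h _ h0 s).2 le_rfl).trans hst)

lemma Cnt.omono (h : Cnt N o) {n m : ℕ} (hn : 1 ≤ n) (hnm : n ≤ m) : o n ≤ o m := by
  rw [h n hn]
  exact hnm.trans ((h m (hn.trans hnm) (o m)).1 le_rfl)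

lemma Z_pos (h : Cnt N o) (hl : 0 < l) {i : ℕ} (hi : 1 ≤ i) : 0 < Z N o l t i := by
  refine mul_pos (sub_pos.2 ?_) hl
  by_contra hc
  push Not at hc
  have := (h _ (by omega) t).1 hc
  omega

lemma Z_mono (h : Cnt N o) (hl : 0 < l) {i j : ℕ} (hi : 1 ≤ i) (hij : i ≤ j) :
    Z N o l t i ≤ Z N o l t j := by
  unfold Z
  refine mul_le_mul_of_nonneg_right ?_ hl.le
  linarith [h.omono (n := N t + i) (m := N t + j) (by omega) (by omega)]

lemma Z_gt (h : Cnt N o) (hl : 0 < l) {i : ℕ} (hi : 1 ≤ i) {s : ℝ}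
    (hs : (i : ℝ) + s < Z N o l t i) : D N l t (i + s) < -s := by
  unfold Z at hs
  rw [← div_lt_iff₀ hl] at hs
  have h1 : ¬ (o (N t + i) ≤ t + (i + s) / l) := by
    push Not
    linarith
  rw [h _ (by omega)] at h1
  push Not at h1
  have h2 : (N (t + (i + s) / l) : ℝ) < (N t : ℝ) + i := by exact_mod_cast h1
  unfold D
  linarith

lemma Z_lt (h : Cnt N o) (hl : 0 < l) {i : ℕ} (hi : 1 ≤ i) {s : ℝ}
    (hs : Z N o l t i < i - s) : s ≤ D N l t (i - s) := by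
  unfold Z at hs
  rw [← lt_div_iff₀ hl] at hs
  have h1 : o (N t + i) ≤ t + (i - s) / l := by linarith
  rw [h _ (by omega)] at h1
  have h2 : (N t : ℝ) + i ≤ (N (t + (i - s) / l) : ℝ) := by exact_mod_cast h1
  unfold D
  linarith

/-- the bound for the indicator of `|Z_i - i| > s` -/
noncomputable def Qf (N : ℝ → ℕ) (l t : ℝ) (i s : ℕ) : ℝ :=
  (D N l t ((i + s : ℕ) : ℝ) ^ 2 + if s < i then D N l t ((i - s : ℕ) : ℝ) ^ 2 else 0) / (s : ℝ) ^ 2

lemma Qf_nonneg (i s : ℕ) : 0 ≤ Qf N l t i s := by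
  unfold Qf
  split_ifs <;> positivity

lemma Qf_ge (h : Cnt N o) (hl : 0 < l) {i s : ℕ} (hi : 1 ≤ i) (hs : 1 ≤ s)
    (hZ : (s : ℝ) < |Z N o l t i - i|) : 1 ≤ Qf N l t i s := by
  have hs' : (1 : ℝ) ≤ s := by exact_mod_cast hs
  have hs2 : (0 : ℝ) < (s : ℝ) ^ 2 := by positivity
  unfold Qf
  rw [le_div_iff₀ hs2, one_mul]
  rcases lt_abs.1 hZ with h1 | h1
  · have h2 := Z_gt h hl hi (s := s) (by linarith)
    have h3 : (s : ℝ) ^ 2 ≤ D N l t ((i + s : ℕ) : ℝ) ^ 2 := by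
      push_cast
      nlinarith
    have h4 : 0 ≤ (if s < i then D N l t ((i - s : ℕ) : ℝ) ^ 2 else 0) := by
      split_ifs <;> positivity
    linarith
  · have h2 : Z N o l t i < i - s := by linarith
    have h3 := Z_pos (t := t) h hl hi
    have h4 : (s : ℝ) < i := by linarith
    have h5 : s < i := by exact_mod_cast h4
    have h6 := Z_lt h hl hi h2
    rw [if_pos h5, Nat.cast_sub h5.le]
    have h7 : (s : ℝ) ^ 2 ≤ D N l t ((i : ℝ) - s) ^ 2 := pow_le_pow_left₀ (by linarith) h6 2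
    have h8 : 0 ≤ D N l t ((i + s : ℕ) : ℝ) ^ 2 := by positivity
    linarith

lemma sum_odd (A : ℕ) : ∑ s ∈ Ico 1 (A + 1), (2 * (s : ℝ) + 1) = ((A : ℝ) + 1) ^ 2 - 1 := by
  induction A with
  | zero => simp
  | succ A ih =>
    rw [Finset.sum_Ico_succ_top (by omega), ih]
    push_cast
    ring

lemma sq_layer {x : ℝ} (hx : 0 ≤ x) (q : ℕ → ℝ) (hq : ∀ s, 0 ≤ q s)
    (hq1 : ∀ s : ℕ, 1 ≤ s → (s : ℝ) < x → 1 ≤ q s) (A : ℕ) (hA : 1 ≤ A) (hxA : x ≤ A) :
    x ^ 2 ≤ 1 + ∑ s ∈ Ico 1 A, (2 * (s : ℝ) + 1) * q s := by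
  induction A, hA using Nat.le_induction with
  | base =>
    push_cast at hxA
    simp only [lt_self_iff_false, not_false_eq_true, Ico_eq_empty, sum_empty, add_zero]
    nlinarith
  | succ A hA ih =>
    rcases le_or_gt x A with h | h
    · refine (ih h).trans ?_
      rw [Finset.sum_Ico_succ_top (by omega)]
      have : 0 ≤ (2 * (A : ℝ) + 1) * q A := mul_nonneg (by positivity) (hq A)
      linarith
    · have h1 : ∑ s ∈ Ico 1 (A + 1), (2 * (s : ℝ) + 1) ≤ ∑ s ∈ Ico 1 (A + 1), (2 * (s : ℝ) + 1) * q s := by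
        refine Finset.sum_le_sum fun s hs => ?_
        rw [mem_Ico] at hs
        have h2 : (s : ℝ) ≤ A := by exact_mod_cast (by omega : s ≤ A)
        have h3 := hq1 s hs.1 (by linarith)
        nlinarith [(Nat.cast_nonneg s : (0 : ℝ) ≤ s)]
      rw [sum_odd] at h1
      push_cast at hxA
      nlinarith

lemma sq_le (h : Cnt N o) (hl : 0 < l) {i : ℕ} (hi : 1 ≤ i) {A : ℕ} (hA : 1 ≤ A)
    (hZ : |Z N o l t i - i| ≤ A) :
    (Z N o l t i - i) ^ 2 ≤ 1 + ∑ s ∈ Ico 1 A, (2 * (s : ℝ) + 1) * Qf N l t i s := by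
  rw [← sq_abs]
  exact sq_layer (abs_nonneg _) _ (fun s => Qf_nonneg i s) (fun s h1 h2 => Qf_ge h hl hi h1 h2) A hA hZ

/-- second order control of a weight function -/
def Wt (w w' : ℝ → ℝ) (β : ℝ) : Prop := ∀ x y : ℝ, |w y - w x - w' x * (y - x)| ≤ β * (y - x) ^ 2

variable {w w' : ℝ → ℝ} {β : ℝ}

lemma Wt.nonneg (h : Wt w w' β) : 0 ≤ β := by
  have := (abs_nonneg _).trans (h 0 1)
  linarith

lemma Wt.step (h : Wt w w' β) (x : ℝ) : |w x - w (x - 1) - w' x| ≤ β := by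
  have := h x (x - 1)
  rw [show w (x - 1) - w x - w' x * (x - 1 - x) = -(w x - w (x - 1) - w' x) by ring, abs_neg] at this
  linarith

lemma Wt.lip (h : Wt w w' β) {x y : ℝ} (hxy : x ≠ y) : |w' x - w' y| ≤ 2 * β * |x - y| := by
  have h1 := h x y
  have h2 := h y x
  have h3 : |(w' x - w' y) * (y - x)| ≤ 2 * β * (y - x) ^ 2 := by
    rw [show (w' x - w' y) * (y - x) = -((w y - w x - w' x * (y - x)) + (w x - w y - w' y * (x - y))) by
      ring, abs_neg]
    refine (abs_add_le _ _).trans ?_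
    have : (x - y) ^ 2 = (y - x) ^ 2 := by ring
    rw [this] at h2
    linarith
  have h4 : 0 < |x - y| := abs_pos.2 (sub_ne_zero.2 hxy)
  rw [abs_mul, abs_sub_comm y x] at h3
  have h5 : (y - x) ^ 2 = |x - y| ^ 2 := by rw [sq_abs]; ring
  rw [h5, pow_two, ← mul_assoc] at h3
  exact le_of_mul_le_mul_right h3 h4

/-- summation by parts -/
lemma abel (w e : ℕ → ℝ) (M : ℕ) : ∑ i ∈ Icc 1 M, w i * (e (i + 1) - e i) =
    w M * e (M + 1) - w 0 * e 1 - ∑ i ∈ Icc 1 M, (w i - w (i - 1)) * e i := by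
  induction M with
  | zero => simp
  | succ M ih =>
    rw [Finset.sum_Icc_succ_top (by omega), Finset.sum_Icc_succ_top (by omega), ih]
    rw [Nat.add_sub_cancel]
    ring

/-- the index statistic against the position statistic, at one `t` -/
lemma lin_cmp (hw : Wt w w' β) (hwc : Continuous w) {A M : ℕ} (hA : 1 ≤ A) (hM : A ≤ M)
    (h0 : ∀ x : ℝ, x ≤ 1 → w x = 0) (h1 : ∀ x : ℝ, (A : ℝ) ≤ x → w x = 0) (z : ℕ → ℝ) :
    |∑ i ∈ Icc 1 M, w i * (z (i + 1) - z i - 1) + (∑ i ∈ Icc 1 M, w (z i) - ∫ x, w x)| ≤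
      β * ∑ i ∈ Icc 1 M, (2 * (z i - i) ^ 2 + 3) := by
  have hβ := hw.nonneg
  have e1 : ∑ i ∈ Icc 1 M, w i * (z (i + 1) - z i - 1) =
      -∑ i ∈ Icc 1 M, (w i - w ((i - 1 : ℕ) : ℝ)) * (z i - i) := by
    have := abel (fun i => w i) (fun i => z i - i) M
    have hM' : w M = 0 := h1 M (by exact_mod_cast hM)
    have h00 : w ((0 : ℕ) : ℝ) = 0 := h0 _ (by simp)
    simp only [hM', h00, zero_mul, sub_zero, zero_sub] at this
    rw [← this]
    refine Finset.sum_congr rfl fun i _ => ?_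
    push_cast
    ring
  have e2 : ∫ x, w x = ∑ i ∈ Icc 1 M, ∫ x in ((i : ℝ) - 1 / 2)..((i : ℝ) + 1 / 2), w x := by
    have h2 : ∀ K : ℕ, ∑ i ∈ Icc 1 K, ∫ x in ((i : ℝ) - 1 / 2)..((i : ℝ) + 1 / 2), w x =
        ∫ x in (1 / 2 : ℝ)..((K : ℝ) + 1 / 2), w x := by
      intro K
      induction K with
      | zero => simp
      | succ K ih =>
        rw [Finset.sum_Icc_succ_top (by omega), ih]
        push_cast
        rw [show (K : ℝ) + 1 - 1 / 2 = K + 1 / 2 by ring,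
          intervalIntegral.integral_add_adjacent_intervals (hwc.intervalIntegrable _ _)
            (hwc.intervalIntegrable _ _)]
    rw [h2, intervalIntegral.integral_of_le (by linarith [(Nat.cast_nonneg M : (0 : ℝ) ≤ M)])]
    symm
    apply setIntegral_eq_integral_of_forall_compl_eq_zero
    intro x hx
    rw [Set.mem_Ioc, not_and_or, not_lt, not_le] at hx
    rcases hx with hx | hx
    · exact h0 x (by linarith)
    · have : (A : ℝ) ≤ M := by exact_mod_cast hM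
      exact h1 x (by linarith)
  have e3 : ∀ i : ℕ, |w i - ∫ x in ((i : ℝ) - 1 / 2)..((i : ℝ) + 1 / 2), w x| ≤ β := by
    intro i
    have e4 : ∫ x in ((i : ℝ) - 1 / 2)..((i : ℝ) + 1 / 2), (w x - w i - w' i * (x - i)) =
        (∫ x in ((i : ℝ) - 1 / 2)..((i : ℝ) + 1 / 2), w x) - w i := by
      rw [intervalIntegral.integral_sub, intervalIntegral.integral_sub,
        intervalIntegral.integral_const_mul, intervalIntegral.integral_sub, integral_id,
        intervalIntegral.integral_const, intervalIntegral.integral_const]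
      · simp only [smul_eq_mul]
        ring
      all_goals first
        | exact hwc.intervalIntegrable _ _
        | exact (by fun_prop : Continuous _).intervalIntegrable _ _
    rw [abs_sub_comm, ← e4]
    have h3 := intervalIntegral.norm_integral_le_of_norm_le_const (a := (i : ℝ) - 1 / 2)
      (b := (i : ℝ) + 1 / 2) (C := β) (f := fun x => w x - w i - w' i * (x - i)) (fun x hx => by
        rw [Set.uIoc_of_le (by linarith)] at hx
        rw [Real.norm_eq_abs]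
        refine (hw i x).trans ?_
        have h4 : (x - i) ^ 2 ≤ 1 := by nlinarith [hx.1, hx.2]
        nlinarith)
    rw [Real.norm_eq_abs] at h3
    refine h3.trans ?_
    rw [show (i : ℝ) + 1 / 2 - (i - 1 / 2) = 1 by ring, abs_one, mul_one]
  rw [e1, e2]
  have e5 : -∑ i ∈ Icc 1 M, (w i - w ((i - 1 : ℕ) : ℝ)) * (z i - i) +
      (∑ i ∈ Icc 1 M, w (z i) - ∑ i ∈ Icc 1 M, ∫ x in ((i : ℝ) - 1 / 2)..((i : ℝ) + 1 / 2), w x) =
      ∑ i ∈ Icc 1 M, ((w (z i) - w i - w' i * (z i - i)) -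
        (w i - w ((i - 1 : ℕ) : ℝ) - w' i) * (z i - i) +
        (w i - ∫ x in ((i : ℝ) - 1 / 2)..((i : ℝ) + 1 / 2), w x)) := by
    rw [← Finset.sum_neg_distrib, ← Finset.sum_sub_distrib, ← Finset.sum_add_distrib]
    refine Finset.sum_congr rfl fun i _ => ?_
    ring
  rw [e5, Finset.mul_sum]
  refine (Finset.abs_sum_le_sum_abs _ _).trans (Finset.sum_le_sum fun i hi => ?_)
  rw [mem_Icc] at hi
  have h3 := hw i (z i)
  have h4 := hw.step i
  have h5 := e3 i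
  have e6 : ((i - 1 : ℕ) : ℝ) = (i : ℝ) - 1 := by
    rw [Nat.cast_sub hi.1]
    simp
  rw [e6]
  have h6 : |(w i - w ((i : ℝ) - 1) - w' i) * (z i - i)| ≤ β * |z i - i| := by
    rw [abs_mul]
    exact mul_le_mul_of_nonneg_right h4 (abs_nonneg _)
  have h7 : |z i - i| ≤ (z i - i) ^ 2 + 1 := by
    have := sq_abs (z i - i)
    nlinarith [sq_nonneg (|z i - i| - 1), abs_nonneg (z i - i)]
  calc |w (z i) - w i - w' i * (z i - i) - (w i - w ((i : ℝ) - 1) - w' i) * (z i - i) +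
      (w i - ∫ x in ((i : ℝ) - 1 / 2)..((i : ℝ) + 1 / 2), w x)| ≤
      β * (z i - i) ^ 2 + β * |z i - i| + β := by
        refine (abs_add_le _ _).trans (add_le_add ?_ h5)
        exact (abs_sub _ _).trans (add_le_add h3 h6)
    _ ≤ β * (2 * (z i - i) ^ 2 + 3) := by nlinarith

/-- a shift of the weights by `j` -/
lemma shift_cmp (hw : Wt w w' β) {A M j : ℕ} (hj : 1 ≤ j) (hM : A + j ≤ M)
    (h0 : ∀ x : ℝ, x ≤ 1 → w x = 0) (h1 : ∀ x : ℝ, (A : ℝ) ≤ x → w x = 0) (z : ℕ → ℝ) :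
    |∑ i ∈ Icc 1 M, (w i - w ((i : ℝ) - j)) * (z (i + 1) - z i - 1)| ≤
      4 * β * j * ∑ i ∈ Icc 1 M, ((z i - i) ^ 2 + 1) := by
  have hβ := hw.nonneg
  have hj' : (1 : ℝ) ≤ j := by exact_mod_cast hj
  have hM' : (A : ℝ) + j ≤ M := by exact_mod_cast hM
  have e1 : ∑ i ∈ Icc 1 M, (w i - w ((i : ℝ) - j)) * (z (i + 1) - z i - 1) =
      -∑ i ∈ Icc 1 M, ((w i - w ((i : ℝ) - j)) - (w ((i - 1 : ℕ) : ℝ) - w (((i - 1 : ℕ) : ℝ) - j))) *
        (z i - i) := by
    have := abel (fun i => w i - w ((i : ℝ) - j)) (fun i => z i - i) M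
    have hM1 : w M = 0 := h1 M (by linarith)
    have hM2 : w ((M : ℝ) - j) = 0 := h1 _ (by linarith)
    have h00 : w ((0 : ℕ) : ℝ) = 0 := h0 _ (by simp)
    have h01 : w (((0 : ℕ) : ℝ) - j) = 0 := h0 _ (by push_cast; linarith)
    simp only [hM1, hM2, h00, h01, zero_mul, sub_zero, zero_sub] at this
    rw [← this]
    refine Finset.sum_congr rfl fun i _ => ?_
    push_cast
    ring
  rw [e1, abs_neg, Finset.mul_sum]
  refine (Finset.abs_sum_le_sum_abs _ _).trans (Finset.sum_le_sum fun i hi => ?_)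
  rw [mem_Icc] at hi
  have e6 : ((i - 1 : ℕ) : ℝ) = (i : ℝ) - 1 := by
    rw [Nat.cast_sub hi.1]
    simp
  rw [e6, abs_mul]
  have h3 := hw.step i
  have h4 := hw.step ((i : ℝ) - j)
  have h5 := hw.lip (x := (i : ℝ)) (y := (i : ℝ) - j) (by intro h; linarith)
  rw [show (i : ℝ) - (i - j) = j by ring, abs_of_pos (by linarith : (0 : ℝ) < j)] at h5
  have h6 : |(w i - w ((i : ℝ) - j)) - (w ((i : ℝ) - 1) - w ((i : ℝ) - 1 - j))| ≤ 4 * β * j := by
    rw [show (w i - w ((i : ℝ) - j)) - (w ((i : ℝ) - 1) - w ((i : ℝ) - 1 - j)) =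
      (w i - w ((i : ℝ) - 1) - w' i) + ((w' i - w' ((i : ℝ) - j)) -
        (w ((i : ℝ) - j) - w ((i : ℝ) - j - 1) - w' ((i : ℝ) - j))) by
      rw [show (i : ℝ) - 1 - j = i - j - 1 by ring]; ring]
    refine (abs_add_le _ _).trans ?_
    have := abs_sub (w' i - w' ((i : ℝ) - j)) (w ((i : ℝ) - j) - w ((i : ℝ) - j - 1) - w' ((i : ℝ) - j))
    nlinarith
  have h7 : |z i - i| ≤ (z i - i) ^ 2 + 1 := by
    have := sq_abs (z i - i)
    nlinarith [sq_nonneg (|z i - i| - 1), abs_nonneg (z i - i)]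
  exact mul_le_mul h6 h7 (abs_nonneg _) (by positivity)

end Pool.Agent.Q278.GF
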