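import Pool.Agent.Q278.GF.A
import Pool.Agent.Q276.NV.D2

/-!
# Mean values of the discrepancies (helper278)
-/

set_option autoImplicit false

namespace Pool.Agent.Q278.GF

open Finset MeasureTheory Filter Topology

/-- the average over `[T/2, T]` -/
noncomputable def av (T : ℝ) (f : ℝ → ℝ) : ℝ := (2 / T) * ∫ t in (T / 2)..T, f t

/-- the scale -/
noncomputable def sc (T : ℝ) : ℝ := Real.log T / (2 * Real.pi)

lemma cnt_NZ : Cnt SG.NZ SG.ord := fun _ hn t => SG.ord_le_iff hn t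

/-- a measurable function bounded on `[T/2, T]` -/
def Bd (T : ℝ) (f : ℝ → ℝ) : Prop := Measurable f ∧ ∃ C : ℝ, ∀ t ∈ Set.Icc (T / 2) T, |f t| ≤ C

lemma Bd.int {T : ℝ} (hT : 0 < T) {f : ℝ → ℝ} (h : Bd T f) :
    IntervalIntegrable f volume (T / 2) T := by
  obtain ⟨h1, C, h2⟩ := h
  rw [intervalIntegrable_iff_integrableOn_Icc_of_le (by linarith)]
  refine Measure.integrableOn_of_bounded (M := C) (by simp) h1.aestronglyMeasurable ?_
  rw [ae_restrict_iff' measurableSet_Icc]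
  exact Eventually.of_forall fun t ht => h2 t ht

lemma Bd.add {T : ℝ} {f g : ℝ → ℝ} (hf : Bd T f) (hg : Bd T g) : Bd T fun t => f t + g t := by
  obtain ⟨h1, C, h2⟩ := hf
  obtain ⟨h3, K, h4⟩ := hg
  exact ⟨h1.add h3, C + K, fun t ht => (abs_add_le _ _).trans (add_le_add (h2 t ht) (h4 t ht))⟩

lemma Bd.const (T c : ℝ) : Bd T fun _ => c := ⟨measurable_const, |c|, fun _ _ => le_rfl⟩

lemma Bd.mul {T : ℝ} {f g : ℝ → ℝ} (hf : Bd T f) (hg : Bd T g) : Bd T fun t => f t * g t := by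
  obtain ⟨h1, C, h2⟩ := hf
  obtain ⟨h3, K, h4⟩ := hg
  refine ⟨h1.mul h3, C * K, fun t ht => ?_⟩
  rw [abs_mul]
  exact mul_le_mul (h2 t ht) (h4 t ht) (abs_nonneg _) ((abs_nonneg _).trans (h2 t ht))

lemma Bd.cmul {T : ℝ} {f : ℝ → ℝ} (hf : Bd T f) (c : ℝ) : Bd T fun t => c * f t :=
  (Bd.const T c).mul hf

lemma Bd.sum {ι : Type*} {T : ℝ} (s : Finset ι) {f : ι → ℝ → ℝ} (hf : ∀ i ∈ s, Bd T (f i)) :
    Bd T fun t => ∑ i ∈ s, f i t := by
  classical
  induction s using Finset.induction_on with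
  | empty => simpa using Bd.const T 0
  | insert a s ha ih =>
    simp only [Finset.sum_insert ha]
    exact (hf a (Finset.mem_insert_self _ _)).add (ih fun i hi => hf i (Finset.mem_insert_of_mem hi))

lemma av_add {T : ℝ} (hT : 0 < T) {f g : ℝ → ℝ} (hf : Bd T f) (hg : Bd T g) :
    av T (fun t => f t + g t) = av T f + av T g := by
  unfold av
  rw [intervalIntegral.integral_add (hf.int hT) (hg.int hT)]
  ring

lemma av_cmul (T c : ℝ) (f : ℝ → ℝ) : av T (fun t => c * f t) = c * av T f := by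
  unfold av
  rw [intervalIntegral.integral_const_mul]
  ring

lemma av_const {T : ℝ} (hT : 0 < T) (c : ℝ) : av T (fun _ => c) = c := by
  unfold av
  rw [intervalIntegral.integral_const, smul_eq_mul]
  field_simp
  ring

lemma av_sum {ι : Type*} {T : ℝ} (hT : 0 < T) (s : Finset ι) {f : ι → ℝ → ℝ}
    (hf : ∀ i ∈ s, Bd T (f i)) : av T (fun t => ∑ i ∈ s, f i t) = ∑ i ∈ s, av T (f i) := by
  unfold av
  rw [intervalIntegral.integral_finsetSum fun i hi => (hf i hi).int hT, Finset.mul_sum]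

lemma av_mono {T : ℝ} (hT : 0 < T) {f g : ℝ → ℝ} (hf : Bd T f) (hg : Bd T g)
    (h : ∀ t ∈ Set.Icc (T / 2) T, f t ≤ g t) : av T f ≤ av T g := by
  unfold av
  refine mul_le_mul_of_nonneg_left ?_ (by positivity)
  exact intervalIntegral.integral_mono_on (by linarith) (hf.int hT) (hg.int hT) h

lemma meas_N (c : ℝ) : Measurable fun t : ℝ => (SG.NZ (t + c) : ℝ) := by
  have : Monotone fun t : ℝ => (SG.NZ (t + c) : ℝ) := fun s t hst => by
    show (SG.NZ (s + c) : ℝ) ≤ (SG.NZ (t + c) : ℝ)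
    exact_mod_cast SG.NZ_mono (by linarith)
  exact this.measurable

lemma bd_N (T c : ℝ) : Bd T fun t : ℝ => (SG.NZ (t + c) : ℝ) := by
  refine ⟨meas_N c, (SG.NZ (T + c) : ℝ), fun t ht => ?_⟩
  rw [abs_of_nonneg (Nat.cast_nonneg _)]
  show (SG.NZ (t + c) : ℝ) ≤ (SG.NZ (T + c) : ℝ)
  exact_mod_cast SG.NZ_mono (by linarith [ht.2])

lemma bd_D (T l x : ℝ) : Bd T fun t => D SG.NZ l t x := by
  have h1 := (bd_N T (x / l)).add ((bd_N T 0).cmul (-1))
  have h2 := h1.add (Bd.const T (-x))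
  have e : (fun t => D SG.NZ l t x) = fun t => (SG.NZ (t + x / l) : ℝ) + -1 * (SG.NZ (t + 0) : ℝ) + -x := by
    funext t
    unfold D
    rw [add_zero]
    ring
  rw [e]
  exact h2

lemma bd_D2 (T l x : ℝ) : Bd T fun t => D SG.NZ l t x ^ 2 := by
  have := (bd_D T l x).mul (bd_D T l x)
  simpa only [pow_two] using this

lemma bd_Qf (T l : ℝ) (i s : ℕ) : Bd T fun t => Qf SG.NZ l t i s := by
  unfold Qf
  have h1 : Bd T fun t => (if s < i then D SG.NZ l t ((i - s : ℕ) : ℝ) ^ 2 else 0) := by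
    split_ifs
    · exact bd_D2 _ _ _
    · exact Bd.const T 0
  have h2 := ((bd_D2 T l ((i + s : ℕ) : ℝ)).add h1).mul (Bd.const T ((s : ℝ) ^ 2)⁻¹)
  simpa only [div_eq_mul_inv] using h2

/-- **the mean square of the discrepancy** -/
theorem av_D2 : ∃ C : ℝ, 0 < C ∧ ∀ x : ℕ, 1 ≤ x → ∀ᶠ T : ℝ in atTop,
    av T (fun t => D SG.NZ (sc T) t x ^ 2) ≤ C * (1 + Real.log x) := by
  obtain ⟨C, hC, h⟩ := Pool.Agent.Q276.NV.var_lim
  refine ⟨2 * C + 2, by positivity, fun x hx => ?_⟩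
  have hx' : (1 : ℝ) ≤ x := by exact_mod_cast hx
  filter_upwards [h 0 x (by linarith), eventually_gt_atTop 1] with T hT hT1
  have hT0 : 0 < T := by linarith
  rw [sub_zero] at hT
  have e : ∀ t : ℝ, Pool.Agent.Q276.NV.DD (Pool.Agent.Q276.NV.hs T 0) (Pool.Agent.Q276.NV.hs T x) t - x =
      D SG.NZ (sc T) t x := by
    intro t
    unfold Pool.Agent.Q276.NV.DD Pool.Agent.Q276.NV.hs D sc
    rw [mul_zero, zero_div, add_zero, show (x : ℝ) / (Real.log T / (2 * Real.pi)) =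
      2 * Real.pi * x / Real.log T by rw [div_div_eq_mul_div]; ring]
  simp only [e] at hT
  have h1 := (abs_le.1 hT).2
  have hlog : 0 ≤ Real.log x := Real.log_nonneg hx'
  have h2 : 1 / Real.pi ^ 2 * Real.log x ≤ Real.log x := by
    have : 1 / Real.pi ^ 2 ≤ 1 := by
      rw [div_le_one (by positivity)]
      nlinarith [Real.pi_gt_three]
    nlinarith
  have h3 : ∫ t in (T / 2)..T, D SG.NZ (sc T) t x ^ 2 ≤ ∫ t in (0 : ℝ)..T, D SG.NZ (sc T) t x ^ 2 := by
    refine intervalIntegral.integral_mono_interval (by linarith) (by linarith) le_rfl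
      (Eventually.of_forall fun t => sq_nonneg _) ?_
    obtain ⟨m1, -⟩ := bd_D2 T (sc T) x
    rw [intervalIntegrable_iff_integrableOn_Icc_of_le hT0.le]
    refine Measure.integrableOn_of_bounded
      (M := ((SG.NZ (T + |x / sc T|) : ℝ) + SG.NZ T + x) ^ 2) (by simp)
      m1.aestronglyMeasurable ?_
    rw [ae_restrict_iff' measurableSet_Icc]
    refine Eventually.of_forall fun t ht => ?_
    rw [Real.norm_eq_abs, abs_of_nonneg (sq_nonneg _)]
    refine sq_le_sq' ?_ ?_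
    · unfold D
      have g1 : (SG.NZ t : ℝ) ≤ SG.NZ T := by exact_mod_cast SG.NZ_mono ht.2
      have g2 : (0 : ℝ) ≤ SG.NZ (t + x / sc T) := Nat.cast_nonneg _
      have g3 : (0 : ℝ) ≤ SG.NZ (T + |x / sc T|) := Nat.cast_nonneg _
      linarith
    · unfold D
      have g1 : (SG.NZ (t + x / sc T) : ℝ) ≤ SG.NZ (T + |x / sc T|) := by
        exact_mod_cast SG.NZ_mono (by linarith [ht.2, le_abs_self (x / sc T)])
      have g2 : (0 : ℝ) ≤ SG.NZ t := Nat.cast_nonneg _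
      have g3 : (0 : ℝ) ≤ SG.NZ T := Nat.cast_nonneg _
      linarith
  unfold av
  calc (2 / T) * ∫ t in (T / 2)..T, D SG.NZ (sc T) t x ^ 2 ≤
      (2 / T) * ∫ t in (0 : ℝ)..T, D SG.NZ (sc T) t x ^ 2 :=
        mul_le_mul_of_nonneg_left h3 (by positivity)
    _ = 2 * (1 / T * ∫ t in (0 : ℝ)..T, D SG.NZ (sc T) t x ^ 2) := by ring
    _ ≤ 2 * (C + 1 / Real.pi ^ 2 * Real.log x) := by linarith
    _ ≤ (2 * C + 2) * (1 + Real.log x) := by nlinarith

/-- **the mean of the indicator bounds**, all `i, s` up to `H` -/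
theorem av_Qf : ∃ C : ℝ, 0 < C ∧ ∀ H : ℕ, 1 ≤ H → ∀ᶠ T : ℝ in atTop, ∀ i s : ℕ, 1 ≤ i → 1 ≤ s →
    i + s ≤ H → av T (fun t => Qf SG.NZ (sc T) t i s) ≤ C * (1 + Real.log H) / (s : ℝ) ^ 2 := by
  obtain ⟨C, hC, h⟩ := av_D2
  refine ⟨2 * C, by positivity, fun H hH => ?_⟩
  have h1 : ∀ᶠ T : ℝ in atTop, ∀ x ∈ Finset.Icc 1 H,
      av T (fun t => D SG.NZ (sc T) t x ^ 2) ≤ C * (1 + Real.log x) := by
    rw [Filter.eventually_all_finset]
    intro x hx
    exact h x (Finset.mem_Icc.1 hx).1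
  filter_upwards [h1, eventually_gt_atTop 0] with T hT hT0 i s hi hs his
  have hb : ∀ x : ℕ, 1 ≤ x → x ≤ H → av T (fun t => D SG.NZ (sc T) t x ^ 2) ≤ C * (1 + Real.log H) := by
    intro x hx1 hx2
    refine (hT x (Finset.mem_Icc.2 ⟨hx1, hx2⟩)).trans ?_
    have : Real.log x ≤ Real.log H := Real.log_le_log (by exact_mod_cast hx1) (by exact_mod_cast hx2)
    nlinarith
  have hlog : 0 ≤ Real.log H := Real.log_nonneg (by exact_mod_cast hH)
  unfold Qf
  have e : (fun t => (D SG.NZ (sc T) t ((i + s : ℕ) : ℝ) ^ 2 +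
      if s < i then D SG.NZ (sc T) t ((i - s : ℕ) : ℝ) ^ 2 else 0) / (s : ℝ) ^ 2) =
      fun t => ((s : ℝ) ^ 2)⁻¹ * (D SG.NZ (sc T) t ((i + s : ℕ) : ℝ) ^ 2 +
      if s < i then D SG.NZ (sc T) t ((i - s : ℕ) : ℝ) ^ 2 else 0) := by
    funext t
    rw [div_eq_mul_inv, mul_comm]
  rw [e, av_cmul, div_eq_mul_inv, mul_comm]
  refine mul_le_mul_of_nonneg_right ?_ (by positivity)
  have h2 := hb (i + s) (by omega) his
  by_cases hsi : s < i
  · simp only [hsi, if_true]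
    rw [av_add hT0 (bd_D2 _ _ _) (bd_D2 _ _ _)]
    have h3 := hb (i - s) (by omega) (by omega)
    linarith
  · simp only [hsi, if_false, add_zero]
    have : 0 ≤ C * (1 + Real.log H) := by positivity
    linarith

end Pool.Agent.Q278.GF
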