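import Pool.Agent.Q278.GF.C

/-!
# The two comparisons in mean (helper278)
-/

set_option autoImplicit false

namespace Pool.Agent.Q278.GF

open Finset MeasureTheory Filter Topology Complex

/-- the common upper bound -/
noncomputable def UU (B0 B2 R L T t : ℝ) : ℝ :=
  2 * ∑ i ∈ Icc 1 (4 * K0 R L + 1), Qf SG.NZ (sc T) t i (2 * K0 R L) +
  B2 / L ^ 2 * ∑ i ∈ Icc 1 (4 * K0 R L), (5 + 2 * ∑ s ∈ Ico 1 (2 * K0 R L),
    (2 * (s : ℝ) + 1) * Qf SG.NZ (sc T) t i s) + er B0 R L T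

variable {φ φ' : ℝ → ℝ} {B0 B2 R L : ℝ}

lemma er_nonneg {T : ℝ} (hB : 0 ≤ B0) (hT : 1 < T) : 0 ≤ er B0 R L T := by
  have : 0 < Real.log T := Real.log_pos hT
  unfold er
  positivity

lemma cexp_lip (x y : ℝ) : ‖cexp (I * (x : ℂ)) - cexp (I * (y : ℂ))‖ ≤ |x - y| := by
  have h1 : cexp (I * (x : ℂ)) - cexp (I * (y : ℂ)) =
      cexp (I * (y : ℂ)) * (cexp (I * ((x - y : ℝ) : ℂ)) - 1) := by
    rw [mul_sub, ← Complex.exp_add]
    push_cast
    ring_nf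
  rw [h1, norm_mul, mul_comm I (y : ℂ), Complex.norm_exp_ofReal_mul_I, one_mul]
  have := Real.norm_exp_I_mul_ofReal_sub_one_le (x := x - y)
  rwa [Real.norm_eq_abs] at this

lemma cexp_two (x y : ℝ) : ‖cexp (I * (x : ℂ)) - cexp (I * (y : ℂ))‖ ≤ 2 := by
  refine (norm_sub_le _ _).trans ?_
  rw [mul_comm I, mul_comm I, Complex.norm_exp_ofReal_mul_I, Complex.norm_exp_ofReal_mul_I]
  norm_num

lemma inner_nonneg (T t : ℝ) (i : ℕ) : 0 ≤ ∑ s ∈ Ico 1 (2 * K0 R L),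
    (2 * (s : ℝ) + 1) * Qf SG.NZ (sc T) t i s :=
  Finset.sum_nonneg fun s _ => mul_nonneg (by positivity) (Qf_nonneg i s)

lemma UU_bad (hB0 : 0 ≤ B0) (hB2 : 0 ≤ B2) {T t : ℝ} (hT : 1 < T) (hg : ¬ Good R L T t) :
    2 ≤ UU B0 B2 R L T t := by
  have hs : 0 < sc T := by
    unfold sc
    have := Real.log_pos hT
    have := Real.pi_pos
    positivity
  unfold Good at hg
  push Not at hg
  obtain ⟨i, hi, h1⟩ := hg
  have h2 := Qf_ge (s := 2 * K0 R L) cnt_NZ hs (Finset.mem_Icc.1 hi).1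
    (by have := K0_pos (R := R) (L := L); omega) h1
  have h3 : Qf SG.NZ (sc T) t i (2 * K0 R L) ≤
      ∑ i ∈ Icc 1 (4 * K0 R L + 1), Qf SG.NZ (sc T) t i (2 * K0 R L) :=
    Finset.single_le_sum (f := fun i => Qf SG.NZ (sc T) t i (2 * K0 R L))
      (fun i _ => Qf_nonneg i _) hi
  have h4 : 0 ≤ B2 / L ^ 2 * ∑ i ∈ Icc 1 (4 * K0 R L), (5 + 2 * ∑ s ∈ Ico 1 (2 * K0 R L),
      (2 * (s : ℝ) + 1) * Qf SG.NZ (sc T) t i s) := by
    refine mul_nonneg (by positivity) (Finset.sum_nonneg fun i _ => ?_)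
    have := inner_nonneg (R := R) (L := L) T t i
    linarith
  have h5 := er_nonneg (R := R) (L := L) hB0 hT
  unfold UU
  linarith

lemma z_sq {T t : ℝ} (hT : 1 < T) (hg : Good R L T t) {i : ℕ} (hi : i ∈ Icc 1 (4 * K0 R L)) :
    (Z SG.NZ SG.ord (sc T) t i - i) ^ 2 ≤ 1 + ∑ s ∈ Ico 1 (2 * K0 R L),
      (2 * (s : ℝ) + 1) * Qf SG.NZ (sc T) t i s := by
  have hs : 0 < sc T := by
    unfold sc
    have := Real.log_pos hT
    have := Real.pi_pos
    positivity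
  rw [Finset.mem_Icc] at hi
  refine sq_le cnt_NZ hs hi.1 (by have := K0_pos (R := R) (L := L); omega) ?_
  exact hg i (Finset.mem_Icc.2 ⟨hi.1, by omega⟩)

theorem U1 (h : Tst φ φ' B0 B2 R) (hL : 0 < L) {T t : ℝ} (hT : 1 < T)
    (hT2 : (6 * K0 R L + 1 : ℝ) / sc T ≤ T) (ht : t ∈ Set.Icc (T / 2) T) :
    ‖cexp (I * ((FF φ R L (SG.NZ t) : ℝ) : ℂ)) - cexp (I * ((-PP φ R L T t : ℝ) : ℂ))‖ ≤
      UU B0 B2 R L T t := by
  have hB0 : 0 ≤ B0 := (abs_nonneg _).trans (h.b0 0)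
  have hB2 : 0 ≤ B2 := h.wt.nonneg
  by_cases hg : Good R L T t
  · refine (cexp_lip _ _).trans ?_
    rw [sub_neg_eq_add]
    refine (point1 h hL hT hT2 ht hg).trans ?_
    unfold UU
    have h1 : ∑ i ∈ Icc 1 (4 * K0 R L), (2 * (Z SG.NZ SG.ord (sc T) t i - i) ^ 2 + 3) ≤
        ∑ i ∈ Icc 1 (4 * K0 R L), (5 + 2 * ∑ s ∈ Ico 1 (2 * K0 R L),
          (2 * (s : ℝ) + 1) * Qf SG.NZ (sc T) t i s) := by
      refine Finset.sum_le_sum fun i hi => ?_
      have := z_sq hT hg hi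
      linarith
    have h2 : 0 ≤ 2 * ∑ i ∈ Icc 1 (4 * K0 R L + 1), Qf SG.NZ (sc T) t i (2 * K0 R L) :=
      mul_nonneg (by norm_num) (Finset.sum_nonneg fun i _ => Qf_nonneg i _)
    have h3 := mul_le_mul_of_nonneg_left h1 (by positivity : 0 ≤ B2 / L ^ 2)
    linarith
  · exact (cexp_two _ _).trans (UU_bad hB0 hB2 hT hg)

theorem U2 (h : Tst φ φ' B0 B2 R) (hL : 0 < L) {T t : ℝ} (hT : 1 < T)
    (hT2 : (6 * K0 R L + 1 : ℝ) / sc T ≤ T) (ht : t ∈ Set.Icc (T / 2) T) {j : ℕ} (hj : 1 ≤ j)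
    (hj2 : j ≤ 2 * K0 R L) :
    ‖cexp (I * ((FF φ R L (SG.NZ t + j) : ℝ) : ℂ)) - cexp (I * ((FF φ R L (SG.NZ t) : ℝ) : ℂ))‖ ≤
      4 * j * UU B0 B2 R L T t := by
  have hB0 : 0 ≤ B0 := (abs_nonneg _).trans (h.b0 0)
  have hB2 : 0 ≤ B2 := h.wt.nonneg
  have hj' : (1 : ℝ) ≤ j := by exact_mod_cast hj
  by_cases hg : Good R L T t
  · refine (cexp_lip _ _).trans ?_
    refine (point2 h hL hT hT2 ht hg hj hj2).trans ?_
    unfold UU
    have h1 : ∑ i ∈ Icc 1 (4 * K0 R L), ((Z SG.NZ SG.ord (sc T) t i - i) ^ 2 + 1) ≤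
        ∑ i ∈ Icc 1 (4 * K0 R L), (5 + 2 * ∑ s ∈ Ico 1 (2 * K0 R L),
          (2 * (s : ℝ) + 1) * Qf SG.NZ (sc T) t i s) := by
      refine Finset.sum_le_sum fun i hi => ?_
      have h5 := z_sq hT hg hi
      have h6 := inner_nonneg (R := R) (L := L) T t i
      linarith
    have h2 : 0 ≤ 2 * ∑ i ∈ Icc 1 (4 * K0 R L + 1), Qf SG.NZ (sc T) t i (2 * K0 R L) :=
      mul_nonneg (by norm_num) (Finset.sum_nonneg fun i _ => Qf_nonneg i _)
    have h3 := mul_le_mul_of_nonneg_left h1 (by positivity : 0 ≤ 4 * (B2 / L ^ 2) * j)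
    have h4 := er_nonneg (R := R) (L := L) hB0 hT
    have h7 : 2 * er B0 R L T ≤ 4 * j * er B0 R L T := by nlinarith
    have h8 : 0 ≤ 4 * (j : ℝ) * (2 * ∑ i ∈ Icc 1 (4 * K0 R L + 1), Qf SG.NZ (sc T) t i (2 * K0 R L)) :=
      mul_nonneg (by positivity) h2
    calc _ ≤ 4 * (B2 / L ^ 2) * j * ∑ i ∈ Icc 1 (4 * K0 R L), (5 + 2 * ∑ s ∈ Ico 1 (2 * K0 R L),
          (2 * (s : ℝ) + 1) * Qf SG.NZ (sc T) t i s) + 4 * j * er B0 R L T := add_le_add h3 h7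
      _ ≤ 4 * (j : ℝ) * (2 * ∑ i ∈ Icc 1 (4 * K0 R L + 1), Qf SG.NZ (sc T) t i (2 * K0 R L)) +
          (4 * (B2 / L ^ 2) * j * ∑ i ∈ Icc 1 (4 * K0 R L), (5 + 2 * ∑ s ∈ Ico 1 (2 * K0 R L),
          (2 * (s : ℝ) + 1) * Qf SG.NZ (sc T) t i s) + 4 * j * er B0 R L T) := by linarith
      _ = _ := by ring
  · refine (cexp_two _ _).trans ?_
    have := UU_bad (R := R) (L := L) (t := t) hB0 hB2 hT hg
    nlinarith

lemma bd_UU (B0 B2 R L T : ℝ) : Bd T fun t => UU B0 B2 R L T t := by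
  unfold UU
  refine Bd.add (Bd.add (Bd.cmul (Bd.sum _ fun i _ => bd_Qf _ _ _ _) _) (Bd.cmul (Bd.sum _ fun i _ => ?_) _))
    (Bd.const T _)
  exact (Bd.const T 5).add (Bd.cmul (Bd.sum _ fun s _ => Bd.cmul (bd_Qf _ _ _ _) _) _)

lemma sum_inv_le (A : ℕ) (hA : 1 ≤ A) :
    ∑ s ∈ Ico 1 A, (2 * (s : ℝ) + 1) * (1 / (s : ℝ) ^ 2) ≤ 3 * (1 + Real.log A) := by
  have h1 : ∑ s ∈ Ico 1 A, (2 * (s : ℝ) + 1) * (1 / (s : ℝ) ^ 2) ≤ ∑ s ∈ Ico 1 A, 3 * (s : ℝ)⁻¹ := by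
    refine Finset.sum_le_sum fun s hs => ?_
    rw [Finset.mem_Ico] at hs
    have : (1 : ℝ) ≤ s := by exact_mod_cast hs.1
    rw [mul_one_div, div_le_iff₀ (by positivity)]
    have e : 3 * (s : ℝ)⁻¹ * (s : ℝ) ^ 2 = 3 * s := by field_simp
    rw [e]
    linarith
  refine h1.trans ?_
  rw [← Finset.mul_sum]
  refine mul_le_mul_of_nonneg_left ?_ (by norm_num)
  have h2 := harmonic_le_one_add_log A
  refine le_trans ?_ h2
  rw [harmonic_eq_sum_Icc]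
  push_cast
  refine Finset.sum_le_sum_of_subset_of_nonneg ?_ fun i _ _ => by positivity
  intro i hi
  rw [Finset.mem_Ico] at hi
  rw [Finset.mem_Icc]
  omega

theorem av_UU (h : Tst φ φ' B0 B2 R) : ∃ K c : ℝ, 0 < K ∧ 1 ≤ c ∧ ∀ L : ℝ, 1 ≤ L →
    ∀ᶠ T : ℝ in atTop, av T (UU B0 B2 R L T) ≤ K * (1 + Real.log (c * L)) ^ 2 / L + er B0 R L T := by
  obtain ⟨C, hC, h1⟩ := av_Qf
  have hB2 : 0 ≤ B2 := h.wt.nonneg
  have hR := h.R1
  refine ⟨3 * C + 4 * (R + 2) * B2 * (5 + 6 * C) + 1, 7 * (R + 2), by positivity, by linarith,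
    fun L hL => ?_⟩
  have hL0 : 0 < L := by linarith
  have hk1 := K0_pos (R := R) (L := L)
  have hk1' : (1 : ℝ) ≤ K0 R L := by exact_mod_cast hk1
  have hkL : L ≤ K0 R L := by
    have := K0_ge (R := R) (L := L)
    nlinarith
  have hkU := K0_le hR hL
  set k := K0 R L with hk
  filter_upwards [h1 (6 * k + 1) (by omega), eventually_gt_atTop 1] with T hT hT1
  have hT0 : 0 < T := by linarith
  set H : ℝ := 1 + Real.log ((6 * k + 1 : ℕ) : ℝ) with hH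
  have hH1 : 1 ≤ H := by
    have : 0 ≤ Real.log ((6 * k + 1 : ℕ) : ℝ) := Real.log_nonneg (by push_cast; linarith)
    linarith
  have hHl : H ≤ 1 + Real.log (7 * (R + 2) * L) := by
    have : Real.log ((6 * k + 1 : ℕ) : ℝ) ≤ Real.log (7 * (R + 2) * L) := by
      apply Real.log_le_log (by push_cast; positivity)
      push_cast
      linarith
    linarith
  have e1 : av T (UU B0 B2 R L T) = 2 * ∑ i ∈ Icc 1 (4 * k + 1), av T (fun t => Qf SG.NZ (sc T) t i (2 * k)) +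
      B2 / L ^ 2 * ∑ i ∈ Icc 1 (4 * k), (5 + 2 * ∑ s ∈ Ico 1 (2 * k),
        (2 * (s : ℝ) + 1) * av T (fun t => Qf SG.NZ (sc T) t i s)) + er B0 R L T := by
    unfold UU
    rw [← hk, av_add hT0 _ (Bd.const T _), av_const hT0, av_add hT0, av_cmul, av_cmul,
      av_sum hT0 _ fun i _ => bd_Qf _ _ _ _, av_sum hT0]
    · congr 3
      refine Finset.sum_congr rfl fun i _ => ?_
      rw [av_add hT0 (Bd.const T 5), av_const hT0, av_cmul, av_sum hT0]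
      · congr 2
        refine Finset.sum_congr rfl fun s _ => ?_
        rw [av_cmul]
      · exact fun s _ => Bd.cmul (bd_Qf _ _ _ _) _
      · exact Bd.cmul (Bd.sum _ fun s _ => Bd.cmul (bd_Qf _ _ _ _) _) _
    · exact fun i _ => (Bd.const T 5).add (Bd.cmul (Bd.sum _ fun s _ => Bd.cmul (bd_Qf _ _ _ _) _) _)
    · exact Bd.cmul (Bd.sum _ fun i _ => bd_Qf _ _ _ _) _
    · exact Bd.cmul (Bd.sum _ fun i _ => (Bd.const T 5).add
        (Bd.cmul (Bd.sum _ fun s _ => Bd.cmul (bd_Qf _ _ _ _) _) _)) _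
    · exact Bd.add (Bd.cmul (Bd.sum _ fun i _ => bd_Qf _ _ _ _) _) (Bd.cmul (Bd.sum _ fun i _ =>
        (Bd.const T 5).add (Bd.cmul (Bd.sum _ fun s _ => Bd.cmul (bd_Qf _ _ _ _) _) _)) _)
  rw [e1]
  refine add_le_add ?_ le_rfl
  have p1 : ∑ i ∈ Icc 1 (4 * k + 1), av T (fun t => Qf SG.NZ (sc T) t i (2 * k)) ≤
      (4 * k + 1) * (C * H / (2 * k) ^ 2) := by
    have : ∑ i ∈ Icc 1 (4 * k + 1), av T (fun t => Qf SG.NZ (sc T) t i (2 * k)) ≤
        ∑ i ∈ Icc 1 (4 * k + 1), C * H / (2 * k) ^ 2 := by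
      refine Finset.sum_le_sum fun i hi => ?_
      rw [Finset.mem_Icc] at hi
      have := hT i (2 * k) hi.1 (by omega) (by omega)
      push_cast at this
      exact this
    refine this.trans (le_of_eq ?_)
    rw [Finset.sum_const, Nat.card_Icc, nsmul_eq_mul]
    push_cast
    ring
  have p2 : ∀ i ∈ Icc 1 (4 * k), 5 + 2 * ∑ s ∈ Ico 1 (2 * k),
      (2 * (s : ℝ) + 1) * av T (fun t => Qf SG.NZ (sc T) t i s) ≤ (5 + 6 * C) * H ^ 2 := by
    intro i hi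
    rw [Finset.mem_Icc] at hi
    have q1 : ∑ s ∈ Ico 1 (2 * k), (2 * (s : ℝ) + 1) * av T (fun t => Qf SG.NZ (sc T) t i s) ≤
        ∑ s ∈ Ico 1 (2 * k), C * H * ((2 * (s : ℝ) + 1) * (1 / (s : ℝ) ^ 2)) := by
      refine Finset.sum_le_sum fun s hs => ?_
      rw [Finset.mem_Ico] at hs
      have q2 := hT i s hi.1 hs.1 (by omega)
      have q3 := mul_le_mul_of_nonneg_left q2 (by positivity : (0 : ℝ) ≤ 2 * (s : ℝ) + 1)
      refine q3.trans (le_of_eq ?_)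
      ring
    rw [← Finset.mul_sum] at q1
    have q4 := sum_inv_le (2 * k) (by omega)
    have q5 : 1 + Real.log ((2 * k : ℕ) : ℝ) ≤ H := by
      have : Real.log ((2 * k : ℕ) : ℝ) ≤ Real.log ((6 * k + 1 : ℕ) : ℝ) := by
        apply Real.log_le_log (by push_cast; positivity)
        push_cast
        linarith
      linarith
    have q6 : ∑ s ∈ Ico 1 (2 * k), (2 * (s : ℝ) + 1) * av T (fun t => Qf SG.NZ (sc T) t i s) ≤
        C * H * (3 * H) :=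
      q1.trans (mul_le_mul_of_nonneg_left (q4.trans (by linarith)) (by positivity))
    nlinarith
  have p3 : ∑ i ∈ Icc 1 (4 * k), (5 + 2 * ∑ s ∈ Ico 1 (2 * k),
      (2 * (s : ℝ) + 1) * av T (fun t => Qf SG.NZ (sc T) t i s)) ≤ 4 * k * ((5 + 6 * C) * H ^ 2) := by
    refine (Finset.sum_le_sum p2).trans (le_of_eq ?_)
    rw [Finset.sum_const, Nat.card_Icc, nsmul_eq_mul]
    push_cast
    ring
  have p4 : 2 * ((4 * k + 1) * (C * H / (2 * (k : ℝ)) ^ 2)) ≤ 3 * C * H ^ 2 / L := by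
    have r1 : 2 * ((4 * (k : ℝ) + 1) * (C * H / (2 * (k : ℝ)) ^ 2)) ≤ 3 * C * H / k := by
      have r2 : 2 * ((4 * (k : ℝ) + 1) * (C * H / (2 * (k : ℝ)) ^ 2)) =
          C * H * ((4 * k + 1) / (2 * k)) / k := by
        field_simp
      rw [r2]
      refine div_le_div_of_nonneg_right ?_ (by positivity)
      have r3 : (4 * (k : ℝ) + 1) / (2 * k) ≤ 3 := by
        rw [div_le_iff₀ (by positivity)]
        linarith
      have r4 : C * H * ((4 * k + 1) / (2 * k)) ≤ C * H * 3 :=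
        mul_le_mul_of_nonneg_left r3 (by positivity)
      linarith
    refine r1.trans ?_
    rw [div_le_div_iff₀ (by positivity) hL0]
    have r5 : H ≤ H ^ 2 := by nlinarith
    have r6 : 3 * C * H * L ≤ 3 * C * H * k := mul_le_mul_of_nonneg_left hkL (by positivity)
    have r7 : 3 * C * H * k ≤ 3 * C * H ^ 2 * k := by
      refine mul_le_mul_of_nonneg_right ?_ (by positivity)
      exact mul_le_mul_of_nonneg_left r5 (by positivity)
    linarith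
  have p5 : B2 / L ^ 2 * (4 * k * ((5 + 6 * C) * H ^ 2)) ≤ 4 * (R + 2) * B2 * (5 + 6 * C) * H ^ 2 / L := by
    have r1 : B2 / L ^ 2 * (4 * k * ((5 + 6 * C) * H ^ 2)) ≤
        B2 / L ^ 2 * (4 * ((R + 2) * L) * ((5 + 6 * C) * H ^ 2)) := by
      gcongr
    refine r1.trans (le_of_eq ?_)
    field_simp
  have p6 := mul_le_mul_of_nonneg_left p3 (by positivity : 0 ≤ B2 / L ^ 2)
  have p7 : H ^ 2 ≤ (1 + Real.log (7 * (R + 2) * L)) ^ 2 := pow_le_pow_left₀ (by linarith) hHl 2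
  calc 2 * ∑ i ∈ Icc 1 (4 * k + 1), av T (fun t => Qf SG.NZ (sc T) t i (2 * k)) +
      B2 / L ^ 2 * ∑ i ∈ Icc 1 (4 * k), (5 + 2 * ∑ s ∈ Ico 1 (2 * k),
        (2 * (s : ℝ) + 1) * av T (fun t => Qf SG.NZ (sc T) t i s)) ≤
      3 * C * H ^ 2 / L + 4 * (R + 2) * B2 * (5 + 6 * C) * H ^ 2 / L := by linarith
    _ = (3 * C + 4 * (R + 2) * B2 * (5 + 6 * C)) * H ^ 2 / L := by ring
    _ ≤ (3 * C + 4 * (R + 2) * B2 * (5 + 6 * C) + 1) * (1 + Real.log (7 * (R + 2) * L)) ^ 2 / L := by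
        refine div_le_div_of_nonneg_right ?_ hL0.le
        exact mul_le_mul (by linarith) p7 (by positivity) (by positivity)

lemma er_lim (B0 R L : ℝ) : Tendsto (fun T => er B0 R L T) atTop (𝓝 0) := by
  unfold er
  have h1 : Tendsto (fun T : ℝ => 3 / Real.log T) atTop (𝓝 0) :=
    tendsto_const_nhds.div_atTop Real.tendsto_log_atTop
  have := (h1.const_mul B0).mul_const (6 * K0 R L + 1 : ℝ)
  simpa using this

lemma log_sq_lim (c : ℝ) (hc : 0 < c) (K : ℝ) :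
    Tendsto (fun L : ℝ => K * (1 + Real.log (c * L)) ^ 2 / L) atTop (𝓝 0) := by
  have h1 : Tendsto (fun x : ℝ => (1 + Real.log x) ^ 2 / x) atTop (𝓝 0) := by
    have a1 : Tendsto (fun x : ℝ => (1 : ℝ) / x) atTop (𝓝 0) := tendsto_const_nhds.div_atTop tendsto_id
    have a2 : Tendsto (fun x : ℝ => Real.log x ^ 1 / x) atTop (𝓝 0) :=
      (Real.isLittleO_pow_log_id_atTop (n := 1)).tendsto_div_nhds_zero
    have a3 : Tendsto (fun x : ℝ => Real.log x ^ 2 / x) atTop (𝓝 0) :=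
      (Real.isLittleO_pow_log_id_atTop (n := 2)).tendsto_div_nhds_zero
    have := (a1.add (a2.const_mul 2)).add a3
    simp only [mul_zero, add_zero] at this
    refine this.congr fun x => ?_
    ring
  have h2 : Tendsto (fun L : ℝ => c * L) atTop atTop := tendsto_id.const_mul_atTop hc
  have h3 := (h1.comp h2).const_mul (K * c)
  rw [mul_zero] at h3
  refine h3.congr' ?_
  filter_upwards [eventually_gt_atTop 0] with L hL
  simp only [Function.comp_apply]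
  field_simp

/-- **the common bound is small in mean** -/
theorem U_small (h : Tst φ φ' B0 B2 R) (ε : ℝ) (hε : 0 < ε) : ∃ L0 : ℝ, 1 ≤ L0 ∧ ∀ L : ℝ, L0 ≤ L →
    ∀ᶠ T : ℝ in atTop, av T (UU B0 B2 R L T) ≤ ε := by
  obtain ⟨K, c, hK, hc, h1⟩ := av_UU h
  obtain ⟨L1, h2⟩ := eventually_atTop.1 ((log_sq_lim c (by linarith) K).eventually_le_const
    (u := ε / 2) (by positivity))
  refine ⟨max L1 1, le_max_right _ _, fun L hL => ?_⟩
  filter_upwards [h1 L ((le_max_right _ _).trans hL),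
    (er_lim B0 R L).eventually_le_const (u := ε / 2) (by positivity)] with T g1 g2
  have g3 := h2 L ((le_max_left _ _).trans hL)
  linarith

end Pool.Agent.Q278.GF
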