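import Pool.Agent.Q278.GF.D

/-!
# From averages over `t` to averages over the index (helper278)
-/

set_option autoImplicit false

namespace Pool.Agent.Q278.GF

open Finset MeasureTheory Filter Topology Complex

/-- the sum over the points of a window -/
noncomputable def GS (g : ℕ → ℂ) (h t : ℝ) : ℂ := ∑ n ∈ Ioc (SG.NZ t) (SG.NZ (t + h)), g n

variable {g : ℕ → ℂ}

lemma GS_cmp (hg : ∀ n, ‖g n‖ ≤ 1) {K : ℕ} (hK : 1 ≤ K) {l t : ℝ} (hl : 0 < l) :
    ‖GS g (K / l) t - K * g (SG.NZ t)‖ ≤ ∑ j ∈ Icc 1 (2 * K), ‖g (SG.NZ t + j) - g (SG.NZ t)‖ +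
      2 * (D SG.NZ l t K ^ 2 / K) + |D SG.NZ l t K| := by
  have hK' : (1 : ℝ) ≤ K := by exact_mod_cast hK
  have hKl : 0 ≤ (K : ℝ) / l := by positivity
  have hmono : SG.NZ t ≤ SG.NZ (t + K / l) := SG.NZ_mono (by linarith)
  obtain ⟨v, hv⟩ : ∃ v : ℕ, SG.NZ (t + K / l) = SG.NZ t + v := ⟨_, (Nat.add_sub_cancel' hmono).symm⟩
  have hD : D SG.NZ l t K = (v : ℝ) - K := by
    unfold D
    rw [hv]
    push_cast
    ring
  have e1 : GS g (K / l) t = ∑ j ∈ Icc 1 v, g (SG.NZ t + j) := by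
    unfold GS
    rw [hv]
    have e2 : Ioc (SG.NZ t) (SG.NZ t + v) = (Icc 1 v).map (addLeftEmbedding (SG.NZ t)) := by
      rw [Finset.map_add_left_Icc]
      ext x
      simp only [Finset.mem_Ioc, Finset.mem_Icc]
      omega
    rw [e2, Finset.sum_map]
    simp only [addLeftEmbedding_apply]
  have e3 : GS g (K / l) t - K * g (SG.NZ t) = ∑ j ∈ Icc 1 v, (g (SG.NZ t + j) - g (SG.NZ t)) +
      (((v : ℝ) - K : ℝ) : ℂ) * g (SG.NZ t) := by
    rw [e1, Finset.sum_sub_distrib, Finset.sum_const, Nat.card_Icc, Nat.add_sub_cancel, nsmul_eq_mul]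
    push_cast
    ring
  rw [e3]
  have h1 : ‖(((v : ℝ) - K : ℝ) : ℂ) * g (SG.NZ t)‖ ≤ |D SG.NZ l t K| := by
    rw [norm_mul, Complex.norm_real, Real.norm_eq_abs, ← hD]
    exact mul_le_of_le_one_right (abs_nonneg _) (hg _)
  have h2 : ‖∑ j ∈ Icc 1 v, (g (SG.NZ t + j) - g (SG.NZ t))‖ ≤
      ∑ j ∈ Icc 1 (2 * K), ‖g (SG.NZ t + j) - g (SG.NZ t)‖ + 2 * (D SG.NZ l t K ^ 2 / K) := by
    refine (norm_sum_le _ _).trans ?_
    have hp : 0 ≤ 2 * (D SG.NZ l t K ^ 2 / K) := by positivity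
    rcases le_or_gt v (2 * K) with hvK | hvK
    · have : ∑ j ∈ Icc 1 v, ‖g (SG.NZ t + j) - g (SG.NZ t)‖ ≤
          ∑ j ∈ Icc 1 (2 * K), ‖g (SG.NZ t + j) - g (SG.NZ t)‖ :=
        Finset.sum_le_sum_of_subset_of_nonneg (Finset.Icc_subset_Icc_right hvK)
          fun _ _ _ => norm_nonneg _
      linarith
    · have e4 : ∑ j ∈ Icc 1 v, ‖g (SG.NZ t + j) - g (SG.NZ t)‖ =
          ∑ j ∈ Icc 1 (2 * K), ‖g (SG.NZ t + j) - g (SG.NZ t)‖ +
          ∑ j ∈ Ioc (2 * K) v, ‖g (SG.NZ t + j) - g (SG.NZ t)‖ := by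
        have e5 : Icc 1 v = Icc 1 (2 * K) ∪ Ioc (2 * K) v := by
          ext x
          simp only [Finset.mem_union, Finset.mem_Icc, Finset.mem_Ioc]
          omega
        rw [e5, Finset.sum_union]
        rw [Finset.disjoint_left]
        intro x hx hx2
        rw [Finset.mem_Icc] at hx
        rw [Finset.mem_Ioc] at hx2
        omega
      rw [e4]
      have h3 : ∑ j ∈ Ioc (2 * K) v, ‖g (SG.NZ t + j) - g (SG.NZ t)‖ ≤ ∑ j ∈ Ioc (2 * K) v, (2 : ℝ) := by
        refine Finset.sum_le_sum fun j _ => ?_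
        refine (norm_sub_le _ _).trans ?_
        linarith [hg (SG.NZ t + j), hg (SG.NZ t)]
      rw [Finset.sum_const, Nat.card_Ioc, nsmul_eq_mul, Nat.cast_sub hvK.le] at h3
      have h4 : (2 * K : ℝ) < v := by exact_mod_cast hvK
      have h5 : (v : ℝ) - 2 * K ≤ D SG.NZ l t K ^ 2 / K := by
        rw [hD, le_div_iff₀ (by linarith)]
        nlinarith
      push_cast at h3
      linarith
  exact (norm_add_le _ _).trans (add_le_add h2 h1)

/-- the exchange of sum and integral -/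
lemma GS_exch (hg : ∀ n, ‖g n‖ ≤ 1) {T h : ℝ} (hT : 0 < T) (hh : 0 < h) :
    IntervalIntegrable (GS g h) volume (T / 2) T ∧
    ‖(1 / h : ℝ) * (∫ t in (T / 2)..T, GS g h t) - ∑ n ∈ Ioc (SG.NZ (T / 2)) (SG.NZ T), g n‖ ≤
      ((SG.NZ (T / 2 + h) : ℝ) - SG.NZ (T / 2)) + ((SG.NZ (T + h) : ℝ) - SG.NZ T) := by
  classical
  set S := Ioc (SG.NZ (T / 2)) (SG.NZ (T + h)) with hS
  set ind : ℕ → ℝ → ℂ := fun n => (Set.Ico (SG.ord n - h) (SG.ord n)).indicator fun _ => (1 : ℂ)
    with hind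
  have e1 : ∀ t ∈ Set.Icc (T / 2) T, GS g h t = ∑ n ∈ S, ind n t * g n := by
    intro t ht
    unfold GS
    have e2 : Ioc (SG.NZ t) (SG.NZ (t + h)) = S.filter fun n => t ∈ Set.Ico (SG.ord n - h) (SG.ord n) := by
      ext n
      rw [Finset.mem_filter, Finset.mem_Ioc, hS, Finset.mem_Ioc, Set.mem_Ico]
      constructor
      · rintro ⟨h1, h2⟩
        have hn : 1 ≤ n := by omega
        refine ⟨⟨(SG.NZ_mono ht.1).trans_lt h1, h2.trans (SG.NZ_mono (by linarith [ht.2]))⟩, ?_, ?_⟩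
        · have := (SG.ord_le_iff hn _).2 h2
          linarith
        · by_contra hc
          push Not at hc
          have := (SG.ord_le_iff hn _).1 hc
          omega
      · rintro ⟨⟨h1, h2⟩, h3, h4⟩
        have hn : 1 ≤ n := by omega
        constructor
        · by_contra hc
          push Not at hc
          have := (SG.ord_le_iff hn _).2 hc
          linarith
        · exact (SG.ord_le_iff hn _).1 (by linarith)
    rw [e2, Finset.sum_filter]
    refine Finset.sum_congr rfl fun n _ => ?_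
    rw [hind]
    simp only [Set.indicator]
    split_ifs <;> simp
  have hint : ∀ n, IntervalIntegrable (fun t => ind n t * g n) volume (T / 2) T := by
    intro n
    refine IntervalIntegrable.mul_const ?_ _
    rw [hind, intervalIntegrable_iff]
    refine Integrable.integrableOn ?_
    refine IntegrableOn.integrable_indicator ?_ measurableSet_Ico
    exact integrableOn_const (by simp) (by simp)
  have hint2 : IntervalIntegrable (fun t => ∑ n ∈ S, ind n t * g n) volume (T / 2) T := by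
    have := IntervalIntegrable.sum S fun n _ => hint n
    have e : (∑ n ∈ S, fun t => ind n t * g n) = fun t => ∑ n ∈ S, ind n t * g n := by
      funext t
      rw [Finset.sum_apply]
    rwa [e] at this
  refine ⟨hint2.congr_ae ?_, ?_⟩
  · rw [Filter.EventuallyEq, ae_restrict_iff' measurableSet_uIoc]
    refine Eventually.of_forall fun t ht => ?_
    rw [Set.uIoc_of_le (by linarith)] at ht
    exact (e1 t ⟨ht.1.le, ht.2⟩).symm
  set a : ℕ → ℝ := fun n => volume.real (Set.Ico (SG.ord n - h) (SG.ord n) ∩ Set.Ioc (T / 2) T) with ha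
  have ha0 : ∀ n, 0 ≤ a n := fun n => measureReal_nonneg
  have hah : ∀ n, a n ≤ h := by
    intro n
    have h1 : a n ≤ volume.real (Set.Ico (SG.ord n - h) (SG.ord n)) :=
      measureReal_mono Set.inter_subset_left (by simp)
    have h2 : volume.real (Set.Ico (SG.ord n - h) (SG.ord n)) = h := by
      rw [Measure.real, Real.volume_Ico, ENNReal.toReal_ofReal (by linarith)]
      ring
    linarith
  have hae : ∀ n, T / 2 + h < SG.ord n → SG.ord n ≤ T → a n = h := by
    intro n h1 h2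
    have h3 : Set.Ico (SG.ord n - h) (SG.ord n) ∩ Set.Ioc (T / 2) T =
        Set.Ico (SG.ord n - h) (SG.ord n) := by
      refine Set.inter_eq_left.2 fun x hx => ⟨?_, ?_⟩
      · linarith [hx.1]
      · linarith [hx.2]
    rw [ha]
    simp only
    rw [h3, Measure.real, Real.volume_Ico, ENNReal.toReal_ofReal (by linarith)]
    ring
  have e3 : ∫ t in (T / 2)..T, GS g h t = ∑ n ∈ S, (a n : ℂ) * g n := by
    rw [intervalIntegral.integral_congr (g := fun t => ∑ n ∈ S, ind n t * g n) (fun t ht => by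
      rw [Set.uIcc_of_le (by linarith)] at ht
      exact e1 t ht)]
    rw [intervalIntegral.integral_finsetSum fun n _ => hint n]
    refine Finset.sum_congr rfl fun n _ => ?_
    rw [intervalIntegral.integral_mul_const]
    congr 1
    rw [intervalIntegral.integral_of_le (by linarith), hind,
      setIntegral_indicator measurableSet_Ico, setIntegral_const, Set.inter_comm]
    rw [ha]
    simp
  have e4 : S = Ioc (SG.NZ (T / 2)) (SG.NZ T) ∪ Ioc (SG.NZ T) (SG.NZ (T + h)) := by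
    have h1 : SG.NZ (T / 2) ≤ SG.NZ T := SG.NZ_mono (by linarith)
    have h2 : SG.NZ T ≤ SG.NZ (T + h) := SG.NZ_mono (by linarith)
    ext x
    simp only [hS, Finset.mem_union, Finset.mem_Ioc]
    omega
  have hdisj : Disjoint (Ioc (SG.NZ (T / 2)) (SG.NZ T)) (Ioc (SG.NZ T) (SG.NZ (T + h))) := by
    rw [Finset.disjoint_left]
    intro x hx hx2
    rw [Finset.mem_Ioc] at hx hx2
    omega
  have e5 : (1 / h : ℝ) * (∫ t in (T / 2)..T, GS g h t) - ∑ n ∈ Ioc (SG.NZ (T / 2)) (SG.NZ T), g n =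
      ∑ n ∈ Ioc (SG.NZ (T / 2)) (SG.NZ T), ((a n / h - 1 : ℝ) : ℂ) * g n +
      ∑ n ∈ Ioc (SG.NZ T) (SG.NZ (T + h)), ((a n / h : ℝ) : ℂ) * g n := by
    rw [e3, e4, Finset.sum_union hdisj, mul_add, Finset.mul_sum, Finset.mul_sum, add_sub_right_comm,
      ← Finset.sum_sub_distrib]
    congr 1
    · refine Finset.sum_congr rfl fun n _ => ?_
      push_cast
      ring
    · refine Finset.sum_congr rfl fun n _ => ?_
      push_cast
      ring
  rw [e5]
  refine (norm_add_le _ _).trans (add_le_add ?_ ?_)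
  · refine (norm_sum_le _ _).trans ?_
    have h1 : ∀ n ∈ Ioc (SG.NZ (T / 2)) (SG.NZ T), ‖((a n / h - 1 : ℝ) : ℂ) * g n‖ ≤
        if n ≤ SG.NZ (T / 2 + h) then (1 : ℝ) else 0 := by
      intro n hn
      rw [Finset.mem_Ioc] at hn
      have hn1 : 1 ≤ n := by omega
      split_ifs with h2
      · rw [norm_mul, Complex.norm_real, Real.norm_eq_abs]
        have h3 : |a n / h - 1| ≤ 1 := by
          rw [abs_le]
          have h4 : 0 ≤ a n / h := div_nonneg (ha0 n) hh.le
          have h5 : a n / h ≤ 1 := (div_le_one hh).2 (hah n)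
          constructor <;> linarith
        exact mul_le_one₀ h3 (norm_nonneg _) (hg n)
      · have h3 : T / 2 + h < SG.ord n := by
          by_contra hc
          push Not at hc
          exact h2 ((SG.ord_le_iff hn1 _).1 hc)
        have h4 : SG.ord n ≤ T := (SG.ord_le_iff hn1 _).2 hn.2
        rw [hae n h3 h4, div_self hh.ne']
        simp
    refine (Finset.sum_le_sum h1).trans ?_
    rw [← Finset.sum_filter, Finset.sum_const, nsmul_eq_mul, mul_one]
    have h2 : ((Ioc (SG.NZ (T / 2)) (SG.NZ T)).filter fun n => n ≤ SG.NZ (T / 2 + h)) ⊆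
        Ioc (SG.NZ (T / 2)) (SG.NZ (T / 2 + h)) := by
      intro n hn
      rw [Finset.mem_filter, Finset.mem_Ioc] at hn
      rw [Finset.mem_Ioc]
      omega
    have h3 := Finset.card_le_card h2
    rw [Nat.card_Ioc] at h3
    have h4 : SG.NZ (T / 2) ≤ SG.NZ (T / 2 + h) := SG.NZ_mono (by linarith)
    rw [← Nat.cast_sub h4]
    exact_mod_cast h3
  · refine (norm_sum_le _ _).trans ?_
    have h1 : ∀ n ∈ Ioc (SG.NZ T) (SG.NZ (T + h)), ‖((a n / h : ℝ) : ℂ) * g n‖ ≤ 1 := by
      intro n _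
      rw [norm_mul, Complex.norm_real, Real.norm_eq_abs, abs_of_nonneg (div_nonneg (ha0 n) hh.le)]
      exact mul_le_one₀ ((div_le_one hh).2 (hah n)) (norm_nonneg _) (hg n)
    refine (Finset.sum_le_sum h1).trans ?_
    rw [Finset.sum_const, Nat.card_Ioc, nsmul_eq_mul, mul_one]
    have h4 : SG.NZ T ≤ SG.NZ (T + h) := SG.NZ_mono (by linarith)
    rw [Nat.cast_sub h4]

end Pool.Agent.Q278.GF
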