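import Pool.Agent.Q278.GF.E

/-!
# Blocks of indices, and all indices up to `N` (helper278)
-/

set_option autoImplicit false

namespace Pool.Agent.Q278.GF

open Finset MeasureTheory Filter Topology Complex

variable {g : ℕ → ℂ} {G : ℂ}

/-- the size of a block -/
noncomputable def Yb (T : ℝ) : ℝ := T * sc T / 2

lemma Xf_eq (T : ℝ) : Pool.Agent.Y744.Xf T = T * sc T := by
  unfold Pool.Agent.Y744.Xf sc
  ring

lemma Yb_pos {T : ℝ} (hT : 1 < T) : 0 < Yb T := by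
  have := Real.log_pos hT
  have := Real.pi_pos
  unfold Yb sc
  positivity

lemma half_lim : Tendsto (fun T : ℝ => T / 2) atTop atTop := tendsto_id.atTop_div_const (by norm_num)

lemma log_half : Tendsto (fun T : ℝ => Real.log (T / 2) / Real.log T) atTop (𝓝 1) := by
  have h1 : Tendsto (fun T : ℝ => 1 - Real.log 2 / Real.log T) atTop (𝓝 (1 - 0)) :=
    tendsto_const_nhds.sub (tendsto_const_nhds.div_atTop Real.tendsto_log_atTop)
  rw [sub_zero] at h1
  refine h1.congr' ?_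
  filter_upwards [eventually_gt_atTop 1] with T hT
  have := Real.log_pos hT
  rw [Real.log_div (by linarith) (by norm_num)]
  field_simp

/-- the number of points of a block -/
lemma block_count : Tendsto (fun T : ℝ => ((SG.NZ T : ℝ) - SG.NZ (T / 2)) / Yb T) atTop (𝓝 1) := by
  have h1 := Pool.Agent.Q276.NV.NZ_lim
  have h2 := h1.comp half_lim
  have h3 := (h1.const_mul 2).sub (h2.mul log_half)
  rw [show (2 : ℝ) * 1 - 1 * 1 = 1 by norm_num] at h3
  refine h3.congr' ?_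
  filter_upwards [eventually_gt_atTop 2] with T hT
  have hl := Real.log_pos (by linarith : 1 < T)
  have hl2 := Real.log_pos (by linarith : 1 < T / 2)
  have hpi := Real.pi_pos
  simp only [Function.comp_apply, Xf_eq]
  unfold Yb sc
  field_simp

lemma edge_count (K : ℕ) : Tendsto (fun T : ℝ => (((SG.NZ (T / 2 + K / sc T) : ℝ) - SG.NZ (T / 2)) +
    ((SG.NZ (T + K / sc T) : ℝ) - SG.NZ T)) / Yb T) atTop (𝓝 0) := by
  obtain ⟨C, T0, hC, hT0, h⟩ := Pool.Agent.Q276.NV.end_count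
  have hpi := Real.pi_pos
  have h1 : Tendsto (fun T : ℝ => (8 * Real.pi * C) * (Real.log T ^ 1 / T)) atTop (𝓝 0) :=
    Pool.Agent.Q276.NV.logpow_lim _ 1
  have hs : Tendsto sc atTop atTop := by
    unfold sc
    exact Real.tendsto_log_atTop.atTop_div_const (by positivity)
  have hh : Tendsto (fun T => (K : ℝ) / sc T) atTop (𝓝 0) := tendsto_const_nhds.div_atTop hs
  refine squeeze_zero' ?_ ?_ h1
  · filter_upwards [eventually_gt_atTop 1] with T hT
    have hs0 : 0 ≤ (K : ℝ) / sc T := by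
      have := Real.log_pos hT
      unfold sc
      positivity
    have a1 : (SG.NZ (T / 2) : ℝ) ≤ SG.NZ (T / 2 + K / sc T) := by
      exact_mod_cast SG.NZ_mono (by linarith)
    have a2 : (SG.NZ T : ℝ) ≤ SG.NZ (T + K / sc T) := by exact_mod_cast SG.NZ_mono (by linarith)
    have := Yb_pos hT
    exact div_nonneg (by linarith) this.le
  · filter_upwards [eventually_ge_atTop (2 * T0), hh.eventually_le_const (u := 1) (by norm_num)]
      with T hT hK
    have hT1 : 1 < T := by linarith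
    have hl := Real.log_pos hT1
    have g1 := h T (by linarith)
    have g2 := h (T / 2) (by linarith)
    have a1 : (SG.NZ (T / 2 + K / sc T) : ℝ) ≤ SG.NZ (T / 2 + 1) := by
      exact_mod_cast SG.NZ_mono (by linarith)
    have a2 : (SG.NZ (T / 2 - 2) : ℝ) ≤ SG.NZ (T / 2) := by exact_mod_cast SG.NZ_mono (by linarith)
    have a3 : (SG.NZ (T + K / sc T) : ℝ) ≤ SG.NZ (T + 1) := by
      exact_mod_cast SG.NZ_mono (by linarith)
    have a4 : (SG.NZ (T - 2) : ℝ) ≤ SG.NZ T := by exact_mod_cast SG.NZ_mono (by linarith)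
    have a5 : Real.log (T / 2) ^ 2 ≤ Real.log T ^ 2 :=
      pow_le_pow_left₀ (Real.log_nonneg (by linarith)) (Real.log_le_log (by linarith) (by linarith)) 2
    have hY := Yb_pos hT1
    rw [div_le_iff₀ hY]
    have e : 8 * Real.pi * C * (Real.log T ^ 1 / T) * Yb T = 2 * C * Real.log T ^ 2 := by
      unfold Yb sc
      field_simp
      ring
    rw [e]
    have : C * Real.log (T / 2) ^ 2 ≤ C * Real.log T ^ 2 := mul_le_mul_of_nonneg_left a5 hC.le
    linarith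

lemma meas_g (g : ℕ → ℂ) : Measurable fun t : ℝ => g (SG.NZ t) := by
  have h1 : Measurable (SG.NZ : ℝ → ℕ) := SG.NZ_mono.measurable
  exact (measurable_of_countable g).comp h1

lemma g_int (hg : ∀ n, ‖g n‖ ≤ 1) {T : ℝ} (hT : 0 < T) :
    IntervalIntegrable (fun t : ℝ => g (SG.NZ t)) volume (T / 2) T := by
  rw [intervalIntegrable_iff_integrableOn_Icc_of_le (by linarith)]
  exact Measure.integrableOn_of_bounded (M := 1) (by simp) (meas_g g).aestronglyMeasurable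
    (Eventually.of_forall fun t => hg _)

/-- **one block** -/
theorem block : ∃ C : ℝ, 0 < C ∧ ∀ (g : ℕ → ℂ) (G : ℂ) (K : ℕ) (V : ℝ → ℝ → ℝ) (ε1 ε2 η : ℝ),
    (∀ n, ‖g n‖ ≤ 1) → ‖G‖ ≤ 1 → 1 ≤ K → 0 < η →
    (∀ T, Bd T (V T)) → (∀ᶠ T : ℝ in atTop, ∀ t ∈ Set.Icc (T / 2) T, 0 ≤ V T t ∧
      ∀ j ∈ Icc 1 (2 * K), ‖g (SG.NZ t + j) - g (SG.NZ t)‖ ≤ 4 * j * V T t) →
    (∀ᶠ T : ℝ in atTop, av T (V T) ≤ ε1) →
    (∀ᶠ T : ℝ in atTop, ‖((2 / T : ℝ) : ℂ) * (∫ t in (T / 2)..T, g (SG.NZ t)) - G‖ ≤ ε2) →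
    ∀ᶠ T : ℝ in atTop, ‖∑ n ∈ Ioc (SG.NZ (T / 2)) (SG.NZ T), g n -
        ((SG.NZ T : ℝ) - SG.NZ (T / 2) : ℝ) * G‖ ≤
      2 * (12 * K * ε1 + 3 * C * (1 + Real.log K) / K + 1 / Real.sqrt K + ε2 + η) *
        ((SG.NZ T : ℝ) - SG.NZ (T / 2)) := by
  obtain ⟨C, hC, hD2⟩ := av_D2
  refine ⟨C, hC, fun g G K V ε1 ε2 η hg hG hK hη hVb hV hV1 hlim => ?_⟩
  have hK' : (1 : ℝ) ≤ K := by exact_mod_cast hK
  have hK0 : (0 : ℝ) < K := by linarith
  have hsq : 0 < Real.sqrt K := Real.sqrt_pos.2 hK0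
  have hsq1 : 1 ≤ Real.sqrt K := by rw [Real.one_le_sqrt]; exact hK'
  filter_upwards [hV, hV1, hlim, hD2 K hK, eventually_gt_atTop 1,
    (edge_count K).eventually_le_const (u := η / 2) (by positivity),
    block_count.eventually_const_le (u := max (1 / 2) (1 - η / 2)) (by
      rw [max_lt_iff]; constructor <;> linarith),
    block_count.eventually_le_const (u := 1 + η / 2) (by linarith)] with T q1 q2 q3 q4 hT q5 q6 q7
  have hT0 : 0 < T := by linarith
  have hY := Yb_pos hT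
  have hs : 0 < sc T := by
    have := Real.log_pos hT
    have := Real.pi_pos
    unfold sc
    positivity
  set h : ℝ := K / sc T with hh
  have hh0 : 0 < h := by positivity
  obtain ⟨i1, i2⟩ := GS_exch hg hT0 hh0
  have i3 := g_int hg hT0
  set Sb := ∑ n ∈ Ioc (SG.NZ (T / 2)) (SG.NZ T), g n with hSb
  set I1 := ∫ t in (T / 2)..T, GS g h t with hI1
  set I2 := ∫ t in (T / 2)..T, g (SG.NZ t) with hI2
  set MT : ℝ := (SG.NZ T : ℝ) - SG.NZ (T / 2) with hMT
  -- the comparison of the integrals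
  have hbd : Bd T fun t => 12 * (K : ℝ) ^ 2 * V T t + ((2 / K + 1 / Real.sqrt K) *
      D SG.NZ (sc T) t K ^ 2 + Real.sqrt K) :=
    ((hVb T).cmul _).add (((bd_D2 T _ _).cmul _).add (Bd.const T _))
  have j1 : ‖I1 - K * I2‖ ≤ ∫ t in (T / 2)..T, (12 * (K : ℝ) ^ 2 * V T t + ((2 / K + 1 / Real.sqrt K) *
      D SG.NZ (sc T) t K ^ 2 + Real.sqrt K)) := by
    rw [hI1, hI2, ← intervalIntegral.integral_const_mul, ← intervalIntegral.integral_sub i1
      (i3.const_mul _)]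
    refine intervalIntegral.norm_integral_le_of_norm_le (by linarith) ?_ (hbd.int hT0)
    refine Eventually.of_forall fun t ht => ?_
    have ht' : t ∈ Set.Icc (T / 2) T := ⟨ht.1.le, ht.2⟩
    refine (GS_cmp hg hK hs).trans ?_
    obtain ⟨v1, v2⟩ := q1 t ht'
    have k1 : ∑ j ∈ Icc 1 (2 * K), ‖g (SG.NZ t + j) - g (SG.NZ t)‖ ≤ 12 * (K : ℝ) ^ 2 * V T t := by
      refine (Finset.sum_le_sum v2).trans ?_
      rw [← Finset.sum_mul, ← Finset.mul_sum]
      have k2 : ∑ j ∈ Icc 1 (2 * K), (j : ℝ) = K * (2 * K + 1) := by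
        have : ∀ M : ℕ, ∑ j ∈ Icc 1 M, (j : ℝ) = M * (M + 1) / 2 := by
          intro M
          induction M with
          | zero => simp
          | succ M ih =>
            rw [Finset.sum_Icc_succ_top (by omega), ih]
            push_cast
            ring
        rw [this]
        push_cast
        ring
      rw [k2]
      refine mul_le_mul_of_nonneg_right ?_ v1
      nlinarith
    have k3 : |D SG.NZ (sc T) t K| ≤ 1 / Real.sqrt K * D SG.NZ (sc T) t K ^ 2 + Real.sqrt K := by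
      set d := D SG.NZ (sc T) t K
      have k4 : 0 ≤ (|d| - Real.sqrt K) ^ 2 := sq_nonneg _
      have k5 : |d| * Real.sqrt K ≤ d ^ 2 + Real.sqrt K ^ 2 := by
        have := sq_abs d
        nlinarith [abs_nonneg d]
      have k6 : |d| = |d| * Real.sqrt K / Real.sqrt K := by field_simp
      rw [k6, div_le_iff₀ hsq]
      have k7 : (1 / Real.sqrt K * d ^ 2 + Real.sqrt K) * Real.sqrt K = d ^ 2 + Real.sqrt K ^ 2 := by
        field_simp
      rw [k7]
      exact k5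
    have k8 : 2 * (D SG.NZ (sc T) t K ^ 2 / K) = 2 / K * D SG.NZ (sc T) t K ^ 2 := by ring
    rw [k8]
    have k9 : (2 / (K : ℝ) + 1 / Real.sqrt K) * D SG.NZ (sc T) t K ^ 2 =
        2 / K * D SG.NZ (sc T) t K ^ 2 + 1 / Real.sqrt K * D SG.NZ (sc T) t K ^ 2 := by ring
    rw [k9]
    linarith
  have j2 : ∫ t in (T / 2)..T, (12 * (K : ℝ) ^ 2 * V T t + ((2 / K + 1 / Real.sqrt K) *
      D SG.NZ (sc T) t K ^ 2 + Real.sqrt K)) ≤ T / 2 * (12 * (K : ℝ) ^ 2 * ε1 +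
        (3 * C * (1 + Real.log K) + Real.sqrt K)) := by
    have e1 : ∫ t in (T / 2)..T, (12 * (K : ℝ) ^ 2 * V T t + ((2 / K + 1 / Real.sqrt K) *
      D SG.NZ (sc T) t K ^ 2 + Real.sqrt K)) = T / 2 * av T (fun t => 12 * (K : ℝ) ^ 2 * V T t +
        ((2 / K + 1 / Real.sqrt K) * D SG.NZ (sc T) t K ^ 2 + Real.sqrt K)) := by
      unfold av
      rw [← mul_assoc, show T / 2 * (2 / T) = 1 by field_simp, one_mul]
    rw [e1]
    refine mul_le_mul_of_nonneg_left ?_ (by positivity)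
    rw [av_add hT0 ((hVb T).cmul _) (((bd_D2 T _ _).cmul _).add (Bd.const T _)),
      av_add hT0 ((bd_D2 T _ _).cmul _) (Bd.const T _), av_cmul, av_cmul, av_const hT0]
    have m1 : 12 * (K : ℝ) ^ 2 * av T (V T) ≤ 12 * (K : ℝ) ^ 2 * ε1 :=
      mul_le_mul_of_nonneg_left q2 (by positivity)
    have m2 : (2 / (K : ℝ) + 1 / Real.sqrt K) ≤ 3 := by
      have : 2 / (K : ℝ) ≤ 2 := by rw [div_le_iff₀ hK0]; linarith
      have : 1 / Real.sqrt K ≤ 1 := by rw [div_le_one hsq]; exact hsq1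
      linarith
    have hlog : 0 ≤ Real.log K := Real.log_nonneg hK'
    have m3 : (2 / (K : ℝ) + 1 / Real.sqrt K) * av T (fun t => D SG.NZ (sc T) t K ^ 2) ≤
        3 * (C * (1 + Real.log K)) :=
      (mul_le_mul_of_nonneg_left q4 (by positivity)).trans
        (mul_le_mul_of_nonneg_right m2 (by positivity))
    linarith
  -- assemble
  have e2 : Sb - (MT : ℂ) * G = (Sb - ((1 / h : ℝ) : ℂ) * I1) +
      ((1 / h : ℝ) : ℂ) * (I1 - K * I2) + ((Yb T : ℝ) : ℂ) * (((2 / T : ℝ) : ℂ) * I2 - G) +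
      ((Yb T - MT : ℝ) : ℂ) * G := by
    have hsc : ((sc T : ℝ) : ℂ) ≠ 0 := by exact_mod_cast hs.ne'
    have hTc : ((T : ℝ) : ℂ) ≠ 0 := by exact_mod_cast hT0.ne'
    have hKc : ((K : ℝ) : ℂ) ≠ 0 := by exact_mod_cast hK0.ne'
    have hKc' : ((K : ℕ) : ℂ) ≠ 0 := by exact_mod_cast (by omega : K ≠ 0)
    rw [hh]
    unfold Yb
    push_cast
    field_simp
    ring
  rw [e2]
  have n1 : ‖Sb - ((1 / h : ℝ) : ℂ) * I1‖ ≤ η / 2 * Yb T := by
    rw [norm_sub_rev]
    refine i2.trans ?_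
    rwa [div_le_iff₀ hY] at q5
  have n2 : ‖((1 / h : ℝ) : ℂ) * (I1 - K * I2)‖ ≤ Yb T * (12 * K * ε1 +
      3 * C * (1 + Real.log K) / K + 1 / Real.sqrt K) := by
    rw [norm_mul, Complex.norm_real, Real.norm_of_nonneg (by positivity)]
    refine (mul_le_mul_of_nonneg_left (j1.trans j2) (by positivity)).trans (le_of_eq ?_)
    rw [hh]
    unfold Yb
    have hsq2 : Real.sqrt K * Real.sqrt K = K := Real.mul_self_sqrt hK0.le
    have e3 : 1 / Real.sqrt K = Real.sqrt K / K := by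
      rw [div_eq_div_iff hsq.ne' hK0.ne', one_mul, hsq2]
    rw [e3]
    field_simp
    ring
  have n3 : ‖((Yb T : ℝ) : ℂ) * (((2 / T : ℝ) : ℂ) * I2 - G)‖ ≤ Yb T * ε2 := by
    rw [norm_mul, Complex.norm_real, Real.norm_of_nonneg hY.le]
    exact mul_le_mul_of_nonneg_left q3 hY.le
  have n4 : ‖((Yb T - MT : ℝ) : ℂ) * G‖ ≤ η / 2 * Yb T := by
    rw [norm_mul, Complex.norm_real, Real.norm_eq_abs]
    have n5 : |Yb T - MT| ≤ η / 2 * Yb T := by
      have r1 : 1 - η / 2 ≤ MT / Yb T := (le_max_right _ _).trans q6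
      rw [le_div_iff₀ hY] at r1
      rw [div_le_iff₀ hY] at q7
      rw [abs_le]
      constructor <;> linarith
    calc |Yb T - MT| * ‖G‖ ≤ (η / 2 * Yb T) * 1 :=
          mul_le_mul n5 hG (norm_nonneg _) (by positivity)
      _ = _ := by ring
  have r2 : 1 / 2 ≤ MT / Yb T := (le_max_left _ _).trans q6
  rw [le_div_iff₀ hY] at r2
  have n6 : ‖(Sb - ((1 / h : ℝ) : ℂ) * I1) +
      ((1 / h : ℝ) : ℂ) * (I1 - K * I2) + ((Yb T : ℝ) : ℂ) * (((2 / T : ℝ) : ℂ) * I2 - G) +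
      ((Yb T - MT : ℝ) : ℂ) * G‖ ≤ (12 * K * ε1 + 3 * C * (1 + Real.log K) / K +
        1 / Real.sqrt K + ε2 + η) * Yb T := by
    refine (norm_add_le _ _).trans ?_
    have a1 := norm_add_le (Sb - ((1 / h : ℝ) : ℂ) * I1 + ((1 / h : ℝ) : ℂ) * (I1 - K * I2))
      (((Yb T : ℝ) : ℂ) * (((2 / T : ℝ) : ℂ) * I2 - G))
    have a2 := norm_add_le (Sb - ((1 / h : ℝ) : ℂ) * I1) (((1 / h : ℝ) : ℂ) * (I1 - K * I2))
    linarith
  refine n6.trans ?_
  have hE : 0 ≤ 12 * K * ε1 + 3 * C * (1 + Real.log K) / K + 1 / Real.sqrt K + ε2 + η := by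
    by_contra hc
    push Not at hc
    have := (norm_nonneg _).trans n6
    nlinarith
  nlinarith

/-- dyadic summation -/
theorem dyadic (hg : ∀ n, ‖g n‖ ≤ 1) (hG : ‖G‖ ≤ 1) {T0 ε : ℝ} (hT0 : 0 < T0) (hε : 0 ≤ ε)
    (h : ∀ T : ℝ, T0 ≤ T → ‖∑ n ∈ Ioc (SG.NZ (T / 2)) (SG.NZ T), g n -
      ((SG.NZ T : ℝ) - SG.NZ (T / 2) : ℝ) * G‖ ≤ ε * ((SG.NZ T : ℝ) - SG.NZ (T / 2))) (T : ℝ) :
    ‖∑ n ∈ Ioc 0 (SG.NZ T), g n - (SG.NZ T : ℝ) * G‖ ≤ ε * SG.NZ T + 2 * SG.NZ T0 := by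
  have key : ∀ k : ℕ, ∀ T : ℝ, T < 2 ^ k * T0 →
      ‖∑ n ∈ Ioc 0 (SG.NZ T), g n - (SG.NZ T : ℝ) * G‖ ≤ ε * SG.NZ T + 2 * SG.NZ T0 := by
    intro k
    induction k with
    | zero =>
      intro T hT
      rw [pow_zero, one_mul] at hT
      have h1 : (SG.NZ T : ℝ) ≤ SG.NZ T0 := by exact_mod_cast SG.NZ_mono hT.le
      have h2 : ‖∑ n ∈ Ioc 0 (SG.NZ T), g n‖ ≤ SG.NZ T := by
        refine (norm_sum_le _ _).trans ((Finset.sum_le_sum fun n _ => hg n).trans ?_)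
        rw [Finset.sum_const, Nat.card_Ioc, nsmul_eq_mul, mul_one, Nat.sub_zero]
      have h3 : ‖((SG.NZ T : ℝ) : ℂ) * G‖ ≤ SG.NZ T := by
        rw [norm_mul, Complex.norm_real, Real.norm_of_nonneg (Nat.cast_nonneg _)]
        exact mul_le_of_le_one_right (Nat.cast_nonneg _) hG
      have h4 : 0 ≤ ε * SG.NZ T := mul_nonneg hε (Nat.cast_nonneg _)
      have h5 := norm_sub_le (∑ n ∈ Ioc 0 (SG.NZ T), g n) (((SG.NZ T : ℝ) : ℂ) * G)
      linarith
    | succ k ih =>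
      intro T hT
      rcases lt_or_ge T T0 with h0 | h0
      · refine ih T (h0.trans_le ?_)
        have : (1 : ℝ) ≤ 2 ^ k := one_le_pow₀ (by norm_num)
        nlinarith
      · have h1 := ih (T / 2) (by rw [pow_succ] at hT; linarith)
        have h2 := h T h0
        have hm : SG.NZ (T / 2) ≤ SG.NZ T := SG.NZ_mono (by linarith)
        have e1 : ∑ n ∈ Ioc 0 (SG.NZ T), g n = ∑ n ∈ Ioc 0 (SG.NZ (T / 2)), g n +
            ∑ n ∈ Ioc (SG.NZ (T / 2)) (SG.NZ T), g n := by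
          rw [← Finset.sum_union]
          · congr 1
            ext x
            simp only [Finset.mem_union, Finset.mem_Ioc]
            omega
          · rw [Finset.disjoint_left]
            intro x hx hx2
            rw [Finset.mem_Ioc] at hx hx2
            omega
        have e2 : ∑ n ∈ Ioc 0 (SG.NZ T), g n - ((SG.NZ T : ℝ) : ℂ) * G =
            (∑ n ∈ Ioc 0 (SG.NZ (T / 2)), g n - ((SG.NZ (T / 2) : ℝ) : ℂ) * G) +
            (∑ n ∈ Ioc (SG.NZ (T / 2)) (SG.NZ T), g n -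
              (((SG.NZ T : ℝ) - SG.NZ (T / 2) : ℝ) : ℂ) * G) := by
          rw [e1]
          push_cast
          ring
        rw [e2]
        refine (norm_add_le _ _).trans ?_
        linarith
  obtain ⟨k, hk⟩ := pow_unbounded_of_one_lt (T / T0) (by norm_num : (1 : ℝ) < 2)
  exact key k T (by rwa [div_lt_iff₀ hT0] at hk)

/-- the number of points at the same place is small -/
lemma over_lim (η : ℝ) (hη : 0 < η) : ∀ᶠ N : ℕ in atTop, N ≤ SG.NZ (SG.ord N) ∧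
    ((SG.NZ (SG.ord N) : ℝ) - N) ≤ η * N := by
  obtain ⟨C, T0, hC, hT0, h⟩ := Pool.Agent.Q276.NV.end_count
  have h1 : Tendsto (fun T : ℝ => C * (Real.log T ^ 2 / T)) atTop (𝓝 0) :=
    Pool.Agent.Q276.NV.logpow_lim _ 2
  have h2 : ∀ᶠ T : ℝ in atTop, T ≤ SG.NZ (T - 1) := by
    have a1 : Tendsto (fun T : ℝ => T - 1) atTop atTop := tendsto_atTop_add_const_right _ _ tendsto_id
    have a2 := (Pool.Agent.Q276.NV.NZ_lim.comp a1).eventually_const_le (u := 1 / 2) (by norm_num)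
    have a3 : Tendsto sc atTop atTop := by
      unfold sc
      exact Real.tendsto_log_atTop.atTop_div_const (by have := Real.pi_pos; positivity)
    filter_upwards [a2, (a3.comp a1).eventually_ge_atTop 4, eventually_ge_atTop 2] with T b1 b2 b3
    simp only [Function.comp_apply, Xf_eq] at b1 b2
    rw [le_div_iff₀ (by nlinarith)] at b1
    nlinarith
  have h3 : ∀ᶠ T : ℝ in atTop, (SG.NZ T : ℝ) - SG.NZ (T - 1) ≤ η * SG.NZ (T - 1) := by
    filter_upwards [h2, h1.eventually_le_const (u := η) hη, eventually_ge_atTop T0] with T b1 b2 b3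
    have b4 := h T b3
    have b5 : (SG.NZ T : ℝ) ≤ SG.NZ (T + 1) := by exact_mod_cast SG.NZ_mono (by linarith)
    have b6 : (SG.NZ (T - 2) : ℝ) ≤ SG.NZ (T - 1) := by exact_mod_cast SG.NZ_mono (by linarith)
    have hT : 0 < T := by linarith
    rw [mul_div_assoc', div_le_iff₀ hT] at b2
    have b7 := mul_le_mul_of_nonneg_left b1 hη.le
    linarith
  filter_upwards [SG.ord_tendsto.eventually h3, eventually_ge_atTop 1] with N c1 c2
  have c3 : N ≤ SG.NZ (SG.ord N) := (SG.ord_le_iff c2 _).1 le_rfl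
  refine ⟨c3, ?_⟩
  have c4 : SG.NZ (SG.ord N - 1) < N := by
    by_contra hc
    push Not at hc
    have := (SG.ord_le_iff c2 _).2 hc
    linarith
  have c5 : (SG.NZ (SG.ord N - 1) : ℝ) ≤ N := by exact_mod_cast c4.le
  nlinarith

/-- **all indices up to `N`** -/
theorem all_N (hg : ∀ n, ‖g n‖ ≤ 1) (hG : ‖G‖ ≤ 1) {ε : ℝ} (hε : 0 < ε)
    (h : ∀ᶠ T : ℝ in atTop, ‖∑ n ∈ Ioc (SG.NZ (T / 2)) (SG.NZ T), g n -
      ((SG.NZ T : ℝ) - SG.NZ (T / 2) : ℝ) * G‖ ≤ ε * ((SG.NZ T : ℝ) - SG.NZ (T / 2))) :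
    ∀ᶠ N : ℕ in atTop, ‖∑ n ∈ Ioc 0 N, g n - (N : ℝ) * G‖ ≤ 2 * ε * N := by
  obtain ⟨T1, hT1⟩ := eventually_atTop.1 h
  have hd := dyadic hg hG (T0 := max T1 1) (ε := ε) (by positivity) hε.le
    (fun T hT => hT1 T ((le_max_left _ _).trans hT))
  have h1 : ∀ᶠ N : ℕ in atTop, 2 * (SG.NZ (max T1 1) : ℝ) ≤ ε / 2 * N := by
    have : Tendsto (fun N : ℕ => ε / 2 * (N : ℝ)) atTop atTop :=
      Tendsto.const_mul_atTop (by positivity) tendsto_natCast_atTop_atTop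
    exact this.eventually_ge_atTop _
  have hη : 0 < ε / (2 * (ε + 2)) := by positivity
  filter_upwards [h1, over_lim _ hη] with N a1 a2
  obtain ⟨a3, a4⟩ := a2
  have a5 := hd (SG.ord N)
  set N' := SG.NZ (SG.ord N) with hN'
  have e1 : ∑ n ∈ Ioc 0 N, g n - ((N : ℝ) : ℂ) * G = (∑ n ∈ Ioc 0 N', g n - ((N' : ℝ) : ℂ) * G) -
      (∑ n ∈ Ioc N N', g n - (((N' : ℝ) - N : ℝ) : ℂ) * G) := by
    have : ∑ n ∈ Ioc 0 N', g n = ∑ n ∈ Ioc 0 N, g n + ∑ n ∈ Ioc N N', g n := by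
      rw [← Finset.sum_union]
      · congr 1
        ext x
        simp only [Finset.mem_union, Finset.mem_Ioc]
        omega
      · rw [Finset.disjoint_left]
        intro x hx hx2
        rw [Finset.mem_Ioc] at hx hx2
        omega
    rw [this]
    push_cast
    ring
  have a6 : (0 : ℝ) ≤ (N' : ℝ) - N := by
    have : (N : ℝ) ≤ N' := by exact_mod_cast a3
    linarith
  have a7 : ‖∑ n ∈ Ioc N N', g n - (((N' : ℝ) - N : ℝ) : ℂ) * G‖ ≤ 2 * ((N' : ℝ) - N) := by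
    refine (norm_sub_le _ _).trans ?_
    have b1 : ‖∑ n ∈ Ioc N N', g n‖ ≤ (N' : ℝ) - N := by
      refine (norm_sum_le _ _).trans ((Finset.sum_le_sum fun n _ => hg n).trans ?_)
      rw [Finset.sum_const, Nat.card_Ioc, nsmul_eq_mul, mul_one, Nat.cast_sub a3]
    have b2 : ‖(((N' : ℝ) - N : ℝ) : ℂ) * G‖ ≤ (N' : ℝ) - N := by
      rw [norm_mul, Complex.norm_real, Real.norm_of_nonneg a6]
      exact mul_le_of_le_one_right a6 hG
    linarith
  rw [e1]
  refine (norm_sub_le _ _).trans ?_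
  have a8 : (ε + 2) * ((N' : ℝ) - N) ≤ ε / 2 * N := by
    have := mul_le_mul_of_nonneg_left a4 (by positivity : 0 ≤ ε + 2)
    refine this.trans (le_of_eq ?_)
    field_simp
  linarith

end Pool.Agent.Q278.GF
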