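import Pool.Agent.Q278.GF.F
import Pool.Agent.Q278.MC.R

/-!
# The central limit theorem in the form used for the gaps (helper278)
-/

set_option autoImplicit false

namespace Pool.Agent.Q278.GF

open Finset MeasureTheory Filter Topology Complex
open Pool.Agent.Y744 (Zt mem_Zt)
open Pool.Agent.Q278.MC (CC fc SZ vr aP st mz)
open H370 (mult zset)

/-- sums over the zeros as sums over the indices -/
lemma sum_ord (B : ℝ) (f : ℝ → ℝ) :
    ∑ s ∈ Zt B, mz s * f s.im = ∑ n ∈ Ioc 0 (SG.NZ B), f (SG.ord n) := by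
  classical
  set X := (Zt B).image Complex.im ∪ (Ioc 0 (SG.NZ B)).image SG.ord with hX
  have e1 : ∑ s ∈ Zt B, mz s * f s.im = ∑ x ∈ X, ∑ s ∈ (Zt B).filter (fun s => s.im = x), mz s * f s.im := by
    rw [Finset.sum_fiberwise_of_maps_to]
    intro s hs
    rw [hX, Finset.mem_union]
    exact Or.inl (Finset.mem_image_of_mem _ hs)
  have e2 : ∑ n ∈ Ioc 0 (SG.NZ B), f (SG.ord n) =
      ∑ x ∈ X, ∑ n ∈ (Ioc 0 (SG.NZ B)).filter (fun n => SG.ord n = x), f (SG.ord n) := by
    rw [Finset.sum_fiberwise_of_maps_to]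
    intro s hs
    rw [hX, Finset.mem_union]
    exact Or.inr (Finset.mem_image_of_mem _ hs)
  rw [e1, e2]
  refine Finset.sum_congr rfl fun x hx => ?_
  have hxr : 0 < x ∧ x ≤ B := by
    rw [hX, Finset.mem_union, Finset.mem_image, Finset.mem_image] at hx
    rcases hx with ⟨s, hs, rfl⟩ | ⟨n, hn, rfl⟩
    · rw [mem_Zt] at hs
      exact ⟨hs.2.2.1, hs.2.2.2.1⟩
    · rw [Finset.mem_Ioc] at hn
      exact ⟨SG.ord_pos hn.1, (SG.ord_le_iff hn.1 _).2 hn.2⟩
  have e3 : ∑ s ∈ (Zt B).filter (fun s => s.im = x), mz s * f s.im =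
      ((∑ s ∈ (Zt B).filter (fun s => s.im = x), SG.zmult s : ℕ) : ℝ) * f x := by
    push_cast
    rw [Finset.sum_mul]
    refine Finset.sum_congr rfl fun s hs => ?_
    rw [Finset.mem_filter] at hs
    rw [hs.2]
    rfl
  have e4 : ∑ n ∈ (Ioc 0 (SG.NZ B)).filter (fun n => SG.ord n = x), f (SG.ord n) =
      (((Ioc 0 (SG.NZ B)).filter (fun n => SG.ord n = x)).card : ℝ) * f x := by
    rw [← nsmul_eq_mul, ← Finset.sum_const]
    refine Finset.sum_congr rfl fun n hn => ?_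
    rw [Finset.mem_filter] at hn
    rw [hn.2]
  rw [e3, e4]
  congr 2
  have h1 := SG.ord_count x hxr.1
  have e5 : {n : ℕ | 1 ≤ n ∧ SG.ord n = x} =
      (((Ioc 0 (SG.NZ B)).filter (fun n => SG.ord n = x) : Finset ℕ) : Set ℕ) := by
    ext n
    rw [Finset.coe_filter, Set.mem_ofPred_eq, Set.mem_ofPred_eq, Finset.mem_Ioc]
    constructor
    · rintro ⟨a, b⟩
      exact ⟨⟨a, (SG.ord_le_iff a _).1 (b ▸ hxr.2)⟩, b⟩
    · rintro ⟨⟨a, b⟩, c⟩
      exact ⟨a, c⟩
  have e6 : {s : ℂ | riemannZeta s = 0 ∧ 0 < s.re ∧ s.re < 1 ∧ s.im = x} =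
      (((Zt B).filter (fun s => s.im = x) : Finset ℂ) : Set ℂ) := by
    ext s
    rw [Finset.coe_filter, Set.mem_ofPred_eq, Set.mem_ofPred_eq, mem_Zt]
    constructor
    · rintro ⟨a, b, c, d⟩
      exact ⟨⟨b, c, d ▸ hxr.1, d ▸ hxr.2, a⟩, d⟩
    · rintro ⟨⟨a, b, c, d, e⟩, g⟩
      exact ⟨e, a, b, g⟩
  rw [e5, Set.ncard_coe_finset, e6, finsum_mem_coe_finset] at h1
  exact h1.symm

/-- the linear statistic as a sum over the indices -/
lemma SZ_ord {f : ℝ → ℝ} {R : ℝ} (hR : ∀ x, R ≤ |x| → f x = 0) (hR0 : 0 ≤ R) {a B t : ℝ}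
    (ha : 1 ≤ a) (ht : R < t) (hB : t + R ≤ B) :
    SZ f a t = ∑ n ∈ Ioc 0 (SG.NZ B), f (a * (SG.ord n - t)) := by
  rw [← sum_ord B fun x => f (a * (x - t))]
  have e1 : ∑ s ∈ Zt B, mz s * f (a * (s.im - t)) =
      ∑ᶠ s ∈ ((Zt B : Finset ℂ) : Set ℂ), mz s * f (a * (s.im - t)) :=
    (finsum_mem_coe_finset _ _).symm
  show SZ f a t = ∑ s ∈ Zt B, mz s * f (a * (s.im - t))
  rw [e1]
  unfold SZ
  apply finsum_mem_inter_support_eq
  ext s
  simp only [Set.mem_inter_iff, Set.mem_ofPred_eq, Function.mem_support, Finset.mem_coe, mem_Zt]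
  constructor
  · rintro ⟨⟨k1, k2, k3⟩, k4⟩
    refine ⟨?_, k4⟩
    have k5 : f (a * (s.im - t)) ≠ 0 := right_ne_zero_of_mul k4
    have k6 : |a * (s.im - t)| < R := by
      by_contra h
      push Not at h
      exact k5 (hR _ h)
    rw [abs_mul, abs_of_pos (by linarith : (0 : ℝ) < a)] at k6
    have k7 : |s.im - t| < R := by
      refine lt_of_le_of_lt ?_ k6
      exact le_mul_of_one_le_left (abs_nonneg _) ha
    have k8 := abs_lt.1 k7
    exact ⟨k2, k3, by linarith [k8.1], by linarith [k8.2], k1⟩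
  · rintro ⟨⟨k1, k2, -, -, k3⟩, k4⟩
    exact ⟨⟨k3, k1, k2⟩, k4⟩

variable {φ φ' : ℝ → ℝ} {B0 B2 R L : ℝ}

/-- the position statistic is the linear statistic -/
lemma PP_eq (h : Tst φ φ' B0 B2 R) (hL : 0 < L) {T t : ℝ} (hT : 1 < T) (ha : 1 ≤ sc T / L)
    (hTR : 2 * R < T) (ht : t ∈ Set.Icc (T / 2) T) (hg : Good R L T t) :
    PP φ R L T t = SZ φ (sc T / L) (t + K0 R L / sc T) - L * ∫ x, φ x := by
  have hs : 0 < sc T := by
    unfold sc
    have := Real.log_pos hT
    have := Real.pi_pos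
    positivity
  have hR1 := h.R1
  unfold PP
  congr 1
  set k := K0 R L with hk
  set τ := t + k / sc T with hτ
  have hkT : 0 ≤ (k : ℝ) / sc T := by positivity
  rw [SZ_ord (B := τ + R) h.supp (by linarith) ha (by linarith [ht.1]) le_rfl]
  set NB := SG.NZ (τ + R) with hNB
  have hNt : SG.NZ t ≤ NB := SG.NZ_mono (by linarith)
  -- the terms up to `t` vanish
  have e1 : ∑ n ∈ Ioc 0 NB, φ (sc T / L * (SG.ord n - τ)) =
      ∑ n ∈ Ioc (SG.NZ t) NB, φ (sc T / L * (SG.ord n - τ)) := by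
    symm
    refine Finset.sum_subset (Finset.Ioc_subset_Ioc_left (Nat.zero_le _)) fun n hn hn2 => ?_
    rw [Finset.mem_Ioc] at hn hn2
    have h1 : n ≤ SG.NZ t := by omega
    have h2 := (SG.ord_le_iff hn.1 t).2 h1
    refine h.supp _ ?_
    have h3 : SG.ord n - τ ≤ -(k / sc T) := by rw [hτ]; linarith
    have h4 : sc T / L * (SG.ord n - τ) ≤ -(k / L) := by
      calc sc T / L * (SG.ord n - τ) ≤ sc T / L * (-(k / sc T)) :=
            mul_le_mul_of_nonneg_left h3 (by positivity)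
        _ = -(k / L) := by field_simp
    have h5 : R ≤ k / L := by
      rw [le_div_iff₀ hL]
      have := K0_ge (R := R) (L := L)
      rw [← hk] at this
      linarith
    rw [abs_of_nonpos (by linarith)]
    linarith
  have e2 : Ioc (SG.NZ t) NB = (Icc 1 (NB - SG.NZ t)).map (addLeftEmbedding (SG.NZ t)) := by
    rw [Finset.map_add_left_Icc]
    ext x
    simp only [Finset.mem_Ioc, Finset.mem_Icc]
    omega
  rw [e1, e2, Finset.sum_map]
  simp only [addLeftEmbedding_apply]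
  have e3 : ∀ i : ℕ, sc T / L * (SG.ord (SG.NZ t + i) - τ) = (Z SG.NZ SG.ord (sc T) t i - k) / L := by
    intro i
    rw [hτ]
    unfold Z
    field_simp
    ring
  have e4 : ∀ i : ℕ, φ (sc T / L * (SG.ord (SG.NZ t + i) - τ)) =
      ww φ R L (Z SG.NZ SG.ord (sc T) t i) := by
    intro i
    rw [e3]
    rfl
  simp only [e4]
  -- both sums agree with the sum over the union
  have hA : ∑ i ∈ Icc 1 (4 * k), ww φ R L (Z SG.NZ SG.ord (sc T) t i) =
      ∑ i ∈ Icc 1 (max (4 * k) (NB - SG.NZ t)), ww φ R L (Z SG.NZ SG.ord (sc T) t i) := by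
    refine Finset.sum_subset (Finset.Icc_subset_Icc_right (le_max_left _ _)) fun i hi hi2 => ?_
    rw [Finset.mem_Icc] at hi hi2
    have h1 : 4 * k + 1 ≤ i := by omega
    have h2 := Z_mono (t := t) cnt_NZ hs (by omega : 1 ≤ 4 * k + 1) h1
    have h3 := (abs_le.1 (hg (4 * k + 1) (Finset.mem_Icc.2 ⟨by omega, le_rfl⟩))).1
    refine ww_high h hL ?_
    rw [← hk] at h3 ⊢
    push_cast at h3 ⊢
    have : (0 : ℝ) ≤ k := Nat.cast_nonneg _
    linarith
  have hB : ∑ i ∈ Icc 1 (NB - SG.NZ t), ww φ R L (Z SG.NZ SG.ord (sc T) t i) =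
      ∑ i ∈ Icc 1 (max (4 * k) (NB - SG.NZ t)), ww φ R L (Z SG.NZ SG.ord (sc T) t i) := by
    refine Finset.sum_subset (Finset.Icc_subset_Icc_right (le_max_right _ _)) fun i hi hi2 => ?_
    rw [Finset.mem_Icc] at hi hi2
    have h1 : NB < SG.NZ t + i := by omega
    have h2 : τ + R < SG.ord (SG.NZ t + i) := by
      by_contra hc
      push Not at hc
      have := (SG.ord_le_iff (by omega) _).1 hc
      omega
    rw [← e4]
    refine h.supp _ ?_
    have h3 : R ≤ sc T / L * (SG.ord (SG.NZ t + i) - τ) := by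
      calc R = 1 * R := (one_mul _).symm
        _ ≤ sc T / L * (SG.ord (SG.NZ t + i) - τ) :=
          mul_le_mul ha (by linarith) (by linarith) (by positivity)
    exact h3.trans (le_abs_self _)
  rw [hA, hB]

/-- the main theorem for fixed large `L` -/
theorem stat_fix (hf : CC (fc φ)) (ε : ℝ) (hε : 0 < ε) : ∃ L0 : ℝ, 1 ≤ L0 ∧ ∀ L : ℝ, L0 ≤ L →
    ∀ᶠ T : ℝ in atTop, ‖((2 / T : ℝ) : ℂ) * (∫ t in (T / 2)..T,
      cexp (I * ((SZ φ (sc T / L) t - L * ∫ x, φ x : ℝ) : ℂ))) - cexp ((-vr (fc φ) / 2 : ℝ) : ℂ)‖ ≤ ε := by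
  by_contra hcon
  push Not at hcon
  have hch : ∀ n : ℕ, ∃ L T : ℝ, (n : ℝ) + 1 ≤ L ∧ Real.exp (((n : ℝ) + 1) * L) ≤ T ∧
      ε < ‖((2 / T : ℝ) : ℂ) * (∫ t in (T / 2)..T,
        cexp (I * ((SZ φ (sc T / L) t - L * ∫ x, φ x : ℝ) : ℂ))) -
          cexp ((-vr (fc φ) / 2 : ℝ) : ℂ)‖ := by
    intro n
    obtain ⟨L, hL, h1⟩ := hcon ((n : ℝ) + 1) (by linarith [(Nat.cast_nonneg n : (0 : ℝ) ≤ n)])
    have h2 := h1.and_eventually (eventually_ge_atTop (Real.exp (((n : ℝ) + 1) * L)))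
    obtain ⟨T, h3, h4⟩ := h2.exists
    exact ⟨L, T, hL, h4, h3⟩
  choose L T hL hT hbad using hch
  have hn0 : ∀ n : ℕ, (0 : ℝ) ≤ n := fun n => Nat.cast_nonneg n
  have hL1 : ∀ n, 1 ≤ L n := fun n => by linarith [hL n, hn0 n]
  have hlog : ∀ n : ℕ, ((n : ℝ) + 1) * L n ≤ Real.log (T n) := by
    intro n
    rw [Real.le_log_iff_exp_le ((Real.exp_pos _).trans_le (hT n))]
    exact hT n
  have hTpos : ∀ n, 0 < T n := fun n => (Real.exp_pos _).trans_le (hT n)
  have hLtop : Tendsto L atTop atTop := by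
    refine tendsto_atTop_mono (fun n => hL n) ?_
    exact tendsto_atTop_add_const_right _ _ tendsto_natCast_atTop_atTop
  have hlogtop : Tendsto (fun n => Real.log (T n)) atTop atTop := by
    refine tendsto_atTop_mono (fun n => ?_) hLtop
    have := hlog n
    nlinarith [hL1 n, hn0 n]
  have hTtop : Tendsto T atTop atTop := by
    have : Tendsto (fun n => Real.exp (Real.log (T n))) atTop atTop := Real.tendsto_exp_atTop.comp hlogtop
    exact this.congr fun n => Real.exp_log (hTpos n)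
  have hratio : Tendsto (fun n => L n / Real.log (T n)) atTop (𝓝 0) := by
    have h1 : Tendsto (fun n : ℕ => 1 / ((n : ℝ) + 1)) atTop (𝓝 0) := tendsto_one_div_add_atTop_nhds_zero_nat
    refine squeeze_zero (fun n => ?_) (fun n => ?_) h1
    · exact div_nonneg (by linarith [hL1 n]) (by nlinarith [hlog n, hL1 n, hn0 n])
    · have h2 : 0 < Real.log (T n) := by nlinarith [hlog n, hL1 n, hn0 n]
      rw [div_le_div_iff₀ h2 (by linarith [hn0 n])]
      linarith [hlog n]
  -- the modified sequences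
  set T' : ℕ → ℝ := fun n => T n / 2 with hT'
  set L' : ℕ → ℝ := fun n => L n * (Real.log (T n / 2) / Real.log (T n)) with hL'
  have hT'top : Tendsto T' atTop atTop := half_lim.comp hTtop
  have hlh := log_half.comp hTtop
  have hL'top : Tendsto L' atTop atTop := hLtop.atTop_mul_pos (by norm_num : (0 : ℝ) < 1) hlh
  have hlogT' : Tendsto (fun n => Real.log (T' n)) atTop atTop := Real.tendsto_log_atTop.comp hT'top
  have hratio' : Tendsto (fun n => L' n / Real.log (T' n)) atTop (𝓝 0) := by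
    refine hratio.congr' ?_
    filter_upwards [hlogT'.eventually_gt_atTop 0, hlogtop.eventually_gt_atTop 0] with n h1 h2
    rw [hL', hT'] at *
    simp only at h1 ⊢
    field_simp
  have hmain := Pool.Agent.Q278.MC.main_seq hf hT'top hL'top hratio'
  -- the phase
  have hphase : Tendsto (fun n => cexp (I * (((L' n - L n) * ∫ x, φ x : ℝ) : ℂ))) atTop (𝓝 1) := by
    have h1 : Tendsto (fun n => L' n - L n) atTop (𝓝 0) := by
      have h2 := hratio.const_mul (-Real.log 2)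
      rw [mul_zero] at h2
      refine h2.congr' ?_
      filter_upwards [hlogtop.eventually_gt_atTop 0] with n h3
      rw [hL']
      simp only
      rw [Real.log_div (hTpos n).ne' (by norm_num)]
      field_simp
      ring
    have h4 := (h1.mul_const (∫ x, φ x))
    rw [zero_mul] at h4
    have h5 : Continuous fun x : ℝ => cexp (I * (x : ℂ)) := by fun_prop
    have h6 := (h5.tendsto 0).comp h4
    rw [Complex.ofReal_zero, mul_zero, Complex.exp_zero] at h6
    exact h6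
  have hprod := hphase.mul hmain
  rw [one_mul] at hprod
  have hfin : Tendsto (fun n => ((2 / T n : ℝ) : ℂ) * (∫ t in (T n / 2)..T n,
      cexp (I * ((SZ φ (sc (T n) / L n) t - L n * ∫ x, φ x : ℝ) : ℂ)))) atTop
      (𝓝 (cexp ((-vr (fc φ) / 2 : ℝ) : ℂ))) := by
    refine hprod.congr' ?_
    filter_upwards [hlogT'.eventually_gt_atTop 0, hlogtop.eventually_gt_atTop 0] with n h1 h2
    have hLn : 0 < L n := by linarith [hL1 n]
    have ha : aP (L' n) (T' n) = sc (T n) / L n := by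
      unfold aP sc
      rw [hL', hT'] at *
      simp only at h1 ⊢
      have := Real.pi_pos
      field_simp
    have e1 : ((1 / T' n : ℝ) : ℂ) = ((2 / T n : ℝ) : ℂ) := by
      rw [hT']
      simp only
      congr 1
      field_simp
    rw [e1, ← mul_assoc, mul_comm (cexp _), mul_assoc, ← intervalIntegral.integral_const_mul]
    have e2 : 2 * T' n = T n := by rw [hT']; ring
    rw [e2]
    congr 1
    refine intervalIntegral.integral_congr fun t _ => ?_
    show cexp (I * (((L' n - L n) * ∫ x, φ x : ℝ) : ℂ)) * cexp (I * ((st φ (L' n) (T' n) t : ℝ) : ℂ)) =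
      cexp (I * ((SZ φ (sc (T n) / L n) t - L n * ∫ x, φ x : ℝ) : ℂ))
    rw [← Complex.exp_add]
    congr 1
    unfold st
    rw [ha]
    push_cast
    ring
  obtain ⟨n, hn⟩ := (Metric.tendsto_nhds.1 hfin ε hε).exists
  rw [dist_eq_norm] at hn
  exact absurd hn (not_lt.2 (hbad n).le)

end Pool.Agent.Q278.GF
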