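import Pool.Agent.Q278.GF.G

/-!
# The central limit theorem for the gaps, characteristic functions (helper278)
-/

set_option autoImplicit false

namespace Pool.Agent.Q278.GF

open Finset MeasureTheory Filter Topology Complex
open scoped ComplexConjugate
open Pool.Agent.Q278.MC (CC fc SZ vr)

variable {φ φ' : ℝ → ℝ} {B0 B2 R L : ℝ}

lemma UU_nonneg (hB0 : 0 ≤ B0) (hB2 : 0 ≤ B2) {T t : ℝ} (hT : 1 < T) : 0 ≤ UU B0 B2 R L T t := by
  have h2 : 0 ≤ 2 * ∑ i ∈ Icc 1 (4 * K0 R L + 1), Qf SG.NZ (sc T) t i (2 * K0 R L) :=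
    mul_nonneg (by norm_num) (Finset.sum_nonneg fun i _ => Qf_nonneg i _)
  have h4 : 0 ≤ B2 / L ^ 2 * ∑ i ∈ Icc 1 (4 * K0 R L), (5 + 2 * ∑ s ∈ Ico 1 (2 * K0 R L),
      (2 * (s : ℝ) + 1) * Qf SG.NZ (sc T) t i s) := by
    refine mul_nonneg (by positivity) (Finset.sum_nonneg fun i _ => ?_)
    have := inner_nonneg (R := R) (L := L) T t i
    linarith
  have h5 := er_nonneg (R := R) (L := L) hB0 hT
  unfold UU
  linarith

/-- the centred statistic with the scale of `T` -/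
noncomputable def Sh (φ : ℝ → ℝ) (L T t : ℝ) : ℝ := SZ φ (sc T / L) t - L * ∫ x, φ x

lemma Sh_cont (h : Tst φ φ' B0 B2 R) {T c : ℝ} (ha : 1 ≤ sc T / L)
    (hTR : 2 * R < T) : ContinuousOn (Sh φ L T) (Set.Icc (T / 2) (T + c)) := by
  have hR1 := h.R1
  have h1 : ContinuousOn (fun t => ∑ n ∈ Ioc 0 (SG.NZ (T + c + R)), φ (sc T / L * (SG.ord n - t)) -
      L * ∫ x, φ x) (Set.Icc (T / 2) (T + c)) := by
    refine (Continuous.sub (continuous_finsetSum _ fun n _ => h.cont.comp (by fun_prop))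
      continuous_const).continuousOn
  refine h1.congr fun t ht => ?_
  unfold Sh
  rw [SZ_ord (B := T + c + R) h.supp (by linarith) ha (by linarith [ht.1]) (by linarith [ht.2])]

theorem U3 (h : Tst φ φ' B0 B2 R) (hL : 0 < L) {T t : ℝ} (hT : 1 < T)
    (hT2 : (6 * K0 R L + 1 : ℝ) / sc T ≤ T) (ha : 1 ≤ sc T / L)
    (hTR : 2 * R < T) (ht : t ∈ Set.Icc (T / 2) T) :
    ‖cexp (I * ((FF φ R L (SG.NZ t) : ℝ) : ℂ)) -
      cexp (I * ((-Sh φ L T (t + K0 R L / sc T) : ℝ) : ℂ))‖ ≤ 2 * UU B0 B2 R L T t := by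
  have hB0 : 0 ≤ B0 := (abs_nonneg _).trans (h.b0 0)
  have hB2 : 0 ≤ B2 := h.wt.nonneg
  have h1 := U1 h hL hT hT2 ht
  by_cases hg : Good R L T t
  · have e := PP_eq h hL hT ha hTR ht hg
    have e2 : PP φ R L T t = Sh φ L T (t + K0 R L / sc T) := e
    rw [e2] at h1
    have := UU_nonneg (R := R) (L := L) (t := t) hB0 hB2 hT
    linarith
  · have h2 := UU_bad (R := R) (L := L) hB0 hB2 hT hg
    refine (cexp_two _ _).trans ?_
    linarith

lemma sc_top : Tendsto sc atTop atTop := by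
  unfold sc
  exact Real.tendsto_log_atTop.atTop_div_const (by have := Real.pi_pos; positivity)

theorem t_lim (h : Tst φ φ' B0 B2 R) (hf : CC (fc φ)) (ε : ℝ) (hε : 0 < ε) :
    ∃ L0 : ℝ, 1 ≤ L0 ∧ ∀ L : ℝ, L0 ≤ L → ∀ᶠ T : ℝ in atTop,
      ‖((2 / T : ℝ) : ℂ) * (∫ t in (T / 2)..T, cexp (I * ((FF φ R L (SG.NZ t) : ℝ) : ℂ))) -
        cexp ((-vr (fc φ) / 2 : ℝ) : ℂ)‖ ≤ ε := by
  obtain ⟨L1, hL1, h1⟩ := U_small h (ε / 6) (by positivity)
  obtain ⟨L2, hL2, h2⟩ := stat_fix hf (ε / 3) (by positivity)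
  refine ⟨max L1 L2, hL1.trans (le_max_left _ _), fun L hL => ?_⟩
  have hLa : L1 ≤ L := (le_max_left _ _).trans hL
  have hLb : L2 ≤ L := (le_max_right _ _).trans hL
  have hL0 : 0 < L := by linarith
  have hs2 : Tendsto (fun T => sc T / L) atTop atTop := sc_top.atTop_div_const hL0
  have hc : Tendsto (fun T => (6 * K0 R L + 1 : ℝ) / sc T) atTop (𝓝 0) :=
    tendsto_const_nhds.div_atTop sc_top
  have hc2 : Tendsto (fun T : ℝ => (K0 R L : ℝ) / sc T * (4 / T)) atTop (𝓝 0) := by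
    have a1 : Tendsto (fun T : ℝ => (K0 R L : ℝ) / sc T) atTop (𝓝 0) :=
      tendsto_const_nhds.div_atTop sc_top
    have a2 : Tendsto (fun T : ℝ => 4 / T) atTop (𝓝 0) := tendsto_const_nhds.div_atTop tendsto_id
    simpa using a1.mul a2
  filter_upwards [h1 L hLa, h2 L hLb, hs2.eventually_ge_atTop 1, eventually_gt_atTop (2 * R),
    hc.eventually_le_const (u := 1) (by norm_num), eventually_gt_atTop 1,
    hc2.eventually_le_const (u := ε / 3) (by positivity)] with T q1 q2 ha hTR q3 hT q4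
  have hT0 : 0 < T := by linarith
  have hs : 0 < sc T := by
    unfold sc
    have := Real.log_pos hT
    have := Real.pi_pos
    positivity
  have hB0 : 0 ≤ B0 := (abs_nonneg _).trans (h.b0 0)
  have hB2 : 0 ≤ B2 := h.wt.nonneg
  set c : ℝ := K0 R L / sc T with hcd
  have hc0 : 0 ≤ c := by positivity
  set G := cexp ((-vr (fc φ) / 2 : ℝ) : ℂ) with hG
  have hcont := Sh_cont (c := c) (L := L) h ha hTR
  have hce : ContinuousOn (fun t => cexp (I * ((-Sh φ L T t : ℝ) : ℂ))) (Set.Icc (T / 2) (T + c)) :=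
    Complex.continuous_exp.comp_continuousOn (continuousOn_const.mul
      (Complex.continuous_ofReal.comp_continuousOn hcont.neg))
  have hii : ∀ a b : ℝ, T / 2 ≤ a → a ≤ b → b ≤ T + c →
      IntervalIntegrable (fun t => cexp (I * ((-Sh φ L T t : ℝ) : ℂ))) volume a b := by
    intro a b h3 h4 h5
    refine (hce.mono ?_).intervalIntegrable
    rw [Set.uIcc_of_le h4]
    exact Set.Icc_subset_Icc h3 h5
  have hn1 : ∀ x : ℝ, ‖cexp (I * (x : ℂ))‖ = 1 := fun x => by
    rw [mul_comm, Complex.norm_exp_ofReal_mul_I]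
  -- the first comparison
  have i1 : IntervalIntegrable (fun t => cexp (I * ((FF φ R L (SG.NZ t) : ℝ) : ℂ))) volume (T / 2) T :=
    g_int (g := fun n => cexp (I * ((FF φ R L n : ℝ) : ℂ))) (fun n => (hn1 _).le) hT0
  have i2 : IntervalIntegrable (fun t => cexp (I * ((-Sh φ L T (t + c) : ℝ) : ℂ))) volume (T / 2) T := by
    have h3 : ContinuousOn (fun t => cexp (I * ((-Sh φ L T (t + c) : ℝ) : ℂ))) (Set.Icc (T / 2) T) := by
      refine hce.comp (f := fun t => t + c) (by fun_prop) fun t ht => ?_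
      exact ⟨by linarith [ht.1], by linarith [ht.2]⟩
    refine h3.intervalIntegrable_of_Icc (by linarith)
  have j1 : ‖(∫ t in (T / 2)..T, cexp (I * ((FF φ R L (SG.NZ t) : ℝ) : ℂ))) -
      ∫ t in (T / 2)..T, cexp (I * ((-Sh φ L T (t + c) : ℝ) : ℂ))‖ ≤ T / 2 * (2 * (ε / 6)) := by
    rw [← intervalIntegral.integral_sub i1 i2]
    have hb := (bd_UU B0 B2 R L T).cmul 2
    refine (intervalIntegral.norm_integral_le_of_norm_le (by linarith)
      (Eventually.of_forall fun t ht => U3 h hL0 hT (by linarith) ha hTR ⟨ht.1.le, ht.2⟩)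
      (hb.int hT0)).trans ?_
    have e1 : ∫ t in (T / 2)..T, 2 * UU B0 B2 R L T t = T / 2 * (2 * av T (UU B0 B2 R L T)) := by
      unfold av
      rw [intervalIntegral.integral_const_mul]
      field_simp
    rw [e1]
    refine mul_le_mul_of_nonneg_left ?_ (by positivity)
    linarith
  -- the shift of the interval
  have j2 : ‖(∫ t in (T / 2)..T, cexp (I * ((-Sh φ L T (t + c) : ℝ) : ℂ))) -
      ∫ t in (T / 2)..T, cexp (I * ((-Sh φ L T t : ℝ) : ℂ))‖ ≤ 2 * c := by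
    rw [intervalIntegral.integral_comp_add_right (fun t => cexp (I * ((-Sh φ L T t : ℝ) : ℂ))) c]
    have e2 : (∫ t in (T / 2 + c)..(T + c), cexp (I * ((-Sh φ L T t : ℝ) : ℂ))) -
        ∫ t in (T / 2)..T, cexp (I * ((-Sh φ L T t : ℝ) : ℂ)) =
        (∫ t in T..(T + c), cexp (I * ((-Sh φ L T t : ℝ) : ℂ))) -
        ∫ t in (T / 2)..(T / 2 + c), cexp (I * ((-Sh φ L T t : ℝ) : ℂ)) := by
      have k1 := intervalIntegral.integral_add_adjacent_intervals
        (hii (T / 2) (T / 2 + c) le_rfl (by linarith) (by linarith))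
        (hii (T / 2 + c) (T + c) (by linarith) (by linarith) le_rfl)
      have k2 := intervalIntegral.integral_add_adjacent_intervals
        (hii (T / 2) T le_rfl (by linarith) (by linarith))
        (hii T (T + c) (by linarith) (by linarith) le_rfl)
      rw [sub_eq_sub_iff_add_eq_add, add_comm, k1, ← k2]
      ring
    rw [e2]
    refine (norm_sub_le _ _).trans ?_
    have k3 := intervalIntegral.norm_integral_le_of_norm_le_const (a := T) (b := T + c) (C := 1)
      (f := fun t => cexp (I * ((-Sh φ L T t : ℝ) : ℂ))) (fun t _ => (hn1 _).le)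
    have k4 := intervalIntegral.norm_integral_le_of_norm_le_const (a := T / 2) (b := T / 2 + c) (C := 1)
      (f := fun t => cexp (I * ((-Sh φ L T t : ℝ) : ℂ))) (fun t _ => (hn1 _).le)
    rw [add_sub_cancel_left, abs_of_nonneg hc0, one_mul] at k3 k4
    linarith
  -- the conjugate
  have j3 : ‖((2 / T : ℝ) : ℂ) * (∫ t in (T / 2)..T, cexp (I * ((-Sh φ L T t : ℝ) : ℂ))) - G‖ ≤ ε / 3 := by
    have e3 : ((2 / T : ℝ) : ℂ) * (∫ t in (T / 2)..T, cexp (I * ((-Sh φ L T t : ℝ) : ℂ))) - G =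
        conj (((2 / T : ℝ) : ℂ) * (∫ t in (T / 2)..T,
          cexp (I * ((SZ φ (sc T / L) t - L * ∫ x, φ x : ℝ) : ℂ))) - G) := by
      rw [map_sub, map_mul, Complex.conj_ofReal]
      congr 1
      · congr 1
        rw [intervalIntegral.integral_of_le (by linarith), intervalIntegral.integral_of_le (by linarith),
          ← integral_conj]
        refine integral_congr_ae (Eventually.of_forall fun t => ?_)
        show cexp (I * ((-Sh φ L T t : ℝ) : ℂ)) = conj (cexp (I * ((Sh φ L T t : ℝ) : ℂ)))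
        rw [← Complex.exp_conj, map_mul, Complex.conj_I, Complex.conj_ofReal]
        congr 1
        push_cast
        ring
      · rw [hG, ← Complex.exp_conj, Complex.conj_ofReal]
    rw [e3, RCLike.norm_conj]
    exact q2
  -- conclusion
  set X1 := ∫ t in (T / 2)..T, cexp (I * ((FF φ R L (SG.NZ t) : ℝ) : ℂ))
  set X2 := ∫ t in (T / 2)..T, cexp (I * ((-Sh φ L T (t + c) : ℝ) : ℂ))
  set X3 := ∫ t in (T / 2)..T, cexp (I * ((-Sh φ L T t : ℝ) : ℂ))
  have e4 : ((2 / T : ℝ) : ℂ) * X1 - G = ((2 / T : ℝ) : ℂ) * (X1 - X2) +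
      (((2 / T : ℝ) : ℂ) * (X2 - X3) + (((2 / T : ℝ) : ℂ) * X3 - G)) := by ring
  rw [e4]
  have n1 : ‖((2 / T : ℝ) : ℂ) * (X1 - X2)‖ ≤ ε / 3 := by
    rw [norm_mul, Complex.norm_real, Real.norm_of_nonneg (by positivity)]
    refine (mul_le_mul_of_nonneg_left j1 (by positivity)).trans (le_of_eq ?_)
    field_simp
    ring
  have n2 : ‖((2 / T : ℝ) : ℂ) * (X2 - X3)‖ ≤ ε / 3 := by
    rw [norm_mul, Complex.norm_real, Real.norm_of_nonneg (by positivity)]
    refine (mul_le_mul_of_nonneg_left j2 (by positivity)).trans ?_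
    have : 2 / T * (2 * c) = c * (4 / T) := by ring
    rw [this]
    exact q4
  have n3 := norm_add_le (((2 / T : ℝ) : ℂ) * (X1 - X2))
    (((2 / T : ℝ) : ℂ) * (X2 - X3) + (((2 / T : ℝ) : ℂ) * X3 - G))
  have n4 := norm_add_le (((2 / T : ℝ) : ℂ) * (X2 - X3)) (((2 / T : ℝ) : ℂ) * X3 - G)
  linarith

lemma logK_lim (C : ℝ) : Tendsto (fun K : ℕ => 3 * C * (1 + Real.log K) / K + 1 / Real.sqrt K)
    atTop (𝓝 0) := by
  have a0 : Tendsto (fun x : ℝ => (1 : ℝ) / x) atTop (𝓝 0) := tendsto_const_nhds.div_atTop tendsto_id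
  have a1 : Tendsto (fun x : ℝ => Real.log x ^ 1 / x) atTop (𝓝 0) :=
    (Real.isLittleO_pow_log_id_atTop (n := 1)).tendsto_div_nhds_zero
  have a2 : Tendsto (fun x : ℝ => 1 / Real.sqrt x) atTop (𝓝 0) :=
    tendsto_const_nhds.div_atTop Real.tendsto_sqrt_atTop
  have a3 := ((a0.add a1).const_mul (3 * C)).add a2
  simp only [add_zero, mul_zero] at a3
  refine (a3.comp tendsto_natCast_atTop_atTop).congr fun K => ?_
  simp only [Function.comp_apply]
  ring

/-- **the central limit theorem for the gap statistic** -/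
theorem gap_clt (h : Tst φ φ' B0 B2 R) (hf : CC (fc φ)) (ε : ℝ) (hε : 0 < ε) :
    ∃ L0 : ℝ, 1 ≤ L0 ∧ ∀ L : ℝ, L0 ≤ L → ∀ᶠ N : ℕ in atTop,
      ‖∑ n ∈ Ioc 0 N, cexp (I * ((FF φ R L n : ℝ) : ℂ)) - (N : ℝ) * cexp ((-vr (fc φ) / 2 : ℝ) : ℂ)‖ ≤
        ε * N := by
  obtain ⟨C, hC, hblock⟩ := block
  obtain ⟨K, hK, hK1⟩ := (((logK_lim C).eventually_le_const (u := ε / 16) (by positivity)).and
    (eventually_ge_atTop 1)).exists
  have hK' : (1 : ℝ) ≤ K := by exact_mod_cast hK1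
  obtain ⟨L1, hL1, h1⟩ := U_small h (ε / (16 * (12 * K))) (by positivity)
  obtain ⟨L2, hL2, h2⟩ := t_lim h hf (ε / 16) (by positivity)
  refine ⟨max (max L1 L2) K, hL1.trans ((le_max_left _ _).trans (le_max_left _ _)), fun L hL => ?_⟩
  have hLa : L1 ≤ L := ((le_max_left _ _).trans (le_max_left _ _)).trans hL
  have hLb : L2 ≤ L := ((le_max_right _ _).trans (le_max_left _ _)).trans hL
  have hLK : (K : ℝ) ≤ L := (le_max_right _ _).trans hL
  have hL0 : 0 < L := by linarith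
  have hB0 : 0 ≤ B0 := (abs_nonneg _).trans (h.b0 0)
  have hB2 : 0 ≤ B2 := h.wt.nonneg
  have hn1 : ∀ x : ℝ, ‖cexp (I * (x : ℂ))‖ = 1 := fun x => by
    rw [mul_comm, Complex.norm_exp_ofReal_mul_I]
  have hG : ‖cexp ((-vr (fc φ) / 2 : ℝ) : ℂ)‖ ≤ 1 := by
    rw [← Complex.ofReal_exp, Complex.norm_real, Real.norm_of_nonneg (Real.exp_pos _).le]
    apply Real.exp_le_one_iff.2
    have : 0 ≤ vr (fc φ) := integral_nonneg fun ξ => by positivity
    linarith
  have hKK : K ≤ K0 R L := by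
    have h3 : (K : ℝ) ≤ K0 R L := by
      have := K0_ge (R := R) (L := L)
      have := h.R1
      nlinarith
    exact_mod_cast h3
  have hc : Tendsto (fun T => (6 * K0 R L + 1 : ℝ) / sc T) atTop (𝓝 0) :=
    tendsto_const_nhds.div_atTop sc_top
  have hb := hblock (fun n => cexp (I * ((FF φ R L n : ℝ) : ℂ))) (cexp ((-vr (fc φ) / 2 : ℝ) : ℂ)) K
    (UU B0 B2 R L) (ε / (16 * (12 * K))) (ε / 16) (ε / 16) (fun n => (hn1 _).le) hG hK1 (by positivity)
    (bd_UU B0 B2 R L) (by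
      filter_upwards [eventually_gt_atTop 1, hc.eventually_le_const (u := 1) (by norm_num)] with T hT q
      intro t ht
      refine ⟨UU_nonneg hB0 hB2 hT, fun j hj => ?_⟩
      rw [Finset.mem_Icc] at hj
      exact U2 h hL0 hT (by linarith) ht hj.1 (by omega)) (h1 L hLa) (h2 L hLb)
  have hall := all_N (g := fun n => cexp (I * ((FF φ R L n : ℝ) : ℂ))) (ε := ε / 2)
    (fun n => (hn1 _).le) hG (by positivity) (by
    filter_upwards [hb, eventually_ge_atTop 0] with T hT hT0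
    refine hT.trans ?_
    have hM : 0 ≤ (SG.NZ T : ℝ) - SG.NZ (T / 2) := by
      have : (SG.NZ (T / 2) : ℝ) ≤ SG.NZ T := by exact_mod_cast SG.NZ_mono (by linarith)
      linarith
    refine mul_le_mul_of_nonneg_right ?_ hM
    have e1 : 12 * (K : ℝ) * (ε / (16 * (12 * K))) = ε / 16 := by field_simp
    rw [e1]
    linarith)
  refine hall.mono fun N hN => ?_
  refine hN.trans (le_of_eq ?_)
  ring

end Pool.Agent.Q278.GF
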