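import Pool.Agent.Q278.GF.H
import Pool.Agent.Q172.ZetaLim.Main
import Pool.Agent.Q276.LR.E1

/-!
# The limit processes of the gaps: characteristic functions (helper278)
-/

set_option autoImplicit false

namespace Pool.Agent.Q278.GF

open Finset MeasureTheory Filter Topology Complex
open scoped ContDiff
open Pool.Agent.Q278.MC (CC fc vr lc lc_CC lc_fc)
open Q172.ZetaLim (seen IsLim law tight tight_compact isLim_iff tendsto_law_iff)

/-- the linear statistic of a two-sided sequence of gaps -/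
noncomputable def Fn (φ : ℝ → ℝ) (L : ℝ) (q : ℤ → ℝ) : ℝ := ∑ᶠ k : ℤ, φ (k / L) * (q k - 1)

variable {φ φ' : ℝ → ℝ} {B0 B2 R L : ℝ}

lemma Fn_eq_sum (hs : ∀ x, R ≤ |x| → φ x = 0) (hL : 0 < L) {K : ℕ} (hK : R * L ≤ K) (q : ℤ → ℝ) :
    Fn φ L q = ∑ k ∈ Icc (-(K : ℤ)) K, φ (k / L) * (q k - 1) := by
  unfold Fn
  apply finsum_eq_sum_of_support_subset
  intro k hk
  rw [Function.mem_support] at hk
  rw [Finset.coe_Icc, Set.mem_Icc]
  have h1 : φ (k / L) ≠ 0 := left_ne_zero_of_mul hk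
  have h2 : |(k : ℝ) / L| < R := by
    by_contra hc
    push Not at hc
    exact h1 (hs _ hc)
  rw [abs_div, abs_of_pos hL, div_lt_iff₀ hL] at h2
  have h3 : |(k : ℝ)| < K := lt_of_lt_of_le h2 hK
  rw [abs_lt] at h3
  constructor
  · have : (-(K : ℤ) : ℝ) < (k : ℝ) := by push_cast; exact h3.1
    exact_mod_cast this.le
  · have : (k : ℝ) < ((K : ℤ) : ℝ) := by push_cast; exact h3.2
    exact_mod_cast this.le

lemma Fn_cont (hs : ∀ x, R ≤ |x| → φ x = 0) (hL : 0 < L) : Continuous (Fn φ L) := by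
  have h1 : R * L ≤ (⌈R * L⌉₊ : ℝ) := Nat.le_ceil _
  have e : Fn φ L = fun q => ∑ k ∈ Icc (-(⌈R * L⌉₊ : ℤ)) (⌈R * L⌉₊ : ℤ), φ (k / L) * (q k - 1) := by
    funext q
    exact Fn_eq_sum hs hL h1 q
  rw [e]
  refine continuous_finsetSum _ fun k _ => ?_
  exact continuous_const.mul ((continuous_apply k).sub continuous_const)

lemma Fn_seen (h : Tst φ φ' B0 B2 R) (hL : 0 < L) (n : ℕ) :
    Fn φ L (seen dl (n + K0 R L)) = FF φ R L n := by
  have hk : R * L ≤ K0 R L := by linarith [K0_ge (R := R) (L := L)]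
  rw [Fn_eq_sum h.supp hL hk]
  set k0 := K0 R L with hk0
  unfold FF
  rw [← hk0]
  -- reindex `Icc 1 (4 k0)` to `Icc (1 - k0) (3 k0)`
  have e1 : ∑ i ∈ Icc 1 (4 * k0), ww φ R L i * (dl (n + i) - 1) =
      ∑ k ∈ Icc (1 - (k0 : ℤ)) (3 * k0), φ (k / L) * (seen dl (n + k0) k - 1) := by
    refine Finset.sum_bij (fun i _ => (i : ℤ) - k0) ?_ ?_ ?_ ?_
    · intro i hi
      rw [Finset.mem_Icc] at hi ⊢
      omega
    · intro i _ j _ hij
      have : (i : ℤ) - k0 = (j : ℤ) - k0 := hij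
      omega
    · intro k hk
      rw [Finset.mem_Icc] at hk
      refine ⟨(k + k0).toNat, ?_, ?_⟩
      · rw [Finset.mem_Icc]
        omega
      · show ((k + k0).toNat : ℤ) - k0 = k
        omega
    · intro i hi
      rw [Finset.mem_Icc] at hi
      unfold ww
      rw [← hk0]
      have e2 : seen dl (n + k0) ((i : ℤ) - k0) = dl (n + i) := by
        unfold seen
        rw [if_pos (by push_cast; omega)]
        congr 1
        push_cast
        omega
      rw [e2]
      push_cast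
      rfl
  rw [e1]
  -- both sums are over the support
  have hz : ∀ k : ℤ, (k0 : ℤ) ≤ |k| → φ ((k : ℝ) / L) = 0 := by
    intro k hk
    refine h.supp _ ?_
    rw [abs_div, abs_of_pos hL, le_div_iff₀ hL]
    have h1 := K0_ge (R := R) (L := L)
    rw [← hk0] at h1
    have h2 : ((k0 : ℤ) : ℝ) ≤ ((|k| : ℤ) : ℝ) := by exact_mod_cast hk
    push_cast at h2
    linarith
  have hA : ∑ k ∈ Icc (-(k0 : ℤ)) k0, φ (k / L) * (seen dl (n + k0) k - 1) =
      ∑ k ∈ Icc (-(k0 : ℤ)) (3 * k0), φ (k / L) * (seen dl (n + k0) k - 1) := by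
    refine Finset.sum_subset (Finset.Icc_subset_Icc_right (by omega)) fun k hk hk2 => ?_
    rw [Finset.mem_Icc] at hk hk2
    rw [hz k (by rw [abs_of_nonneg (by omega)]; omega), zero_mul]
  have hB : ∑ k ∈ Icc (1 - (k0 : ℤ)) (3 * k0), φ (k / L) * (seen dl (n + k0) k - 1) =
      ∑ k ∈ Icc (-(k0 : ℤ)) (3 * k0), φ (k / L) * (seen dl (n + k0) k - 1) := by
    refine Finset.sum_subset (Finset.Icc_subset_Icc_left (by omega)) fun k hk hk2 => ?_
    rw [Finset.mem_Icc] at hk hk2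
    rw [hz k (by rw [abs_of_nonpos (by omega)]; omega), zero_mul]
  rw [hA, hB]

/-- smooth test functions satisfy the structure -/
lemma tst_of {φ : ℝ → ℝ} (h1 : ContDiff ℝ ∞ φ) (h2 : HasCompactSupport φ) :
    ∃ (φ' : ℝ → ℝ) (B0 B2 R : ℝ), Tst φ φ' B0 B2 R := by
  have hd : ContDiff ℝ ∞ (deriv φ) := by
    have := contDiff_infty_iff_deriv.1 h1
    exact this.2
  have hdd : ContDiff ℝ ∞ (deriv (deriv φ)) := (contDiff_infty_iff_deriv.1 hd).2
  obtain ⟨B0, hB0⟩ := h2.exists_bound_of_continuous h1.continuous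
  obtain ⟨B2, hB2⟩ := h2.deriv.deriv.exists_bound_of_continuous hdd.continuous
  obtain ⟨R, hR⟩ := h2.isCompact.isBounded.subset_closedBall (0 : ℝ)
  refine ⟨deriv φ, B0, B2, max R 0 + 1, h1.continuous, hB0, ?_, ?_, ?_⟩
  · intro x y
    -- Taylor with a bound for the second derivative
    have hB20 : 0 ≤ B2 := (norm_nonneg _).trans (hB2 0)
    have hlip : ∀ a b : ℝ, |deriv φ b - deriv φ a| ≤ B2 * |b - a| := by
      intro a b
      have := Convex.norm_image_sub_le_of_norm_deriv_le (f := deriv φ) (s := Set.univ) (C := B2)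
        (fun z _ => (hd.differentiable (by simp)).differentiableAt)
        (fun z _ => hB2 z) convex_univ (Set.mem_univ a) (Set.mem_univ b)
      simpa only [Real.norm_eq_abs] using this
    -- the function `z ↦ φ z - φ' x z`
    have h3 := Convex.norm_image_sub_le_of_norm_deriv_le (f := fun z => φ z - deriv φ x * z)
      (s := Set.uIcc x y) (C := B2 * |y - x|)
      (fun z _ => ((h1.differentiable (by simp)).differentiableAt).sub (by fun_prop))
      (fun z hz => by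
        have e : deriv (fun z => φ z - deriv φ x * z) z = deriv φ z - deriv φ x := by
          rw [deriv_fun_sub ((h1.differentiable (by simp)).differentiableAt) (by fun_prop)]
          congr 1
          rw [deriv_const_mul _ differentiableAt_fun_id, deriv_id'', mul_one]
        rw [e, Real.norm_eq_abs]
        refine (hlip x z).trans (mul_le_mul_of_nonneg_left ?_ hB20)
        rw [Set.mem_uIcc] at hz
        rcases hz with hz | hz
        · rw [abs_of_nonneg (by linarith), abs_of_nonneg (by linarith)]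
          linarith
        · rw [abs_of_nonpos (by linarith), abs_of_nonpos (by linarith)]
          linarith) (convex_uIcc x y) Set.left_mem_uIcc Set.right_mem_uIcc
    rw [Real.norm_eq_abs, Real.norm_eq_abs] at h3
    have e4 : φ y - φ x - deriv φ x * (y - x) = φ y - deriv φ x * y - (φ x - deriv φ x * x) := by ring
    rw [e4]
    refine h3.trans (le_of_eq ?_)
    rw [mul_assoc, ← abs_mul, ← pow_two, abs_of_nonneg (sq_nonneg _)]
  · intro x hx
    by_contra h
    have h3 : x ∈ tsupport φ := subset_tsupport _ (Function.mem_support.2 h)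
    have h4 := hR h3
    rw [Metric.mem_closedBall, dist_zero_right, Real.norm_eq_abs] at h4
    have := le_max_left R 0
    linarith
  · have := le_max_right R 0
    linarith

lemma cc_of {φ : ℝ → ℝ} (h1 : ContDiff ℝ ∞ φ) (h2 : HasCompactSupport φ) : CC (fc φ) := by
  constructor
  · exact Complex.ofRealCLM.contDiff.comp h1
  · exact h2.comp_left (g := fun x : ℝ => (x : ℂ)) Complex.ofReal_zero

/-- the characteristic function of the empirical law -/
theorem emp_char (h : Tst φ φ' B0 B2 R) (hf : CC (fc φ)) (ε : ℝ) (hε : 0 < ε) :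
    ∃ L0 : ℝ, 1 ≤ L0 ∧ ∀ L : ℝ, L0 ≤ L → ∀ᶠ N : ℕ in atTop,
      ‖∑ n ∈ Icc 1 N, cexp (I * ((Fn φ L (seen dl n) : ℝ) : ℂ)) -
        (N : ℝ) * cexp ((-vr (fc φ) / 2 : ℝ) : ℂ)‖ ≤ ε * N := by
  obtain ⟨L0, hL0, h1⟩ := gap_clt h hf (ε / 2) (by positivity)
  refine ⟨L0, hL0, fun L hL => ?_⟩
  have hLp : 0 < L := by linarith
  have h2 : ∀ᶠ N : ℕ in atTop, 2 * (K0 R L : ℝ) ≤ ε / 2 * N := by
    have : Tendsto (fun N : ℕ => ε / 2 * (N : ℝ)) atTop atTop :=
      Tendsto.const_mul_atTop (by positivity) tendsto_natCast_atTop_atTop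
    exact this.eventually_ge_atTop _
  filter_upwards [h1 L hL, h2] with N g1 g2
  set k := K0 R L with hk
  set E : ℕ → ℂ := fun n => cexp (I * ((Fn φ L (seen dl n) : ℝ) : ℂ)) with hE
  have hE1 : ∀ n, ‖E n‖ = 1 := fun n => by
    rw [hE]
    simp only
    rw [mul_comm, Complex.norm_exp_ofReal_mul_I]
  have e1 : ∑ n ∈ Ioc 0 N, cexp (I * ((FF φ R L n : ℝ) : ℂ)) = ∑ n ∈ Ioc k (N + k), E n := by
    have e2 : Ioc k (N + k) = (Ioc 0 N).map (addRightEmbedding k) := by
      rw [Finset.map_add_right_Ioc, zero_add]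
    rw [e2, Finset.sum_map]
    refine Finset.sum_congr rfl fun n _ => ?_
    rw [hE]
    simp only [addRightEmbedding_apply]
    rw [hk, Fn_seen h hLp]
  have e3 : ∑ n ∈ Icc 1 N, E n = ∑ n ∈ Ioc k (N + k), E n + (∑ n ∈ Ioc 0 k, E n - ∑ n ∈ Ioc N (N + k), E n) := by
    have a1 : ∑ n ∈ Icc 1 N, E n + ∑ n ∈ Ioc N (N + k), E n = ∑ n ∈ Ioc 0 (N + k), E n := by
      rw [← Finset.sum_union]
      · congr 1
        ext x
        simp only [Finset.mem_union, Finset.mem_Ioc, Finset.mem_Icc]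
        omega
      · rw [Finset.disjoint_left]
        intro x hx hx2
        rw [Finset.mem_Icc] at hx
        rw [Finset.mem_Ioc] at hx2
        omega
    have a2 : ∑ n ∈ Ioc 0 k, E n + ∑ n ∈ Ioc k (N + k), E n = ∑ n ∈ Ioc 0 (N + k), E n := by
      rw [← Finset.sum_union]
      · congr 1
        ext x
        simp only [Finset.mem_union, Finset.mem_Ioc]
        omega
      · rw [Finset.disjoint_left]
        intro x hx hx2
        rw [Finset.mem_Ioc] at hx hx2
        omega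
    have a3 : ∑ n ∈ Icc 1 N, E n = ∑ n ∈ Ioc 0 (N + k), E n - ∑ n ∈ Ioc N (N + k), E n :=
      eq_sub_of_add_eq a1
    rw [a3, ← a2]
    ring
  have b1 : ‖∑ n ∈ Ioc 0 k, E n‖ ≤ k := by
    refine (norm_sum_le _ _).trans ((Finset.sum_le_sum fun n _ => (hE1 n).le).trans ?_)
    rw [Finset.sum_const, Nat.card_Ioc, nsmul_eq_mul, mul_one, Nat.sub_zero]
  have b2 : ‖∑ n ∈ Ioc N (N + k), E n‖ ≤ k := by
    refine (norm_sum_le _ _).trans ((Finset.sum_le_sum fun n _ => (hE1 n).le).trans ?_)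
    rw [Finset.sum_const, Nat.card_Ioc, nsmul_eq_mul, mul_one, Nat.add_sub_cancel_left]
  rw [e3, ← e1]
  set G := cexp ((-vr (fc φ) / 2 : ℝ) : ℂ)
  have e4 : ∑ n ∈ Ioc 0 N, cexp (I * ((FF φ R L n : ℝ) : ℂ)) +
      (∑ n ∈ Ioc 0 k, E n - ∑ n ∈ Ioc N (N + k), E n) - ((N : ℝ) : ℂ) * G =
      (∑ n ∈ Ioc 0 N, cexp (I * ((FF φ R L n : ℝ) : ℂ)) - ((N : ℝ) : ℂ) * G) +
      (∑ n ∈ Ioc 0 k, E n - ∑ n ∈ Ioc N (N + k), E n) := by ring
  rw [e4]
  refine (norm_add_le _ _).trans ?_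
  have b3 := norm_sub_le (∑ n ∈ Ioc 0 k, E n) (∑ n ∈ Ioc N (N + k), E n)
  linarith

/-- the characteristic function under the limit processes -/
theorem lim_char (h : Tst φ φ' B0 B2 R) (hf : CC (fc φ)) (ε : ℝ) (hε : 0 < ε) :
    ∃ L0 : ℝ, 1 ≤ L0 ∧ ∀ L : ℝ, L0 ≤ L → ∀ P : ProbabilityMeasure (ℤ → ℝ), IsLim (seen dl) P →
      ‖∫ q, cexp (I * ((Fn φ L q : ℝ) : ℂ)) ∂(P : Measure (ℤ → ℝ)) -
        cexp ((-vr (fc φ) / 2 : ℝ) : ℂ)‖ ≤ ε := by
  obtain ⟨L0, hL0, h1⟩ := emp_char h hf ε hε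
  refine ⟨L0, hL0, fun L hL P hP => ?_⟩
  have hLp : 0 < L := by linarith
  have hc := Fn_cont (L := L) h.supp hLp
  obtain ⟨ψ, hψ, hlim⟩ := hP
  have hcos := hlim (BoundedContinuousFunction.ofNormedAddCommGroup (fun q => Real.cos (Fn φ L q))
    (Real.continuous_cos.comp hc) 1 fun q => Real.abs_cos_le_one _)
  have hsin := hlim (BoundedContinuousFunction.ofNormedAddCommGroup (fun q => Real.sin (Fn φ L q))
    (Real.continuous_sin.comp hc) 1 fun q => Real.abs_sin_le_one _)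
  simp only [BoundedContinuousFunction.coe_ofNormedAddCommGroup] at hcos hsin
  have hexp : ∀ x : ℝ, cexp (I * (x : ℂ)) = (Real.cos x : ℂ) + (Real.sin x : ℂ) * I := by
    intro x
    rw [mul_comm, Complex.exp_mul_I]
    push_cast
    rfl
  have hlimC : Tendsto (fun j => (∑ n ∈ Icc 1 (ψ j), cexp (I * ((Fn φ L (seen dl n) : ℝ) : ℂ))) /
      ((ψ j : ℝ) : ℂ)) atTop (𝓝 (∫ q, cexp (I * ((Fn φ L q : ℝ) : ℂ)) ∂(P : Measure (ℤ → ℝ)))) := by
    have e1 : ∫ q, cexp (I * ((Fn φ L q : ℝ) : ℂ)) ∂(P : Measure (ℤ → ℝ)) =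
        ((∫ q, Real.cos (Fn φ L q) ∂(P : Measure (ℤ → ℝ)) : ℝ) : ℂ) +
        ((∫ q, Real.sin (Fn φ L q) ∂(P : Measure (ℤ → ℝ)) : ℝ) : ℂ) * I := by
      rw [← integral_complex_ofReal, ← integral_complex_ofReal, ← integral_mul_const, ← integral_add]
      · refine integral_congr_ae (Eventually.of_forall fun q => hexp _)
      · refine Integrable.ofReal ?_
        refine Integrable.of_bound (Real.continuous_cos.comp hc).aestronglyMeasurable 1 ?_
        exact Eventually.of_forall fun q => Real.abs_cos_le_one _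
      · refine Integrable.mul_const (Integrable.ofReal ?_) _
        refine Integrable.of_bound (Real.continuous_sin.comp hc).aestronglyMeasurable 1 ?_
        exact Eventually.of_forall fun q => Real.abs_sin_le_one _
    rw [e1]
    have h3 := ((Complex.continuous_ofReal.tendsto _).comp hcos).add
      (((Complex.continuous_ofReal.tendsto _).comp hsin).mul_const I)
    refine h3.congr fun j => ?_
    simp only [Function.comp_apply]
    unfold Q172.ZetaLim.av
    simp only [hexp, Finset.sum_add_distrib, ← Finset.sum_mul]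
    push_cast
    ring
  have h4 := (hlimC.sub_const (cexp ((-vr (fc φ) / 2 : ℝ) : ℂ))).norm
  refine le_of_tendsto h4 ?_
  filter_upwards [hψ.tendsto_atTop.eventually (h1 L hL),
    hψ.tendsto_atTop.eventually (eventually_gt_atTop 0)] with j hj hj0
  have hj1 : (0 : ℝ) < ψ j := by exact_mod_cast hj0
  have hj2 : ((ψ j : ℝ) : ℂ) ≠ 0 := by exact_mod_cast hj1.ne'
  have e5 : (∑ n ∈ Icc 1 (ψ j), cexp (I * ((Fn φ L (seen dl n) : ℝ) : ℂ))) / ((ψ j : ℝ) : ℂ) -
      cexp ((-vr (fc φ) / 2 : ℝ) : ℂ) = (∑ n ∈ Icc 1 (ψ j), cexp (I * ((Fn φ L (seen dl n) : ℝ) : ℂ)) -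
        ((ψ j : ℝ) : ℂ) * cexp ((-vr (fc φ) / 2 : ℝ) : ℂ)) / ((ψ j : ℝ) : ℂ) := by
    field_simp
  rw [e5, norm_div, Complex.norm_real, Real.norm_of_nonneg hj1.le, div_le_iff₀ hj1]
  exact hj

end Pool.Agent.Q278.GF
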